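import Pool.Agent.R937.CS.Grp

/-!
# Sign functions with prescribed mean values over the orbits of a group
-/

set_option autoImplicit false
set_option linter.unusedSectionVars false
set_option linter.unusedVariables false

namespace Pool.Agent.R937.BR

open Pool.Agent.R937.CS

noncomputable section

section action

variable {D X : Type} [Group D] [Fintype D] [Fintype X] [MulAction D X]

open Classical in
/-- The orbit of a point, as a finite set. -/
def Orb (D : Type) [Group D] [MulAction D X] (x : X) : Finset X :=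
  Finset.univ.filter fun y => ∃ d : D, d • x = y

theorem mem_Orb {x y : X} : y ∈ Orb D x ↔ ∃ d : D, d • x = y := by
  classical
  unfold Orb
  simp

theorem self_mem_Orb (x : X) : x ∈ Orb D x := mem_Orb.2 ⟨1, one_smul _ _⟩

theorem Orb_eq {x y : X} (h : y ∈ Orb D x) : Orb D y = Orb D x := by
  obtain ⟨d, rfl⟩ := mem_Orb.1 h
  ext z
  rw [mem_Orb, mem_Orb]
  constructor
  · rintro ⟨e, rfl⟩
    exact ⟨e * d, mul_smul _ _ _⟩
  · rintro ⟨e, rfl⟩
    exact ⟨e * d⁻¹, by rw [mul_smul, inv_smul_smul]⟩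

/-- Sign functions with prescribed mean values. -/
theorem exists_sign (c : X → X) (hc : ∀ x, c (c x) = x) (hne : ∀ x, c x ≠ x)
    (hcd : ∀ (d : D) x, c (d • x) = d • c x) (F : X → ℚ) (hF : ∀ (d : D) x, F (d • x) = F x)
    (hodd : ∀ x, F (c x) = -F x) (hle : ∀ x, |F x| ≤ 1)
    (hint : ∀ x, ∃ z : ℤ, ((Orb D x).card : ℚ) * (1 + F x) = 2 * z) :
    ∃ s : X → ℤ, (∀ x, s x = 1 ∨ s x = -1) ∧ (∀ x, s (c x) = -s x) ∧
      ∀ x, ∑ d : D, (s (d • x) : ℚ) = Fintype.card D * F x := by
  classical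
  let κ : Finset X → ℕ := fun O => (Fintype.equivFin (Finset X) O : ℕ)
  have hκ : Function.Injective κ := fun a b h => (Fintype.equivFin (Finset X)).injective (Fin.ext h)
  let ε : X → ℕ := fun x => (Fintype.equivFin X x : ℕ)
  have hε : Function.Injective ε := fun a b h => (Fintype.equivFin X).injective (Fin.ext h)
  have hcinj : Function.Injective c := fun a b h => by rw [← hc a, h, hc]
  -- the orbits of the images
  have hO : ∀ x y, y ∈ Orb D x → c y ∈ Orb D (c x) := by
    intro x y h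
    obtain ⟨d, rfl⟩ := mem_Orb.1 h
    exact mem_Orb.2 ⟨d, (hcd d x).symm⟩
  have hFO : ∀ x y, y ∈ Orb D x → F y = F x := by
    intro x y h
    obtain ⟨d, rfl⟩ := mem_Orb.1 h
    exact hF d x
  have himg : ∀ x, (Orb D x).image c = Orb D (c x) := by
    intro x
    ext y
    rw [Finset.mem_image]
    constructor
    · rintro ⟨z, hz, rfl⟩
      exact hO x z hz
    · intro hy
      refine ⟨c y, ?_, hc y⟩
      have := hO (c x) y hy
      rwa [hc] at this
  have hcard : ∀ x, (Orb D (c x)).card = (Orb D x).card := by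
    intro x
    rw [← himg, Finset.card_image_of_injective _ hcinj]
  -- the subsets
  have hA : ∀ x, ∃ A : Finset X, A ⊆ Orb D x ∧
      2 * (A.card : ℚ) = (Orb D x).card * (1 + F x) := by
    intro x
    obtain ⟨z, hz⟩ := hint x
    have h1 := abs_le.1 (hle x)
    have h2 : (0 : ℚ) < (Orb D x).card := by
      exact_mod_cast Finset.card_pos.2 ⟨x, self_mem_Orb x⟩
    have h3 : (0 : ℚ) ≤ z := by nlinarith
    have h4 : (z : ℚ) ≤ (Orb D x).card := by nlinarith
    have h5 : 0 ≤ z := by exact_mod_cast h3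
    obtain ⟨a, rfl⟩ := Int.eq_ofNat_of_zero_le h5
    have h6 : a ≤ (Orb D x).card := by exact_mod_cast h4
    obtain ⟨A, hA1, hA2⟩ := Finset.exists_subset_card_eq h6
    refine ⟨A, hA1, ?_⟩
    rw [hz, hA2]
    push_cast
    rfl
  have hA' : ∃ A : Finset X → Finset X, ∀ x, A (Orb D x) ⊆ Orb D x ∧
      2 * ((A (Orb D x)).card : ℚ) = (Orb D x).card * (1 + F x) := by
    choose A0 hA0 using hA
    refine ⟨fun O => if h : ∃ x, Orb D x = O then A0 h.choose else ∅, fun x => ?_⟩
    have h : ∃ y, Orb D y = Orb D x := ⟨x, rfl⟩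
    beta_reduce
    rw [dif_pos h]
    have h1 := h.choose_spec
    have h2 := hA0 h.choose
    have h3 : x ∈ Orb D h.choose := by
      rw [h1]
      exact self_mem_Orb x
    have h4 := hFO _ _ h3
    rw [h1, ← h4] at h2
    exact h2
  obtain ⟨A, hA⟩ := hA'
  let s : X → ℤ := fun x =>
    if κ (Orb D x) < κ (Orb D (c x)) then (if x ∈ A (Orb D x) then 1 else -1)
    else if κ (Orb D (c x)) < κ (Orb D x) then (if c x ∈ A (Orb D (c x)) then -1 else 1)
    else (if ε x < ε (c x) then 1 else -1)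
  have hs1 : ∀ x, s x = 1 ∨ s x = -1 := by
    intro x
    change (if _ then _ else _ : ℤ) = 1 ∨ (if _ then _ else _ : ℤ) = -1
    split_ifs <;> simp
  have hs2 : ∀ x, s (c x) = -s x := by
    intro x
    change (if κ (Orb D (c x)) < κ (Orb D (c (c x))) then (if c x ∈ A (Orb D (c x)) then (1 : ℤ)
        else -1)
      else if κ (Orb D (c (c x))) < κ (Orb D (c x)) then (if c (c x) ∈ A (Orb D (c (c x))) then -1
        else 1)
      else (if ε (c x) < ε (c (c x)) then 1 else -1)) =
      -(if κ (Orb D x) < κ (Orb D (c x)) then (if x ∈ A (Orb D x) then 1 else -1)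
        else if κ (Orb D (c x)) < κ (Orb D x) then (if c x ∈ A (Orb D (c x)) then -1 else 1)
        else (if ε x < ε (c x) then 1 else -1))
    rw [hc]
    rcases lt_trichotomy (κ (Orb D x)) (κ (Orb D (c x))) with h | h | h
    · rw [if_neg (not_lt.2 h.le), if_pos h, if_pos h]
      split_ifs <;> norm_num
    · rw [if_neg (not_lt.2 h.le), if_neg (not_lt.2 h.ge), if_neg (not_lt.2 h.ge),
        if_neg (not_lt.2 h.le)]
      have h1 : ε x ≠ ε (c x) := fun h1 => hne x (hε h1).symm
      rcases lt_or_gt_of_ne h1 with h2 | h2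
      · rw [if_neg (not_lt.2 h2.le), if_pos h2]
      · rw [if_pos h2, if_neg (not_lt.2 h2.le), neg_neg]
    · rw [if_pos h, if_neg (not_lt.2 h.le), if_pos h]
      split_ifs <;> norm_num
  have hlt : ∀ x, κ (Orb D x) < κ (Orb D (c x)) →
      ∑ y ∈ Orb D x, (s y : ℚ) = (Orb D x).card * F x := by
    intro x hx
    have h1 : ∀ y ∈ Orb D x, (s y : ℚ) = 2 * (if y ∈ A (Orb D x) then 1 else 0) - 1 := by
      intro y hy
      have h2 := Orb_eq hy
      have h3 := Orb_eq (hO x y hy)
      change ((if κ (Orb D y) < κ (Orb D (c y)) then (if y ∈ A (Orb D y) then (1 : ℤ) else -1)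
        else if κ (Orb D (c y)) < κ (Orb D y) then (if c y ∈ A (Orb D (c y)) then -1 else 1)
        else (if ε y < ε (c y) then 1 else -1) : ℤ) : ℚ) = _
      rw [h2, h3, if_pos hx]
      split_ifs <;> norm_num
    rw [Finset.sum_congr rfl h1, Finset.sum_sub_distrib, ← Finset.mul_sum, Finset.sum_boole,
      Finset.sum_const, nsmul_eq_mul, mul_one]
    have h2 : (Orb D x).filter (fun y => y ∈ A (Orb D x)) = A (Orb D x) := by
      ext y
      rw [Finset.mem_filter]
      exact ⟨fun h => h.2, fun h => ⟨(hA x).1 h, h⟩⟩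
    rw [h2, (hA x).2]
    ring
  have hsum : ∀ x, ∑ y ∈ Orb D x, (s y : ℚ) = (Orb D x).card * F x := by
    intro x
    rcases lt_trichotomy (κ (Orb D x)) (κ (Orb D (c x))) with h | h | h
    · exact hlt x h
    · have h1 : Orb D x = Orb D (c x) := hκ h
      have h2 : F x = 0 := by
        have h3 : c x ∈ Orb D x := by
          rw [h1]
          exact self_mem_Orb _
        have h4 := hFO x _ h3
        rw [hodd] at h4
        linarith
      rw [h2, mul_zero]
      have h3 : ∑ y ∈ Orb D x, (s y : ℚ) = ∑ y ∈ Orb D x, (s (c y) : ℚ) := by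
        have h4 : Orb D x = (Orb D x).image c := by rw [himg, ← h1]
        conv_lhs => rw [h4]
        rw [Finset.sum_image fun a _ b _ h => hcinj h]
      have h4 : ∑ y ∈ Orb D x, (s (c y) : ℚ) = -∑ y ∈ Orb D x, (s y : ℚ) := by
        rw [← Finset.sum_neg_distrib]
        refine Finset.sum_congr rfl fun y _ => ?_
        rw [hs2]
        push_cast
        rfl
      rw [h4] at h3
      linarith
    · have h1 := hlt (c x) (by rwa [hc])
      rw [← himg, Finset.sum_image fun a _ b _ h => hcinj h, himg, hcard, hodd] at h1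
      have h4 : ∑ y ∈ Orb D x, (s (c y) : ℚ) = -∑ y ∈ Orb D x, (s y : ℚ) := by
        rw [← Finset.sum_neg_distrib]
        refine Finset.sum_congr rfl fun y _ => ?_
        rw [hs2]
        push_cast
        rfl
      rw [h4] at h1
      linarith
  refine ⟨s, hs1, hs2, fun x => ?_⟩
  have h1 : ∀ y ∈ Orb D x, ∑ d : D, (s (d • y) : ℚ) = ∑ d : D, (s (d • x) : ℚ) := by
    intro y hy
    obtain ⟨e, rfl⟩ := mem_Orb.1 hy
    rw [← Equiv.sum_comp (Equiv.mulRight e) fun d : D => (s (d • x) : ℚ)]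
    exact Finset.sum_congr rfl fun d _ => by rw [Equiv.coe_mulRight, mul_smul]
  have h2 : ∀ d : D, ∑ y ∈ Orb D x, (s (d • y) : ℚ) = ∑ y ∈ Orb D x, (s y : ℚ) := by
    intro d
    have h3 : (Orb D x).image (fun y => d • y) = Orb D x := by
      ext z
      rw [Finset.mem_image]
      constructor
      · rintro ⟨y, hy, rfl⟩
        obtain ⟨e, rfl⟩ := mem_Orb.1 hy
        exact mem_Orb.2 ⟨d * e, mul_smul _ _ _⟩
      · intro hz
        obtain ⟨e, rfl⟩ := mem_Orb.1 hz
        exact ⟨(d⁻¹ * e) • x, mem_Orb.2 ⟨_, rfl⟩, by rw [mul_smul, smul_inv_smul]⟩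
    conv_rhs => rw [← h3]
    rw [Finset.sum_image fun a _ b _ h => MulAction.injective d h]
  have h3 : ((Orb D x).card : ℚ) * ∑ d : D, (s (d • x) : ℚ) =
      (Orb D x).card * (Fintype.card D * F x) := by
    have h4 : ∑ y ∈ Orb D x, ∑ d : D, (s (d • y) : ℚ) =
        (Orb D x).card * ∑ d : D, (s (d • x) : ℚ) := by
      rw [Finset.sum_congr rfl h1, Finset.sum_const, nsmul_eq_mul]
    rw [← h4, Finset.sum_comm, Finset.sum_congr rfl fun d _ => h2 d, hsum, Finset.sum_const,
      Finset.card_univ, nsmul_eq_mul]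
    ring
  have h4 : ((Orb D x).card : ℚ) ≠ 0 := by
    have : 0 < (Orb D x).card := Finset.card_pos.2 ⟨x, self_mem_Orb x⟩
    exact_mod_cast this.ne'
  exact mul_left_cancel₀ h4 h3

theorem card_Orb (x : X) : (Orb D x).card = (MulAction.stabilizer D x).index := by
  classical
  rw [MulAction.index_stabilizer, ← Nat.card_coe_set_eq]
  have h1 : (Orb D x : Set X) = MulAction.orbit D x := by
    ext y
    rw [Finset.mem_coe, mem_Orb]
    rfl
  rw [← h1, Nat.card_eq_fintype_card]
  simp

end action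

section group

variable {G : Type} [Group G] [Fintype G] (D N H : Subgroup G) (c : G)

/-- Functions on a group with prescribed mean values that are sums of sign functions. -/
theorem realise (hcomm : ∀ g, c * g = g * c) (hc2 : c * c = 1) (hcN : c ∉ N)
    (hDH : ∀ g : G, ∃ d ∈ D, d⁻¹ * g ∈ H) (F : G → ℚ) (hFD : ∀ d ∈ D, ∀ g, F (d * g) = F g)
    (hFN : ∀ g, ∀ n ∈ N, F (g * n) = F g) (hodd : ∀ g, F (c * g) = -F g) (hle : ∀ g, |F g| ≤ 1)
    (hint : ∀ g, ∃ z : ℤ, (H.index : ℚ) * (1 + F g) = 2 * z) :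
    ∃ s : G → ℤ, (∀ x, s x = 1 ∨ s x = -1) ∧ (∀ x, s (c * x) = -s x) ∧
      (∀ g, ∀ n ∈ N ⊓ H, s (g * n) = s g) ∧
      ∀ g, (av D s g : ℚ) = Nat.card D * F g := by
  classical
  let R : Subgroup G := N ⊓ H
  have hR : ∀ g : G, ∀ r ∈ R, F (g * r) = F g := fun g r hr => hFN g r hr.1
  let F' : G ⧸ R → ℚ := fun x => F x.out
  have hF' : ∀ g : G, F' (g : G ⧸ R) = F g := by
    intro g
    obtain ⟨r, hr⟩ := QuotientGroup.mk_out_eq_mul R g
    change F (Quotient.out (g : G ⧸ R)) = F g
    rw [hr]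
    exact hR g r r.2
  let c' : G ⧸ R → G ⧸ R := fun x => c • x
  have hc' : ∀ g : G, c' (g : G ⧸ R) = ((c * g : G) : G ⧸ R) := fun g => rfl
  have hsm : ∀ (d : D) (g : G), d • (g : G ⧸ R) = ((d * g : G) : G ⧸ R) := fun d g => rfl
  have hidx : ∀ g : G, H.index ∣ (Orb D (g : G ⧸ R)).card := by
    intro g
    have h1 : (MulAction.stabilizer D (g : G ⧸ H)).index = H.index := by
      rw [← card_Orb, Subgroup.index_eq_card, Nat.card_eq_fintype_card, ← Finset.card_univ]
      congr 1
      ext y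
      simp only [Finset.mem_univ, iff_true]
      obtain ⟨y, rfl⟩ := QuotientGroup.mk_surjective y
      rw [mem_Orb]
      obtain ⟨d, hd, h2⟩ := hDH y
      obtain ⟨e, he, h3⟩ := hDH g
      refine ⟨⟨d, hd⟩ * ⟨e, he⟩⁻¹, ?_⟩
      change (((d * e⁻¹ : G) * g : G) : G ⧸ H) = _
      rw [QuotientGroup.eq]
      have h4 : (d * e⁻¹ * g)⁻¹ * y = (e⁻¹ * g)⁻¹ * (d⁻¹ * y) := by group
      rw [h4]
      exact H.mul_mem (H.inv_mem h3) h2
    rw [card_Orb, ← h1]
    refine Subgroup.index_dvd_of_le ?_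
    intro d hd
    rw [MulAction.mem_stabilizer_iff] at hd ⊢
    change ((d * g : G) : G ⧸ R) = (g : G ⧸ R) at hd
    change ((d * g : G) : G ⧸ H) = (g : G ⧸ H)
    rw [QuotientGroup.eq] at hd ⊢
    exact hd.2
  obtain ⟨s, hs1, hs2, hs3⟩ := exists_sign (D := D) c' (fun x => by
      change c • c • x = x
      rw [← mul_smul, hc2, one_smul]) (fun x => by
      obtain ⟨g, rfl⟩ := QuotientGroup.mk_surjective x
      rw [hc', ne_eq, QuotientGroup.eq]
      intro h
      have h1 : (c * g)⁻¹ * g = c⁻¹ := by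
        rw [hcomm]
        group
      rw [h1] at h
      exact hcN ((Subgroup.inv_mem_iff R).1 h).1) (fun d x => by
      obtain ⟨g, rfl⟩ := QuotientGroup.mk_surjective x
      rw [hc', hsm, hsm, hc', ← mul_assoc, hcomm, mul_assoc]) F' (fun d x => by
      obtain ⟨g, rfl⟩ := QuotientGroup.mk_surjective x
      rw [hsm, hF', hF']
      exact hFD d d.2 g) (fun x => by
      obtain ⟨g, rfl⟩ := QuotientGroup.mk_surjective x
      rw [hc', hF', hF']
      exact hodd g) (fun x => hle _) (fun x => by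
      obtain ⟨g, rfl⟩ := QuotientGroup.mk_surjective x
      obtain ⟨z, hz⟩ := hint g
      obtain ⟨k, hk⟩ := hidx g
      refine ⟨k * z, ?_⟩
      rw [hF', hk]
      push_cast
      linear_combination (k : ℚ) * hz)
  refine ⟨fun g => s (g : G ⧸ R), fun g => hs1 _, fun g => hs2 (g : G ⧸ R), fun g n hn => ?_,
    fun g => ?_⟩
  · change s ((g * n : G) : G ⧸ R) = s (g : G ⧸ R)
    congr 1
    rw [QuotientGroup.eq]
    have h1 : (g * n)⁻¹ * g = n⁻¹ := by group
    rw [h1]
    exact R.inv_mem hn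
  · have h1 := hs3 (g : G ⧸ R)
    rw [hF', ← Nat.card_eq_fintype_card] at h1
    rw [← h1]
    unfold av
    rw [← Finset.sum_filter, ← Finset.sum_coe_sort]
    push_cast
    refine Fintype.sum_equiv (Equiv.subtypeEquivRight fun x => ?_) _ _ fun d => rfl
    simp

end group

end

end Pool.Agent.R937.BR
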