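import Pool.Agent.R937.BR.Proj
import Pool.Agent.R937.BR.Sign
import Pool.Agent.TH117.BL.Gen

/-!
# The decomposition of functions with bounded denominators and large stabilizers
-/

set_option autoImplicit false
set_option linter.unusedSectionVars false
set_option linter.unusedVariables false

namespace Pool.Agent.R937.BR

open Pool.Agent.R937.CS Pool.Agent.W495.TC Pool.Agent.TH117.BL
open scoped Nat

noncomputable section

variable {G : Type} [Group G] [Fintype G]

/-- The double coset of an element. -/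
def dc (D N : Subgroup G) (x : G) : Set G := {y | ∃ d ∈ D, ∃ n ∈ N, y = d * x * n}

/-- The set `O` is a double coset. -/
def IsDC (D N : Subgroup G) (O : Set G) : Prop := ∃ x, O = dc D N x

theorem self_mem_dc (D N : Subgroup G) (x : G) : x ∈ dc D N x :=
  ⟨1, D.one_mem, 1, N.one_mem, by simp⟩

theorem dc_eq {D N : Subgroup G} {x y : G} (h : y ∈ dc D N x) : dc D N y = dc D N x := by
  obtain ⟨d, hd, n, hn, rfl⟩ := h
  ext z
  constructor
  · rintro ⟨e, he, m, hm, rfl⟩
    exact ⟨e * d, D.mul_mem he hd, n * m, N.mul_mem hn hm, by group⟩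
  · rintro ⟨e, he, m, hm, rfl⟩
    exact ⟨e * d⁻¹, D.mul_mem he (D.inv_mem hd), n⁻¹ * m, N.mul_mem (N.inv_mem hn) hm, by group⟩

/-- Labels: normal subgroups of bounded index and double cosets. -/
abbrev Lab (D : Subgroup G) (c : G) (X : ℕ) : Type :=
  {l : Subgroup G × Set G // l.1.Normal ∧ c ∉ l.1 ∧ l.1.index ≤ X ∧ IsDC D l.1 l.2}

variable {D : Subgroup G} {c : G} {X : ℕ}

instance : Finite (Lab D c X) := Subtype.finite
instance : Fintype (Lab D c X) := Fintype.ofFinite _

/-- The normal subgroup of a label. -/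
def nn (l : Lab D c X) : NS G := ⟨l.1.1, l.2.1⟩

/-- An element of the double coset. -/
def rep (l : Lab D c X) : G := l.2.2.2.2.choose

theorem lab_eq (l : Lab D c X) : l.1.2 = dc D (nn l).1 (rep l) := l.2.2.2.2.choose_spec

theorem rep_mem (l : Lab D c X) : rep l ∈ l.1.2 := by
  rw [lab_eq]
  exact self_mem_dc _ _ _

/-- Labels with the same subgroup and a common element agree. -/
theorem lab_ext (l l' : Lab D c X) (h : nn l = nn l') (g : G) (hg : g ∈ l.1.2) (hg' : g ∈ l'.1.2) :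
    l = l' := by
  have h1 : l.1.1 = l'.1.1 := congrArg Subtype.val h
  refine Subtype.ext (Prod.ext h1 ?_)
  rw [lab_eq] at hg hg'
  rw [lab_eq, lab_eq, ← dc_eq hg, ← dc_eq hg', h]

/-- Invariance of functions. -/
theorem eq_rep {l : Lab D c X} {α : Type} (h : G → α) (h1 : ∀ d ∈ D, ∀ g, h (d * g) = h g)
    (h2 : ∀ g, ∀ n ∈ (nn l).1, h (g * n) = h g) {g : G} (hg : g ∈ l.1.2) : h (rep l) = h g := by
  rw [lab_eq] at hg
  obtain ⟨d, hd, n, hn, rfl⟩ := hg
  rw [h2 _ n hn, h1 d hd]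

section conj

variable (hcomm : ∀ g, c * g = g * c) (hc2 : c * c = 1)

include hcomm hc2

/-- The conjugate label. -/
def cl (l : Lab D c X) : Lab D c X :=
  ⟨(l.1.1, {g | c * g ∈ l.1.2}), l.2.1, l.2.2.1, l.2.2.2.1, by
    obtain ⟨x, hx⟩ := l.2.2.2.2
    refine ⟨c * x, ?_⟩
    ext y
    change c * y ∈ l.1.2 ↔ _
    rw [hx]
    constructor
    · rintro ⟨d, hd, n, hn, h⟩
      refine ⟨d, hd, n, hn, ?_⟩
      have h1 : y = c * (c * y) := by rw [← mul_assoc, hc2, one_mul]
      rw [h1, h]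
      calc c * (d * x * n) = (c * d) * x * n := by group
        _ = d * (c * x) * n := by rw [hcomm d]; group
    · rintro ⟨d, hd, n, hn, rfl⟩
      refine ⟨d, hd, n, hn, ?_⟩
      calc c * (d * (c * x) * n) = (c * d) * (c * x) * n := by group
        _ = d * (c * c) * x * n := by rw [hcomm d]; group
        _ = d * x * n := by rw [hc2, mul_one]⟩

theorem mem_cl (l : Lab D c X) (g : G) : g ∈ (cl hcomm hc2 l).1.2 ↔ c * g ∈ l.1.2 := Iff.rfl

theorem nn_cl (l : Lab D c X) : nn (cl hcomm hc2 l) = nn l := rfl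

theorem cl_cl : Function.Involutive (cl hcomm hc2 : Lab D c X → Lab D c X) := by
  intro l
  refine Subtype.ext (Prod.ext rfl ?_)
  ext g
  change c * (c * g) ∈ l.1.2 ↔ g ∈ l.1.2
  rw [← mul_assoc, hc2, one_mul]

end conj

open Classical in
/-- The functions of the labels. -/
def bet (M : ℕ) (l : Lab D c X) : G → ℚ := fun g =>
  ((if g ∈ l.1.2 then 1 else 0) - (if c * g ∈ l.1.2 then 1 else 0)) / M

/-- The coefficients. -/
def ee (M : ℕ) (f : G → ℚ) (l : Lab D c X) : ℕ := (⌊(M : ℚ) * Q (nn l) f (rep l)⌋).toNat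

/-- Functions that are invariant under the decomposition group and odd, with a stabilizer of index at
most `n`, with denominators dividing `n!`, bounded by `n`. -/
structure IsAtom (D : Subgroup G) (c : G) (n : ℕ) (f : G → ℚ) : Prop where
  left : ∀ d ∈ D, ∀ g, f (d * g) = f g
  odd : ∀ g, f (c * g) = -f g
  right : ∃ H : Subgroup G, H.index ≤ n ∧ ∀ g, ∀ h ∈ H, f (g * h) = f g
  int : ∀ g, ∃ z : ℤ, (n ! : ℚ) * f g = z
  bound : ∀ g, |f g| ≤ n

/-- The common denominator. -/
def MM (n : ℕ) : ℕ := n ! * (n !) !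

theorem MM_pos (n : ℕ) : 0 < MM n := Nat.mul_pos (Nat.factorial_pos _) (Nat.factorial_pos _)

theorem toNat_sub (q : ℚ) (hq : ∃ z : ℤ, q = z) :
    ((⌊q⌋.toNat : ℕ) : ℚ) - ((⌊-q⌋.toNat : ℕ) : ℚ) = q := by
  obtain ⟨z, rfl⟩ := hq
  rw [Int.floor_intCast, ← Int.cast_neg, Int.floor_intCast]
  rcases le_total 0 z with h | h
  · have h1 : (-z).toNat = 0 := Int.toNat_of_nonpos (by omega)
    have h2 : ((z.toNat : ℤ) : ℚ) = z := by rw [Int.toNat_of_nonneg h]
    rw [h1, Nat.cast_zero, sub_zero]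
    exact_mod_cast h2
  · have h1 : z.toNat = 0 := Int.toNat_of_nonpos h
    have h2 : (((-z).toNat : ℤ) : ℚ) = -z := by
      rw [Int.toNat_of_nonneg (by omega)]
      push_cast
      rfl
    rw [h1, Nat.cast_zero, zero_sub]
    have h3 : (((-z).toNat : ℕ) : ℚ) = -z := by exact_mod_cast h2
    rw [h3, neg_neg]

theorem card_above (K : NS G) [DecidablePred fun N : NS G => K ≤ N] :
    (Finset.univ.filter fun N : NS G => K ≤ N).card ≤ 2 ^ K.1.index := by
  classical
  have h1 : (Finset.univ.filter fun N : NS G => K ≤ N).card ≤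
      (Finset.univ : Finset (Set (G ⧸ K.1))).card := by
    refine Finset.card_le_card_of_injOn (fun N => {q | q.out ∈ N.1}) (fun _ _ => Finset.mem_univ _)
      ?_
    intro N hN N' hN' h
    have hN1 : K ≤ N := (Finset.mem_filter.1 hN).2
    have hN2 : K ≤ N' := (Finset.mem_filter.1 hN').2
    refine Subtype.ext (Subgroup.ext fun x => ?_)
    obtain ⟨k, hk⟩ := QuotientGroup.mk_out_eq_mul K.1 x
    have h2 : ((x : G ⧸ K.1)).out ∈ N.1 ↔ ((x : G ⧸ K.1)).out ∈ N'.1 :=
      Set.ext_iff.1 h (x : G ⧸ K.1)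
    rw [hk, N.1.mul_mem_cancel_right (hN1 k.2), N'.1.mul_mem_cancel_right (hN2 k.2)] at h2
    exact h2
  refine h1.trans (le_of_eq ?_)
  rw [Finset.card_univ, Fintype.card_set, Subgroup.index, Nat.card_eq_fintype_card]

theorem card_lab (K : NS G) [DecidablePred fun l : Lab D c X => K ≤ nn l] :
    (Finset.univ.filter fun l : Lab D c X => K ≤ nn l).card ≤ 2 ^ K.1.index * K.1.index := by
  classical
  have h1 : (Finset.univ.filter fun l : Lab D c X => K ≤ nn l).card ≤
      (Finset.univ : Finset (Set (G ⧸ K.1) × (G ⧸ K.1))).card := by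
    refine Finset.card_le_card_of_injOn
      (fun l => ({q | q.out ∈ (nn l).1}, ((rep l : G) : G ⧸ K.1))) (fun _ _ => Finset.mem_univ _)
      ?_
    intro l hl l' hl' h
    have hN1 : K ≤ nn l := (Finset.mem_filter.1 hl).2
    have hN2 : K ≤ nn l' := (Finset.mem_filter.1 hl').2
    have h1 := congrArg Prod.fst h
    have h2 : ((rep l : G) : G ⧸ K.1) = ((rep l' : G) : G ⧸ K.1) := congrArg Prod.snd h
    have h3 : nn l = nn l' := by
      refine Subtype.ext (Subgroup.ext fun x => ?_)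
      obtain ⟨k, hk⟩ := QuotientGroup.mk_out_eq_mul K.1 x
      have h2 : ((x : G ⧸ K.1)).out ∈ (nn l).1 ↔ ((x : G ⧸ K.1)).out ∈ (nn l').1 :=
        Set.ext_iff.1 h1 (x : G ⧸ K.1)
      rw [hk, (nn l).1.mul_mem_cancel_right (hN1 k.2), (nn l').1.mul_mem_cancel_right (hN2 k.2)]
        at h2
      exact h2
    refine lab_ext l l' h3 (rep l') ?_ (rep_mem l')
    rw [lab_eq]
    have h4 : (rep l)⁻¹ * rep l' ∈ K.1 := QuotientGroup.eq.1 h2
    exact ⟨1, D.one_mem, _, hN1 h4, by group⟩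
  refine h1.trans (le_of_eq ?_)
  rw [Finset.card_univ, Fintype.card_prod, Fintype.card_set, Subgroup.index,
    Nat.card_eq_fintype_card]

theorem index_core (H : Subgroup G) : H.normalCore.index ≤ H.index ! := by
  have h : H.normalCore.index ∣ H.index ! := by
    rw [Subgroup.normalCore_eq_ker, Subgroup.index_ker, Subgroup.index_eq_card, ← Nat.card_perm]
    exact Subgroup.card_subgroup_dvd_card _
  exact Nat.le_of_dvd (Nat.factorial_pos _) h

section atom

variable {n : ℕ} {f : G → ℚ}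

/-- A normal subgroup of bounded index. -/
theorem exists_core (hf : IsAtom D c n f) : ∃ K : NS G, K.1.index ≤ n ! ∧
    ∀ g, ∀ k ∈ K.1, f (g * k) = f g := by
  obtain ⟨H, hH, h⟩ := hf.right
  exact ⟨⟨H.normalCore, inferInstance⟩, (index_core H).trans (Nat.factorial_le hH),
    fun g k hk => h g k (Subgroup.normalCore_le H hk)⟩

theorem Q_inv_left (hf : IsAtom D c n f) (N : NS G) : ∀ d ∈ D, ∀ g, Q N f (d * g) = Q N f g :=
  fun d hd g => Q_left N f d (hf.left d hd) g

theorem Q_integral (hf : IsAtom D c n f) (N : NS G) (g : G) :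
    ∃ z : ℤ, (MM n : ℚ) * Q N f g = z := by
  obtain ⟨K, hK, hfK⟩ := exists_core hf
  by_cases h : K ≤ N
  · refine Q_int N K h f hfK (n !) ((n !) !) (fun N' _ => ?_) hf.int g
    have h1 : K.1.relIndex N'.1 ∣ K.1.index := Subgroup.relIndex_dvd_index_of_normal _ _
    have h2 : K.1.relIndex N'.1 ≤ n ! :=
      (Nat.le_of_dvd (Nat.pos_of_ne_zero Subgroup.index_ne_zero_of_finite) h1).trans hK
    have h3 : 0 < K.1.relIndex N'.1 := by
      refine Nat.pos_of_ne_zero fun h4 => ?_
      rw [h4, zero_dvd_iff] at h1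
      exact Subgroup.index_ne_zero_of_finite h1
    exact Nat.dvd_factorial h3 h2
  · exact ⟨0, by rw [Q_eq_zero N K f hfK h]; simp⟩

theorem ee_eq (hf : IsAtom D c n f) (l : Lab D c X) {g : G} (hg : g ∈ l.1.2) :
    ee (MM n) f l = (⌊(MM n : ℚ) * Q (nn l) f g⌋).toNat := by
  unfold ee
  rw [eq_rep (Q (nn l) f) (Q_inv_left hf _) (fun g n hn => Q_right _ f hn g) hg]

open Classical in
theorem sum_ind (hf : IsAtom D c n f) (g : G) :
    ∑ l : Lab D c X, (ee (MM n) f l : ℚ) * (if g ∈ l.1.2 then 1 else 0) =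
      ∑ N : NS G with c ∉ N.1 ∧ N.1.index ≤ X, ((⌊(MM n : ℚ) * Q N f g⌋.toNat : ℕ) : ℚ) := by
  have h1 : ∀ l : Lab D c X, (ee (MM n) f l : ℚ) * (if g ∈ l.1.2 then 1 else 0) =
      if g ∈ l.1.2 then ((⌊(MM n : ℚ) * Q (nn l) f g⌋.toNat : ℕ) : ℚ) else 0 := by
    intro l
    by_cases h : g ∈ l.1.2
    · rw [if_pos h, if_pos h, mul_one, ee_eq hf l h]
    · rw [if_neg h, if_neg h, mul_zero]
  rw [Finset.sum_congr rfl fun l _ => h1 l, ← Finset.sum_filter]
  refine Finset.sum_bij (fun l _ => nn l) ?_ ?_ ?_ ?_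
  · intro l _
    rw [Finset.mem_filter]
    exact ⟨Finset.mem_univ _, l.2.2.1, l.2.2.2.1⟩
  · intro l hl l' hl' h
    exact lab_ext l l' h g (Finset.mem_filter.1 hl).2 (Finset.mem_filter.1 hl').2
  · intro N hN
    obtain ⟨-, h2, h3⟩ := Finset.mem_filter.1 hN
    refine ⟨⟨(N.1, dc D N.1 g), N.2, h2, h3, g, rfl⟩, ?_, rfl⟩
    rw [Finset.mem_filter]
    exact ⟨Finset.mem_univ _, self_mem_dc _ _ _⟩
  · intro l _
    rfl

/-- **The decomposition.** -/
theorem eq_sum_bet (hcomm : ∀ g, c * g = g * c) (hf : IsAtom D c n f) (g : G) :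
    ∑ l : Lab D c (n !), (ee (MM n) f l : ℚ) * bet (MM n) l g = f g := by
  classical
  have hM : (0 : ℚ) < MM n := by exact_mod_cast MM_pos n
  have h1 : ∀ l : Lab D c (n !), (ee (MM n) f l : ℚ) * bet (MM n) l g =
      ((ee (MM n) f l : ℚ) * (if g ∈ l.1.2 then 1 else 0) -
        (ee (MM n) f l : ℚ) * (if c * g ∈ l.1.2 then 1 else 0)) / MM n := by
    intro l
    unfold bet
    ring
  rw [Finset.sum_congr rfl fun l _ => h1 l, ← Finset.sum_div, Finset.sum_sub_distrib, sum_ind hf,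
    sum_ind hf, ← Finset.sum_sub_distrib]
  have h2 : ∀ N : NS G, ((⌊(MM n : ℚ) * Q N f g⌋.toNat : ℕ) : ℚ) -
      ((⌊(MM n : ℚ) * Q N f (c * g)⌋.toNat : ℕ) : ℚ) = MM n * Q N f g := by
    intro N
    rw [Q_odd N f c hf.odd, mul_neg]
    exact toNat_sub _ (Q_integral hf N g)
  rw [Finset.sum_congr rfl fun N _ => h2 N, ← Finset.mul_sum, mul_div_cancel_left₀ _ hM.ne']
  obtain ⟨K, hK, hfK⟩ := exists_core hf
  have h3 : ∑ N : NS G with c ∉ N.1 ∧ N.1.index ≤ n !, Q N f g = ∑ N : NS G, Q N f g := by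
    refine Finset.sum_subset (Finset.subset_univ _) fun N _ hN => ?_
    rw [Finset.mem_filter, not_and, not_and_or] at hN
    rcases hN (Finset.mem_univ _) with h | h
    · rw [Q_c N f c hcomm hf.odd (not_not.1 h)]
      rfl
    · rw [Q_eq_zero N K f hfK]
      · rfl
      · intro h4
        exact h ((Nat.le_of_dvd (Nat.pos_of_ne_zero Subgroup.index_ne_zero_of_finite)
          (Subgroup.index_dvd_of_le h4)).trans hK)
  have h4 : ∑ N : NS G with K ≤ N, Q N f g = ∑ N : NS G, Q N f g := by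
    refine Finset.sum_subset (Finset.subset_univ _) fun N _ hN => ?_
    rw [Finset.mem_filter, not_and] at hN
    rw [Q_eq_zero N K f hfK (hN (Finset.mem_univ _))]
    rfl
  rw [h3, ← h4]
  have h5 := congrFun (eq_sum_Q K f hfK) g
  rw [Finset.sum_apply] at h5
  exact h5.symm

/-- The coefficients of a label and of its conjugate. -/
theorem ee_sub (hcomm : ∀ g, c * g = g * c) (hc2 : c * c = 1) (hf : IsAtom D c n f)
    (l : Lab D c X) :
    ((ee (MM n) f l : ℕ) : ℚ) - (ee (MM n) f (cl hcomm hc2 l) : ℕ) =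
      MM n * Q (nn l) f (rep l) := by
  have h1 : c * rep l ∈ (cl hcomm hc2 l).1.2 := by
    rw [mem_cl, ← mul_assoc, hc2, one_mul]
    exact rep_mem l
  rw [ee_eq hf l (rep_mem l), ee_eq hf _ h1, nn_cl, Q_odd _ f c hf.odd, mul_neg]
  exact toNat_sub _ (Q_integral hf _ _)

/-- A bound for the number of labels. -/
def EE (n : ℕ) : ℕ := (2 ^ n ! * n !) * (MM n * (n * (2 ^ n !) !))

theorem sum_ee_le (hf : IsAtom D c n f) : ∑ l : Lab D c (n !), ee (MM n) f l ≤ EE n := by
  classical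
  obtain ⟨K, hK, hfK⟩ := exists_core hf
  have h1 : ∑ l : Lab D c (n !), ee (MM n) f l =
      ∑ l : Lab D c (n !) with K ≤ nn l, ee (MM n) f l := by
    symm
    refine Finset.sum_subset (Finset.subset_univ _) fun l _ hl => ?_
    rw [Finset.mem_filter, not_and] at hl
    unfold ee
    rw [Q_eq_zero _ K f hfK (hl (Finset.mem_univ _))]
    simp
  have h2 : ∀ l ∈ Finset.univ.filter (fun l : Lab D c (n !) => K ≤ nn l),
      ee (MM n) f l ≤ MM n * (n * (2 ^ n !) !) := by
    intro l hl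
    have h3 : K ≤ nn l := (Finset.mem_filter.1 hl).2
    have h4 := abs_Q_le (nn l) f n hf.bound (rep l)
    have h5 : (Finset.univ.filter fun N' : NS G => nn l ≤ N').card ≤ 2 ^ n ! := by
      refine (card_above (nn l)).trans (Nat.pow_le_pow_right (by norm_num) ?_)
      exact (Nat.le_of_dvd (Nat.pos_of_ne_zero Subgroup.index_ne_zero_of_finite)
          (Subgroup.index_dvd_of_le h3)).trans hK
    have h6 : ((Finset.univ.filter fun N' : NS G => nn l ≤ N').card ! : ℚ) ≤ ((2 ^ n !) ! : ℕ) := by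
      exact_mod_cast Nat.factorial_le h5
    have h7 : (MM n : ℚ) * Q (nn l) f (rep l) ≤ ((MM n * (n * (2 ^ n !) !) : ℕ) : ℤ) := by
      have h8 := (le_abs_self _).trans h4
      have h9 : (0 : ℚ) ≤ MM n := Nat.cast_nonneg _
      have h10 : (0 : ℚ) ≤ n := Nat.cast_nonneg _
      push_cast
      refine mul_le_mul_of_nonneg_left (h8.trans ?_) h9
      exact mul_le_mul_of_nonneg_left h6 h10
    unfold ee
    rw [Int.toNat_le]
    exact (Int.floor_le_floor h7).trans (le_of_eq (Int.floor_intCast _))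
  rw [h1]
  refine (Finset.sum_le_card_nsmul _ _ _ h2).trans ?_
  rw [smul_eq_mul]
  refine Nat.mul_le_mul_right _ ((card_lab K).trans ?_)
  exact Nat.mul_le_mul (Nat.pow_le_pow_right (by norm_num) hK) hK

end atom

section cancel

variable {n : ℕ}

theorem DD_sum {Λ : Type} [Fintype Λ] (T : Λ → G → ℤ) {ι : Type} (s : Finset ι) (e : ι → Λ → ℤ) :
    DD T (∑ i ∈ s, e i) = ∑ i ∈ s, DD T (e i) := by
  classical
  induction s using Finset.induction_on with
  | empty => rw [Finset.sum_empty, Finset.sum_empty, DD_zero]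
  | insert a s ha ih => rw [Finset.sum_insert ha, Finset.sum_insert ha, DD_add, ih]

/-- The counting functions of the conjugate labels. -/
theorem DD_conj {Λ : Type} [Fintype Λ] (T : Λ → G → ℤ) (σ : Λ → Λ) (hσ : Function.Involutive σ)
    (hT : ∀ l, T (σ l) = -T l) (e : Λ → ℤ) : DD T (fun l => e (σ l)) = -DD T e := by
  classical
  funext h
  unfold DD
  rw [Pi.neg_apply, ← Finset.sum_neg_distrib]
  refine Fintype.sum_equiv (Function.Involutive.toPerm σ hσ) _ _ fun l => ?_
  rw [Function.Involutive.coe_toPerm, hT]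
  have h1 : (-T l = h) = (T l = -h) := by rw [eq_iff_iff, neg_eq_iff_eq_neg]
  have h2 : (-T l = -h) = (T l = h) := by rw [neg_inj]
  simp only [h1, h2]
  ring

/-- The labels of a relation cancel. -/
theorem sum_DD (hcomm : ∀ g, c * g = g * c) (hc2 : c * c = 1) {ι : Type} [Fintype ι]
    (f : ι → G → ℚ) (hf : ∀ i, IsAtom D c n (f i)) (hsum : ∑ i, f i = 0)
    (T : Lab D c (n !) → G → ℤ) (hT : ∀ l, T (cl hcomm hc2 l) = -T l) :
    ∑ i, DD T (fun l => (ee (MM n) (f i) l : ℤ)) = 0 := by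
  rw [← DD_sum]
  set E : Lab D c (n !) → ℤ := ∑ i, fun l => (ee (MM n) (f i) l : ℤ) with hE
  have h1 : ∀ l, E (cl hcomm hc2 l) = E l := by
    intro l
    have h2 : (E l : ℚ) - E (cl hcomm hc2 l) = 0 := by
      rw [hE, Finset.sum_apply, Finset.sum_apply]
      push_cast
      rw [← Finset.sum_sub_distrib, Finset.sum_congr rfl fun i _ => ee_sub hcomm hc2 (hf i) l,
        ← Finset.mul_sum]
      have h3 := congrFun (Q_sum Finset.univ (nn l) f) (rep l)
      rw [Finset.sum_apply] at h3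
      rw [← h3, hsum, Q_zero]
      simp
    have h3 : (E l : ℚ) = E (cl hcomm hc2 l) := sub_eq_zero.1 h2
    exact_mod_cast h3.symm
  have h2 := DD_conj T _ (cl_cl hcomm hc2) hT E
  have h3 : (fun l => E (cl hcomm hc2 l)) = E := funext h1
  rw [h3] at h2
  funext h
  have h4 := congrFun h2 h
  rw [Pi.neg_apply] at h4
  rw [Pi.zero_apply]
  omega

end cancel

end

end Pool.Agent.R937.BR
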