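import Pool.Agent.R937.BR.Atom

/-!
# Mean values of sign functions, and sign functions belonging to labels
-/

set_option autoImplicit false
set_option linter.unusedSectionVars false
set_option linter.unusedVariables false

namespace Pool.Agent.R937.BR

open Pool.Agent.R937.CS Pool.Agent.W495.TA Pool.Agent.W495.TC Pool.Agent.TH117.BL
  Pool.Agent.Y137.SF
open scoped Nat

noncomputable section

variable {G : Type} [Group G] [Fintype G] {D : Subgroup G} {c : G} {X : ℕ}

theorem nD_card (D : Subgroup G) : nD D = (Nat.card D : ℤ) := by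
  classical
  unfold nD
  rw [Finset.sum_boole, Nat.card_eq_fintype_card, Fintype.card_subtype]

theorem av_eq_sum [Fintype D] (s : G → ℤ) (g : G) : av D s g = ∑ d : D, s (d * g) := by
  classical
  unfold av
  rw [← Finset.sum_filter, ← Finset.sum_coe_sort]
  refine Fintype.sum_equiv (Equiv.subtypeEquivRight fun x => ?_) _ _ fun d => rfl
  simp

/-- The mean values of sign functions. -/
theorem isAtom_av (hcomm : ∀ g, c * g = g * c) {n : ℕ} (hn : 0 < n) {s : G → ℤ}
    (hs : IsSign c s) (hidx : (rst s).index ≤ n) :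
    IsAtom D c n fun g => (av D s g : ℚ) / Nat.card D := by
  classical
  have hD : (0 : ℚ) < Nat.card D := card_pos D
  refine ⟨fun d hd g => ?_, fun g => ?_, ⟨rst s, hidx, fun g h hh => ?_⟩, fun g => ?_, fun g => ?_⟩
  · change (av D s (d * g) : ℚ) / Nat.card D = _
    rw [av_left D s hd]
  · change (av D s (c * g) : ℚ) / Nat.card D = _
    rw [av_c D c hcomm hs]
    push_cast
    ring
  · change (av D s (g * h) : ℚ) / Nat.card D = _
    rw [av_right D hh]
  · let K : Subgroup G := (rst s).map (MulAut.conj g).toMonoidHom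
    have hK : ∀ k, k ∈ K ↔ g⁻¹ * k * g ∈ rst s := by
      intro k
      constructor
      · rintro ⟨h, hh, rfl⟩
        have h1 : g⁻¹ * ((MulAut.conj g).toMonoidHom h) * g = h := by
          change g⁻¹ * (g * h * g⁻¹) * g = h
          group
        rw [h1]
        exact hh
      · intro h
        refine ⟨_, h, ?_⟩
        change g * (g⁻¹ * k * g) * g⁻¹ = k
        group
    have hKidx : K.index = (rst s).index := by
      exact Subgroup.index_map_equiv (rst s) (MulAut.conj g)
    have h1 : (Nat.card (K.subgroupOf D) : ℤ) ∣ ∑ d : D, s (d * g) := by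
      refine dvd_sum (K.subgroupOf D) (fun d : D => s (d * g)) fun d d' hd' => ?_
      have h2 := (hK _).1 (Subgroup.mem_subgroupOf.1 hd')
      have h3 : (((d * d' : D) : G)) * g = (d * g) * (g⁻¹ * d' * g) := by
        rw [Subgroup.coe_mul]
        group
      change s (((d * d' : D) : G) * g) = s (d * g)
      rw [h3]
      exact h2 _
    obtain ⟨y, hy⟩ := h1
    have h4 : K.relIndex D ≤ n := (Subgroup.relIndex_le_of_le_right (le_top : D ≤ ⊤)
      (by rw [Subgroup.relIndex_top_right]; exact Subgroup.index_ne_zero_of_finite)).trans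
        (by rw [Subgroup.relIndex_top_right, hKidx]; exact hidx)
    have h5 : 0 < K.relIndex D := Nat.pos_of_ne_zero (by
      rw [Subgroup.relIndex]
      exact Subgroup.index_ne_zero_of_finite)
    obtain ⟨x, hx⟩ := Nat.dvd_factorial h5 h4
    refine ⟨x * y, ?_⟩
    have h6 : Nat.card D = Nat.card (K.subgroupOf D) * K.relIndex D := by
      rw [Subgroup.relIndex, Subgroup.card_mul_index]
    have h7 : (0 : ℚ) < Nat.card (K.subgroupOf D) := by exact_mod_cast Nat.card_pos
    have h8 : (0 : ℚ) < K.relIndex D := by exact_mod_cast h5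
    rw [av_eq_sum, hy, hx, h6]
    push_cast
    field_simp
  · have h1 := abs_av_le D c hs g
    rw [nD_card] at h1
    have h2 : |(av D s g : ℚ)| ≤ Nat.card D := by exact_mod_cast h1
    rw [abs_div, abs_of_pos hD, div_le_iff₀ hD]
    have h3 : (1 : ℚ) ≤ n := by exact_mod_cast hn
    nlinarith

/-- Sign functions belonging to labels. -/
theorem exists_label_sign (hcomm : ∀ g, c * g = g * c) (hc2 : c * c = 1) {n : ℕ} (H : Subgroup G)
    (hH : H.index = 2 * MM n) (hDH : ∀ g : G, ∃ d ∈ D, d⁻¹ * g ∈ H) (l : Lab D c (n !)) :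
    ∃ s : G → ℤ, IsSign c s ∧ (rst s).index ≤ n ! * (2 * MM n) ∧
      ∀ g, (av D s g : ℚ) = Nat.card D * bet (MM n) l g := by
  classical
  have hM : (0 : ℚ) < MM n := by exact_mod_cast MM_pos n
  have hM1 : (1 : ℚ) ≤ MM n := by exact_mod_cast MM_pos n
  have hcl : ∀ g, c * (c * g) = g := fun g => by rw [← mul_assoc, hc2, one_mul]
  have hleft : ∀ d ∈ D, ∀ g, d * g ∈ l.1.2 ↔ g ∈ l.1.2 := by
    intro d hd g
    rw [lab_eq]
    constructor
    · rintro ⟨e, he, m, hm, h⟩
      exact ⟨d⁻¹ * e, D.mul_mem (D.inv_mem hd) he, m, hm, by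
        rw [← mul_right_inj d, h]
        group⟩
    · rintro ⟨e, he, m, hm, h⟩
      exact ⟨d * e, D.mul_mem hd he, m, hm, by
        rw [h]
        group⟩
  have hright : ∀ g, ∀ k ∈ (nn l).1, g * k ∈ l.1.2 ↔ g ∈ l.1.2 := by
    intro g k hk
    rw [lab_eq]
    constructor
    · rintro ⟨e, he, m, hm, h⟩
      exact ⟨e, he, m * k⁻¹, (nn l).1.mul_mem hm ((nn l).1.inv_mem hk), by
        rw [← mul_left_inj k, h]
        group⟩
    · rintro ⟨e, he, m, hm, h⟩
      exact ⟨e, he, m * k, (nn l).1.mul_mem hm hk, by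
        rw [h]
        group⟩
  have hval : ∀ g, ∃ z : ℤ, bet (MM n) l g = z / MM n ∧ |z| ≤ 1 := by
    intro g
    unfold bet
    by_cases h1 : g ∈ l.1.2 <;> by_cases h2 : c * g ∈ l.1.2
    · exact ⟨0, by rw [if_pos h1, if_pos h2]; simp, by norm_num⟩
    · exact ⟨1, by rw [if_pos h1, if_neg h2]; simp, by norm_num⟩
    · exact ⟨-1, by rw [if_neg h1, if_pos h2]; simp, by norm_num⟩
    · exact ⟨0, by rw [if_neg h1, if_neg h2]; simp, by norm_num⟩
  obtain ⟨s, hs1, hs2, hs3, hs4⟩ := realise D (nn l).1 H c hcomm hc2 l.2.2.1 hDH (bet (MM n) l)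
    (fun d hd g => by
      unfold bet
      have h1 : c * (d * g) = d * (c * g) := by rw [← mul_assoc, hcomm, mul_assoc]
      rw [h1]
      simp only [hleft d hd]) (fun g k hk => by
      unfold bet
      rw [← mul_assoc]
      simp only [hright _ k hk]) (fun g => by
      unfold bet
      rw [hcl]
      ring) (fun g => by
      obtain ⟨z, hz, hz1⟩ := hval g
      rw [hz, abs_div, abs_of_pos hM, div_le_one hM]
      have h2 : (|z| : ℚ) ≤ 1 := by exact_mod_cast hz1
      exact h2.trans hM1) (fun g => by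
      obtain ⟨z, hz, hz1⟩ := hval g
      refine ⟨MM n + z, ?_⟩
      rw [hH, hz]
      push_cast
      field_simp)
  refine ⟨s, ⟨hs1, hs2⟩, ?_, hs4⟩
  have h1 : (nn l).1 ⊓ H ≤ rst s := by
    intro k hk
    rw [mem_rst]
    exact fun g => hs3 g k hk
  have h2 := Nat.le_of_dvd (Nat.pos_of_ne_zero Subgroup.index_ne_zero_of_finite)
    (Subgroup.index_dvd_of_le h1)
  refine h2.trans (Subgroup.index_inf_le.trans ?_)
  rw [hH]
  exact Nat.mul_le_mul_right _ l.2.2.2.1

/-- The function of the conjugate label. -/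
theorem bet_cl (hcomm : ∀ g, c * g = g * c) (hc2 : c * c = 1) (M : ℕ) (l : Lab D c X) (g : G) :
    bet M (cl hcomm hc2 l) g = -bet M l g := by
  classical
  unfold bet
  have h1 : c * (c * g) = g := by rw [← mul_assoc, hc2, one_mul]
  have h2 : (g ∈ (cl hcomm hc2 l).1.2) = (c * g ∈ l.1.2) := rfl
  have h3 : (c * g ∈ (cl hcomm hc2 l).1.2) = (g ∈ l.1.2) := by
    change (c * (c * g) ∈ l.1.2) = _
    rw [h1]
  simp only [h2, h3]
  ring

section fam

variable {Λ : Type} [Fintype Λ]

/-- The family belonging to exponents, with `r` additional zero functions. -/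
abbrev Fam (e : Λ → ℕ) (r : ℕ) : Type := (Σ l, Fin (e l)) ⊕ Fin r

/-- Its labels. -/
def fw (e : Λ → ℕ) (r : ℕ) (σ : Λ → Λ) : Fam e r → Option Λ :=
  Sum.elim (fun k => some (σ k.1)) fun _ => none

theorem cnt_fw (e : Λ → ℕ) (r : ℕ) (σ : Λ → Λ) (hσ : Function.Involutive σ) :
    cnt (fw e r σ) = fun l => (e (σ l) : ℤ) := by
  classical
  funext l
  unfold cnt
  rw [card_eq_sum, Fintype.sum_sum_type, Fintype.sum_sigma]
  have h1 : ∀ l', ∑ i : Fin (e l'), (if fw e r σ (Sum.inl ⟨l', i⟩) = some l then (1 : ℤ) else 0) =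
      if l' = σ l then (e l' : ℤ) else 0 := by
    intro l'
    have h2 : (fun i : Fin (e l') => if fw e r σ (Sum.inl ⟨l', i⟩) = some l then (1 : ℤ) else 0) =
        fun _ => if l' = σ l then (1 : ℤ) else 0 := by
      funext i
      have h3 : (fw e r σ (Sum.inl ⟨l', i⟩) = some l) = (l' = σ l) := by
        change (some (σ l') = some l) = _
        rw [eq_iff_iff, Option.some_inj]
        constructor
        · rintro rfl
          rw [hσ]
        · rintro rfl
          rw [hσ]
      simp only [h3]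
    rw [h2, Finset.sum_const, Finset.card_univ, Fintype.card_fin, nsmul_eq_mul]
    by_cases h : l' = σ l
    · rw [if_pos h, if_pos h, mul_one]
    · rw [if_neg h, if_neg h, mul_zero]
  have h3 : ∀ i : Fin r, (if fw e r σ (Sum.inr i) = some l then (1 : ℤ) else 0) = 0 := fun i =>
    if_neg (fun h => by
      have h4 : (none : Option Λ) = some l := h
      exact absurd h4 (by simp))
  rw [Finset.sum_congr rfl fun l' _ => h1 l', Finset.sum_congr rfl fun i _ => h3 i,
    Finset.sum_const_zero, add_zero, Finset.sum_ite_eq' Finset.univ (σ l) fun l' => (e l' : ℤ),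
    if_pos (Finset.mem_univ _)]

theorem card_Fam (e : Λ → ℕ) (r : ℕ) : Fintype.card (Fam e r) = (∑ l, e l) + r := by
  rw [Fintype.card_sum, Fintype.card_sigma, Fintype.card_fin]
  congr 1
  exact Finset.sum_congr rfl fun l _ => Fintype.card_fin _

variable {G : Type}

/-- The counting function of the family. -/
theorem dcnt_fw (T : Λ → G → ℤ) (e : Λ → ℕ) (r : ℕ) (σ : Λ → Λ) (hσ : Function.Involutive σ)
    (hT : ∀ l, T (σ l) = -T l) :
    dcnt (fun k => ext0 T (fw e r σ k)) = -DD T (fun l => (e l : ℤ)) := by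
  classical
  rw [dcnt_eq_DD, cnt_fw e r σ hσ]
  funext h
  unfold DD
  rw [Pi.neg_apply, ← Finset.sum_neg_distrib]
  refine Fintype.sum_equiv (Function.Involutive.toPerm σ hσ) _ _ fun l => ?_
  rw [Function.Involutive.coe_toPerm, hT]
  have h1 : (-T l = h) = (T l = -h) := by rw [eq_iff_iff, neg_eq_iff_eq_neg]
  have h2 : (-T l = -h) = (T l = h) := by rw [neg_inj]
  simp only [h1, h2]
  ring

/-- The sum of the family. -/
theorem sum_fw (T : Λ → G → ℤ) (e : Λ → ℕ) (r : ℕ) (σ : Λ → Λ) (hT : ∀ l, T (σ l) = -T l) (g : G) :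
    ∑ k, ext0 T (fw e r σ k) g = -∑ l, (e l : ℤ) * T l g := by
  classical
  rw [Fintype.sum_sum_type, Fintype.sum_sigma]
  have h1 : ∀ l, ∑ i : Fin (e l), ext0 T (fw e r σ (Sum.inl ⟨l, i⟩)) g = -((e l : ℤ) * T l g) := by
    intro l
    have h2 : ∀ i : Fin (e l), ext0 T (fw e r σ (Sum.inl ⟨l, i⟩)) g = -T l g := by
      intro i
      change T (σ l) g = _
      rw [hT]
      rfl
    rw [Finset.sum_congr rfl fun i _ => h2 i, Finset.sum_const, Finset.card_univ, Fintype.card_fin,
      nsmul_eq_mul]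
    ring
  have h3 : ∀ i : Fin r, ext0 T (fw e r σ (Sum.inr i)) g = 0 := fun i => rfl
  rw [Finset.sum_congr rfl fun l _ => h1 l, Finset.sum_congr rfl fun i _ => h3 i,
    Finset.sum_const_zero, add_zero, Finset.sum_neg_distrib]

end fam

end

end Pool.Agent.R937.BR
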