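import Pool.Agent.R937.BR.Defs
import Pool.Agent.R937.VS.Arith

/-!
# The decomposition of multilinear forms according to the generalised eigenspaces
-/

set_option autoImplicit false
set_option linter.unusedSectionVars false
set_option linter.unusedVariables false

namespace Pool.Agent.R937.BR

open Pool.Agent.R937.VS (gen_pow gen_smul smul_pow_comm)
open Module

noncomputable section

section lin

variable {Ω : Type} [Field Ω] {V : Type} [AddCommGroup V] [Module Ω V]

/-- A basis of generalised eigenvectors whose coordinate forms are generalised eigenvectors of the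
transposed endomorphism. -/
theorem exists_basis [IsAlgClosed Ω] [FiniteDimensional Ω V] (φ : V →ₗ[Ω] V) :
    ∃ (ι : Type) (_ : Fintype ι) (u : Basis ι Ω V) (α : ι → Ω) (N : ℕ),
      (∀ c, End.HasEigenvalue φ (α c)) ∧
      (∀ c, ((φ - α c • (1 : V →ₗ[Ω] V)) ^ N) (u c) = 0) ∧
      ∀ c x, (u.coord c) (((φ - α c • (1 : V →ₗ[Ω] V)) ^ N) x) = 0 := by
  classical
  have hint : DirectSum.IsInternal fun μ : Ω => End.maxGenEigenspace φ μ :=
    DirectSum.isInternal_submodule_of_iSupIndep_of_iSup_eq_top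
      (End.independent_maxGenEigenspace φ) (End.iSup_maxGenEigenspace_eq_top φ)
  let v : ∀ μ : Ω, Basis (Fin (finrank Ω (End.maxGenEigenspace φ μ))) Ω (End.maxGenEigenspace φ μ) :=
    fun μ => finBasis Ω _
  let u := hint.collectedBasis v
  haveI : Fintype (Σ μ : Ω, Fin (finrank Ω (End.maxGenEigenspace φ μ))) :=
    FiniteDimensional.fintypeBasisIndex u
  have hmem : ∀ (μ : Ω) (x : V), x ∈ End.maxGenEigenspace φ μ ↔
      ((φ - μ • (1 : V →ₗ[Ω] V)) ^ finrank Ω V) x = 0 := by
    intro μ x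
    rw [End.maxGenEigenspace_eq_genEigenspace_finrank, End.mem_genEigenspace_nat]
    rfl
  have hu : ∀ c, u c ∈ End.maxGenEigenspace φ c.1 := fun c => hint.collectedBasis_mem v c
  refine ⟨_, inferInstance, u, fun c => c.1, finrank Ω V, ?_, ?_, ?_⟩
  · intro c
    by_contra h
    have h1 : Function.Injective (φ - c.1 • (1 : V →ₗ[Ω] V)) := by
      rw [← LinearMap.ker_eq_bot]
      by_contra h2
      apply h
      rw [End.hasEigenvalue_iff, End.eigenspace_def]
      exact h2
    have h2 : Function.Injective ((φ - c.1 • (1 : V →ₗ[Ω] V)) ^ finrank Ω V) := by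
      rw [Module.End.coe_pow]
      exact h1.iterate _
    have h3 := (hmem _ _).1 (hu c)
    have h4 : u c = 0 := h2 (by rw [h3, map_zero])
    exact u.ne_zero c h4
  · intro c
    exact (hmem _ _).1 (hu c)
  · intro c x
    have h1 : (u.coord c) ∘ₗ ((φ - c.1 • (1 : V →ₗ[Ω] V)) ^ finrank Ω V) = 0 := by
      refine u.ext fun c' => ?_
      rw [LinearMap.comp_apply, LinearMap.zero_apply]
      by_cases h : c'.1 = c.1
      · have h2 := (hmem _ _).1 (hu c')
        rw [h] at h2
        rw [h2, map_zero]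
      · have h2 : ((φ - c.1 • (1 : V →ₗ[Ω] V)) ^ finrank Ω V) (u c') ∈
            End.maxGenEigenspace φ c'.1 := by
          refine End.mapsTo_maxGenEigenspace_of_comm ?_ c'.1 (hu c')
          refine Commute.pow_right ?_ _
          exact (Commute.refl φ).sub_right ((Commute.one_right φ).smul_right _)
        rw [Basis.coord_apply]
        exact hint.collectedBasis_repr_of_mem_ne v h h2
    exact LinearMap.congr_fun h1 x

end lin

section multi

variable {Ω : Type} [Field Ω] {K : Type} {H : K → Type} [∀ i, AddCommGroup (H i)]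
  [∀ i, Module Ω (H i)]

theorem frobW_apply (φ : ∀ i, H i →ₗ[Ω] H i) (T : Finset K) (w : ML Ω H T) (x : ∀ i : T, H i) :
    frobW φ T w x = w fun i => φ i (x i) := rfl

theorem frobW_pow (φ : ∀ i, H i →ₗ[Ω] H i) (T : Finset K) (t : ℕ) :
    frobW φ T ^ t = frobW (fun i => φ i ^ t) T := by
  induction t with
  | zero => rfl
  | succ t ih =>
    rw [pow_succ, ih]
    ext w x
    change w (fun i => φ i ((φ i ^ t) (x i))) = w fun i => (φ i ^ (t + 1)) (x i)
    congr 1
    funext i
    rw [pow_succ']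
    rfl

/-- The values of a generalised eigenform. -/
theorem vanish [DecidableEq K] {T : Finset K} {ψ : ∀ i, H i →ₗ[Ω] H i} {β q : Ω} {a : T → Ω}
    (hne : β * ∏ i, a i ≠ q) : ∀ (N r : ℕ) (n : T → ℕ), r + ∑ i, n i ≤ N →
    ∀ w : ML Ω H T, ((β • frobW ψ T - q • 1) ^ r) w = 0 → ∀ x : ∀ i : T, H i,
      (∀ i : T, ((ψ i - a i • 1) ^ n i) (x i) = 0) → w x = 0 := by
  intro N
  induction N with
  | zero =>
    intro r n hn w hw x hx
    have h1 : r = 0 := by omega
    subst h1
    rw [pow_zero] at hw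
    have h2 : w = 0 := hw
    rw [h2]
    rfl
  | succ N ih =>
    intro r n hn w hw x hx
    rcases Nat.eq_zero_or_pos r with h1 | h1
    · subst h1
      rw [pow_zero] at hw
      have h2 : w = 0 := hw
      rw [h2]
      rfl
    by_cases h0 : ∃ i, n i = 0
    · obtain ⟨i, hi⟩ := h0
      have h2 := hx i
      rw [hi, pow_zero] at h2
      exact w.map_coord_zero i h2
    push Not at h0
    obtain ⟨r', rfl⟩ : ∃ r', r = r' + 1 := ⟨r - 1, by omega⟩
    set w' : ML Ω H T := (β • frobW ψ T - q • 1) w with hw'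
    have h2 : ((β • frobW ψ T - q • 1) ^ r') w' = 0 := by
      rw [pow_succ] at hw
      exact hw
    have h3 : w' x = 0 := ih r' n (by omega) w' h2 x hx
    have h4 : w' x = β * w (fun i => ψ i (x i)) - q * w x := rfl
    let y : ∀ i : T, H i := fun i => (ψ i - a i • 1) (x i)
    have h5 : (fun i : T => ψ i (x i)) = (fun i : T => a i • x i) + y := by
      funext i
      change ψ i (x i) = a i • x i + (ψ i (x i) - a i • x i)
      rw [add_sub_cancel]
    have h6 : w (fun i => ψ i (x i)) = (∏ i, a i) * w x := by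
      rw [h5, MultilinearMap.map_add_univ, Finset.sum_eq_single Finset.univ]
      · rw [Finset.piecewise_univ, MultilinearMap.map_smul_univ, smul_eq_mul]
      · intro s _ hs
        obtain ⟨i0, hi0⟩ : ∃ i0, i0 ∉ s := by
          by_contra h
          push Not at h
          exact hs (Finset.eq_univ_iff_forall.2 h)
        refine ih (r' + 1) (fun i => if i ∈ s then n i else n i - 1) ?_ w hw _ ?_
        · have h7 : ∑ i, (if i ∈ s then n i else n i - 1) < ∑ i, n i := by
            refine Finset.sum_lt_sum (fun i _ => ?_) ⟨i0, Finset.mem_univ _, ?_⟩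
            · split_ifs
              · exact le_rfl
              · exact Nat.sub_le _ _
            · rw [if_neg hi0]
              have := h0 i0
              omega
          omega
        · intro i
          by_cases hi : i ∈ s
          · rw [if_pos hi, Finset.piecewise_eq_of_mem _ _ _ hi, map_smul, hx i, smul_zero]
          · rw [if_neg hi, Finset.piecewise_eq_of_notMem _ _ _ hi]
            have h8 : ((ψ i - a i • 1) ^ (n i - 1)) (y i) = ((ψ i - a i • 1) ^ n i) (x i) := by
              have h9 : n i = (n i - 1) + 1 := by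
                have := h0 i
                omega
              conv_rhs => rw [h9, pow_succ]
              rfl
            rw [h8, hx i]
      · intro h
        exact absurd (Finset.mem_univ _) h
    rw [h4, h6, ← mul_assoc, ← sub_mul] at h3
    rcases mul_eq_zero.1 h3 with h7 | h7
    · exact absurd (sub_eq_zero.1 h7) hne
    · exact h7

/-- The product of linear forms. -/
def lprod (T : Finset K) (ℓ : ∀ i, H i →ₗ[Ω] Ω) : ML Ω H T :=
  (MultilinearMap.mkPiAlgebra Ω T Ω).compLinearMap fun i : T => ℓ i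

theorem lprod_apply (T : Finset K) (ℓ : ∀ i, H i →ₗ[Ω] Ω) (x : ∀ i : T, H i) :
    lprod T ℓ x = ∏ i : T, ℓ i (x i) := rfl

theorem lprod_union [DecidableEq K] {T T' : Finset K} (hT : Disjoint T T')
    (ℓ : ∀ i, H i →ₗ[Ω] Ω) (x : ∀ i : (T ∪ T' : Finset K), H i) :
    lprod (T ∪ T') ℓ x = lprod T ℓ (fun i => x ⟨i.1, Finset.mem_union_left T' i.2⟩) *
      lprod T' ℓ (fun i => x ⟨i.1, Finset.mem_union_right T i.2⟩) := by
  rw [lprod_apply, lprod_apply, lprod_apply]
  let F : K → Ω := fun i => if h : i ∈ T ∪ T' then ℓ i (x ⟨i, h⟩) else 1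
  have hF : ∀ i (h : i ∈ T ∪ T'), F i = ℓ i (x ⟨i, h⟩) := fun i h => dif_pos h
  have h1 : ∏ i : (T ∪ T' : Finset K), ℓ i (x i) = ∏ i ∈ T ∪ T', F i := by
    rw [← Finset.prod_coe_sort (T ∪ T') F]
    refine Finset.prod_congr rfl fun i _ => ?_
    exact (hF i.1 i.2).symm
  have h2 : ∏ i : T, ℓ i (x ⟨i.1, Finset.mem_union_left T' i.2⟩) = ∏ i ∈ T, F i := by
    rw [← Finset.prod_coe_sort T F]
    refine Finset.prod_congr rfl fun i _ => ?_
    exact (hF i.1 (Finset.mem_union_left T' i.2)).symm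
  have h3 : ∏ i : T', ℓ i (x ⟨i.1, Finset.mem_union_right T i.2⟩) = ∏ i ∈ T', F i := by
    rw [← Finset.prod_coe_sort T' F]
    refine Finset.prod_congr rfl fun i _ => ?_
    exact (hF i.1 (Finset.mem_union_right T i.2)).symm
  rw [h1, h2, h3, Finset.prod_union hT]

/-- The expansion of a multilinear form. -/
theorem expand [DecidableEq K] (T : Finset K) {ι : K → Type} [∀ i, Fintype (ι i)]
    (u : ∀ i, Basis (ι i) Ω (H i)) (w : ML Ω H T) :
    w = ∑ c : (∀ i : T, ι i), (w fun i => u i (c i)) •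
      lprod T (fun i => if h : i ∈ T then (u i).coord (c ⟨i, h⟩) else 0) := by
  classical
  ext x
  have h1 : w x = w fun i : T => ∑ c, (u i).coord c (x i) • u i c := by
    congr 1
    funext i
    exact ((u i).sum_repr (x i)).symm
  rw [h1, MultilinearMap.map_sum, sum_apply]
  refine Finset.sum_congr rfl fun c _ => ?_
  rw [MultilinearMap.map_smul_univ, smul_apply, smul_eq_mul, smul_eq_mul, mul_comm,
    lprod_apply]
  congr 1
  refine Finset.prod_congr rfl fun i _ => ?_
  rw [dif_pos i.2]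

/-- One factor. -/
theorem frobW_single [DecidableEq K] (φ : ∀ i, H i →ₗ[Ω] H i) (i : K) (ℓ : ∀ i, H i →ₗ[Ω] Ω)
    (α : Ω) (N : ℕ) (h : ∀ x, ℓ i (((φ i - α • (1 : H i →ₗ[Ω] H i)) ^ N) x) = 0) :
    ((frobW φ {i} - α • (1 : ML Ω H {i} →ₗ[Ω] ML Ω H {i})) ^ N) (lprod {i} ℓ) = 0 := by
  let i0 : ({i} : Finset K) := ⟨i, Finset.mem_singleton_self i⟩
  have hi0 : ∀ k : ({i} : Finset K), k = i0 := fun k =>
    Subtype.ext (Finset.mem_singleton.1 k.2)
  have key : ∀ n, ∀ x : (∀ k : ({i} : Finset K), H k),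
      ((frobW φ {i} - α • (1 : ML Ω H {i} →ₗ[Ω] ML Ω H {i})) ^ n) (lprod {i} ℓ) x =
        ℓ i (((φ i - α • (1 : H i →ₗ[Ω] H i)) ^ n) (x i0)) := by
    intro n
    induction n with
    | zero =>
      intro x
      rw [pow_zero, pow_zero]
      change ∏ k : ({i} : Finset K), ℓ k (x k) = ℓ i (x i0)
      rw [Finset.prod_eq_single i0]
      · intro k _ hk
        exact absurd (hi0 k) hk
      · intro hk
        exact absurd (Finset.mem_univ _) hk
    | succ n ih =>
      intro x
      rw [pow_succ', pow_succ]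
      change ((frobW φ {i} - α • (1 : ML Ω H {i} →ₗ[Ω] ML Ω H {i})) ^ n) (lprod {i} ℓ)
          (fun k => φ k (x k)) -
        α * ((frobW φ {i} - α • (1 : ML Ω H {i} →ₗ[Ω] ML Ω H {i})) ^ n) (lprod {i} ℓ) x =
          ℓ i (((φ i - α • (1 : H i →ₗ[Ω] H i)) ^ n) (φ i (x i0) - α • x i0))
      rw [ih, ih, map_sub, map_smul, map_sub, map_smul, smul_eq_mul]
  ext x
  rw [key, h]
  rfl

theorem frobW_empty (φ : ∀ i, H i →ₗ[Ω] H i) (ℓ : ∀ i, H i →ₗ[Ω] Ω) :
    ((frobW φ ∅ - (1 : Ω) • (1 : ML Ω H ∅ →ₗ[Ω] ML Ω H ∅)) ^ 1) (lprod ∅ ℓ) = 0 := by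
  rw [pow_one, one_smul]
  ext x
  change lprod ∅ ℓ (fun k : (∅ : Finset K) => φ k (x k)) - lprod ∅ ℓ x = 0
  rw [sub_eq_zero]
  congr 1
  funext k
  exact absurd k.2 (Finset.notMem_empty _)

end multi

end

end Pool.Agent.R937.BR
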