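import Pool.Agent.R937.VS.Defs

/-!
# Tate classes on products of arbitrary varieties and abelian varieties: definitions
-/

set_option autoImplicit false

namespace Pool.Agent.R937.BR

open Pool.Agent.W495.TA Pool.Agent.R937.VS Module


noncomputable section

variable {p : ℕ} [Fact p.Prime] {ν : PadicAlgCl p ≃+* ℂ}

/-- Let `(W_i)`, for `i` in `K`, be a family of varieties, and let `H i` be the **dual space** of the
cohomology `H^{b_i}(W_i)`. For a finite set `T` of indices the tensor product of the spaces
`H^{b_i}(W_i)`, for `i` in `T`, is the space of the multilinear forms in variables `x_i` in `H i`,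
for `i` in `T`. It is a direct summand (Künneth component) of the cohomology of the product of the
varieties `W_i`, for `i` in `T`. -/
abbrev ML (Ω : Type) [Field Ω] {K : Type} (H : K → Type) [∀ i, AddCommGroup (H i)]
    [∀ i, Module Ω (H i)] (T : Finset K) : Type := MultilinearMap Ω (fun i : T => H i) Ω

/-- The classes in `H^κ(Y) ⊗ H^{b_i}(W_i) ⊗ ...`, for an abelian variety `Y`: alternating maps, in the
variables `κ`, from the Tate module of `Y` to the space `ML Ω H T`. -/
abbrev Cls (Ω : Type) [Field Ω] [CharZero Ω] {K : Type} (H : K → Type) [∀ i, AddCommGroup (H i)]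
    [∀ i, Module Ω (H i)] (T : Finset K) (Y : RedAV p ν) (κ : Type) : Type :=
  (TM Ω Y) [⋀^κ]→ₗ[Ω] ML Ω H T

section

variable {Ω : Type} [Field Ω] [CharZero Ω] {K : Type} {H : K → Type}
  [∀ i, AddCommGroup (H i)] [∀ i, Module Ω (H i)]

/-- The Frobenius endomorphism of the space `ML Ω H T`, where `φ i` is the transpose of the Frobenius
endomorphism of `H^{b_i}(W_i)`. -/
def frobW (φ : ∀ i, H i →ₗ[Ω] H i) (T : Finset K) : ML Ω H T →ₗ[Ω] ML Ω H T :=
  MultilinearMap.compLinearMapₗ fun i : T => φ i

/-- The class `g` on the product of `Y` with the varieties `W_i`, for `i` in `T`, is a Tate class (for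
`r = 1`), or it belongs to the corresponding generalised eigenspace (for arbitrary `r`): for some common
extension, with `q = p ^ (a t)` elements, of the ground fields (the field with `p ^ a` elements is the
one of the varieties `W_i`) the Frobenius endomorphism acts on `g` as the multiplication by `q ^ c`. -/
def IsTate (a : ℕ) (φ : ∀ i, H i →ₗ[Ω] H i) (r : ℕ) {T : Finset K} {Y : RedAV p ν} {κ : Type}
    (g : Cls Ω H T Y κ) : Prop :=
  Pool.Agent.R937.VS.IsTate a (frobW φ T) r Y g

/-- The element `α` is (the image of) a Weil number `x` of weight `b` over the field with `p ^ a`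
elements, of degree at most `n`, whose slopes are rational numbers with denominators dividing `n!`.
This is true of all eigenvalues of the Frobenius endomorphism on `H^b(W)` if the dimension of this space
is at most `n`, by the theorems of Deligne (weights), and of Manin and Katz-Messing (the slopes are those
of an isocrystal of dimension at most `n`). -/
def IsWeil (p : ℕ) [Fact p.Prime] (ν : PadicAlgCl p ≃+* ℂ) (a b n : ℕ) (α : Ω) : Prop :=
  ∃ (F : Type) (_ : Field F) (_ : NumberField F) (ι : F →+* Ω) (x : F), ι x = α ∧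
    IntermediateField.adjoin ℚ {x} = ⊤ ∧ finrank ℚ F ≤ n ∧ IsIntegral ℤ x ∧
    (∀ ψ : F →+* ℂ, ‖ψ x‖ ^ 2 = (p : ℝ) ^ (a * b)) ∧
    ∀ ψ : F →+* ℂ, ∃ z : ℤ, (Nat.factorial n : ℝ) * slope p ν a (ψ x) = z

variable [DecidableEq K]

/-- The smallest system of classes on the products of an abelian variety `Y` and of some of the varieties
`W_i`, which contains

* the Tate classes of degree at most two on abelian varieties (generated by divisors, by the theorem of
  Tate);
* the (generalised) Tate classes on `A` and on the products `A × W_i` (in `H^κ(A) ⊗ H^{b_i}(W_i)`), for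
  each **single** index `i`, where `A` is an abelian variety **of dimension at most `B`**;

and which is stable under linear combinations, cup products, pull-backs along homomorphisms of abelian
varieties, and push-forwards along projections of abelian varieties. -/
inductive AlgW (a : ℕ) (φ : ∀ i, H i →ₗ[Ω] H i) (B : ℕ) :
    (T : Finset K) → (Y : RedAV p ν) → (κ : Type) → Cls Ω H T Y κ → Prop
  /-- divisor classes on abelian varieties -/
  | divisor {Y : RedAV p ν} {κ : Type} (hκ : Finite κ) (h2 : Nat.card κ ≤ 2)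
      (g : Cls Ω H ∅ Y κ) (hg : IsTate a φ 1 g) : AlgW a φ B ∅ Y κ g
  /-- Tate classes on abelian varieties of dimension at most `B`, and on their products with one of the
  varieties `W_i` -/
  | few {T : Finset K} {Y : RedAV p ν} {κ : Type} (hT : T.card ≤ 1)
      (hdim : finrank ℚ Y.X.H1 ≤ 2 * B) (r : ℕ) (g : Cls Ω H T Y κ) (hg : IsTate a φ r g) :
      AlgW a φ B T Y κ g
  | zero (T : Finset K) (Y : RedAV p ν) (κ : Type) : AlgW a φ B T Y κ 0
  | add {T : Finset K} {Y : RedAV p ν} {κ : Type} (f g : Cls Ω H T Y κ) (hf : AlgW a φ B T Y κ f)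
      (hg : AlgW a φ B T Y κ g) : AlgW a φ B T Y κ (f + g)
  | smul {T : Finset K} {Y : RedAV p ν} {κ : Type} (c : Ω) (f : Cls Ω H T Y κ)
      (hf : AlgW a φ B T Y κ f) : AlgW a φ B T Y κ (c • f)
  /-- renaming of the variables -/
  | reindex {T : Finset K} {Y : RedAV p ν} {κ κ' : Type} (e : κ ≃ κ') (f : Cls Ω H T Y κ)
      (hf : AlgW a φ B T Y κ f) : AlgW a φ B T Y κ' (f.domDomCongr e)
  /-- cup products (up to a factor), for disjoint sets of varieties `W_i` -/
  | cup {T T' : Finset K} {Y : RedAV p ν} {κ κ' : Type} [Fintype κ] [DecidableEq κ] [Fintype κ']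
      [DecidableEq κ'] (hT : Disjoint T T') (f : Cls Ω H T Y κ) (g : Cls Ω H T' Y κ')
      (hf : AlgW a φ B T Y κ f) (hg : AlgW a φ B T' Y κ' g) (h : Cls Ω H (T ∪ T') Y (κ ⊕ κ'))
      (hh : ∀ (v : κ ⊕ κ' → TM Ω Y) (x : ∀ i : (T ∪ T' : Finset K), H i),
        h v x = ∑ σ : Equiv.Perm (κ ⊕ κ'), ((Equiv.Perm.sign σ : ℤ) : Ω) *
          (f (fun k => v (σ (Sum.inl k))) (fun i => x ⟨i.1, Finset.mem_union_left T' i.2⟩) *
            g (fun k => v (σ (Sum.inr k))) fun i => x ⟨i.1, Finset.mem_union_right T i.2⟩)) :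
      AlgW a φ B (T ∪ T') Y (κ ⊕ κ') h
  /-- pull-back along a homomorphism of abelian varieties -/
  | pull {T : Finset K} {Y Z : RedAV p ν} {κ : Type} (h : TM Ω Y →ₗ[Ω] TM Ω Z)
      (hh : IsFrobHom Ω Y Z h) (f : Cls Ω H T Z κ) (hf : AlgW a φ B T Z κ f) :
      AlgW a φ B T Y κ (f.compLinearMap h)
  /-- push-forward (integration over the fibres) along a projection `Z → Y`, where `Z` is isogenous
  to `Y × Y'` by the inclusions `h` and `h'`: insert a basis of the Tate module of `Y'` -/
  | push {T : Finset K} {Y Y' Z : RedAV p ν} {κ κ' : Type} (h : TM Ω Y →ₗ[Ω] TM Ω Z)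
      (h' : TM Ω Y' →ₗ[Ω] TM Ω Z) (hh : IsFrobHom Ω Y Z h) (hh' : IsFrobHom Ω Y' Z h')
      (hb : Function.Bijective (fun v : TM Ω Y × TM Ω Y' => h v.1 + h' v.2))
      (b : Module.Basis κ' Ω (TM Ω Y')) (f : Cls Ω H T Z (κ ⊕ κ'))
      (hf : AlgW a φ B T Z (κ ⊕ κ') f) (g : Cls Ω H T Y κ)
      (hg : ∀ v : κ → TM Ω Y, g v = f (Sum.elim (fun k => h (v k)) (fun k => h' (b k)))) :
      AlgW a φ B T Y κ g

end

end

end Pool.Agent.R937.BR
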