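import Pool.Agent.R937.BR.Tab

/-!
# The classes belonging to relations
-/

set_option autoImplicit false
set_option linter.unusedSectionVars false
set_option linter.unusedVariables false

namespace Pool.Agent.R937.BR

open NumberField Pool.Agent.H204R3.CM Pool.Agent.W547.KB Pool.Agent.W547.LD Pool.Agent.W495.TA Module
  Pool.Agent.W495.TB Pool.Agent.W495.TC Pool.Agent.TH117.F5 Pool.Agent.TH117.BL Pool.Agent.Y137.SF
  Pool.Agent.R937.CS Pool.Agent.W976.TA
open Pool.Agent.Y137.TV (tens tens_apply lam lam_ne_zero mono_F expandM)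

noncomputable section

variable {p : ℕ} [Fact p.Prime] {ν : PadicAlgCl p ≃+* ℂ} {Ω : Type} [Field Ω] [CharZero Ω]
  {L : Type} [Field L] [NumberField L] [IsCMField L] [IsGalois ℚ L] (j : L →+* ℂ) (jO : L →+* Ω)
  {K : Type} [DecidableEq K] {H : K → Type} [∀ i, AddCommGroup (H i)] [∀ i, Module Ω (H i)]
  {a : ℕ} {φ : ∀ i, H i →ₗ[Ω] H i} {n : ℕ}

theorem isNum_one (a : ℕ) : IsNum p ν j a 0 0 (1 : L) := by
  refine ⟨isIntegral_one, fun ψ => ?_, fun σ => ?_⟩
  · rw [map_one, norm_one, one_pow, mul_zero, pow_zero]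
  · unfold Pool.Agent.R937.VS.slope
    rw [map_one, map_one, map_one, norm_one, Real.log_one, zero_div]
    simp

theorem gen_empty (ℓ : ∀ i, H i →ₗ[Ω] Ω) :
    ((frobW φ ∅ - jO (1 : L) • (1 : ML Ω H ∅ →ₗ[Ω] ML Ω H ∅)) ^ 1) (lprod ∅ ℓ) = 0 := by
  rw [map_one]
  exact frobW_empty φ ℓ

variable {j jO}

theorem AlgMW.cast {B : ℕ} {T T' : Finset K} (h : T = T') {ℓ : ∀ i, H i →ₗ[Ω] Ω} {κ : Type}
    {t : κ → (L ≃ₐ[ℚ] L) → ℤ} (hA : AlgMW a φ B T p ν j jO κ t (lprod T ℓ)) :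
    AlgMW a φ B T' p ν j jO κ t (lprod T' ℓ) := by
  subst h
  exact @hA

variable (j jO)

/-- The monomials of abelian varieties. -/
abbrev QQ (a : ℕ) (φ : ∀ i, H i →ₗ[Ω] H i) (B : ℕ) (p : ℕ) [Fact p.Prime]
    (ν : PadicAlgCl p ≃+* ℂ) (j : L →+* ℂ) (jO : L →+* Ω) (ℓ : ∀ i, H i →ₗ[Ω] Ω) (κ : Type)
    (t : κ → (L ≃ₐ[ℚ] L) → ℤ) : Prop := AlgMW a φ B ∅ p ν j jO κ t (lprod ∅ ℓ)

/-- The first closure properties. -/
theorem closedW (ha : 0 < a) (B : ℕ) (ℓ : ∀ i, H i →ₗ[Ω] Ω) :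
    Closed (L ≃ₐ[ℚ] L) (QQ a φ B p ν j jO ℓ) := by
  classical
  refine ⟨?_, ?_, ?_, ?_⟩
  · intro κ _ t iF iD Y hY I hI
    refine AlgW.divisor inferInstance (by rw [Nat.card_of_isEmpty]; norm_num) _ ?_
    refine isTate_of_rel j jO hY I ha (isNum_one j a) (gen_empty jO ℓ) (fun σ => ?_) ?_
    · rw [Finset.univ_eq_empty, Finset.sum_empty]
      simp
    · rw [Fintype.card_eq_zero]
      exact ⟨0, rfl⟩
  · intro κ κ' _ e t t' ht h
    exact reindexW j jO e ht @h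
  · intro κ κ' _ _ t t' h h'
    have h3 : AlgMW a φ B (∅ ∪ ∅) p ν j jO (κ ⊕ κ') (Sum.elim t t') (lprod (∅ ∪ ∅) ℓ) :=
      @cupW p _ ν Ω _ _ L _ _ _ _ K _ H _ _ a φ B j jO κ κ' _ _ t t' ∅ ∅
      (Finset.disjoint_empty_left ∅) ℓ @h @h'
    have h4 := @AlgMW.cast p _ ν Ω _ _ L _ _ _ _ j jO K _ H _ _ a φ B _ _
      (Finset.empty_union (∅ : Finset K)) ℓ _ _ @h3
    exact @h4
  · intro f iF iD Y hY I hI
    obtain rfl : iF = Fin.fintype 2 := Subsingleton.elim _ _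
    obtain rfl : iD = instDecidableEqFin 2 := Subsingleton.elim _ _
    refine AlgW.divisor inferInstance (by simp) _ ?_
    refine isTate_of_rel j jO hY I ha (isNum_one j a) (gen_empty jO ℓ) (fun σ => ?_) ?_
    · rw [Fin.sum_univ_two, hI 0, hI 1]
      simp
    · exact ⟨1, by simp⟩

/-- Functions of half systems may be removed in pairs. -/
theorem cancelW (ha : 0 < a) (B : ℕ) (ℓ : ∀ i, H i →ₗ[Ω] Ω) (S : Set (L ≃ₐ[ℚ] L))
    (hS : IsHalf S) : PairCancel (L ≃ₐ[ℚ] L) (QQ a φ B p ν j jO ℓ) (tf p ν j S) := by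
  intro κ _ t hQ
  obtain ⟨a', π, ha', hπ⟩ := Pool.Agent.W902.TB.honda Pool.Agent.W366.TA.val p ν L j S hS
  let x : Fin 1 → Set (L ≃ₐ[ℚ] L) := fun _ => S
  have hx : ∀ q, IsHalf (x q) := fun _ => hS
  let E : RedAV p ν :=
    { X := prodOf j x hx
      a := a'
      pos := ha'
      π := fun _ => π
      frob := fun _ => hπ }
  have hE : Big E.X j := by
    intro q ψ
    obtain ⟨τ, hτ⟩ := exists_embC j (x q) ψ
    exact ⟨emb (x q) τ, hτ.symm⟩
  have hfin : Finite (Wt E.X L) := finite_wt j hE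
  let w0 : Wt E.X L := wt j x hx 0 1
  have hw0 : St j w0 = S := by
    have h1 : St j w0 = tr 1 (x 0) := St_wt j x hx 0 1
    rw [h1, tr_one]
  have key := Pool.Agent.W99.TC.comb (closedW (p := p) (ν := ν) (φ := φ) j jO ha B ℓ)
    (fun w : Wt E.X L => cc L • w) (fun w => by
      change cc L • cc L • w = w
      rw [← mul_smul, cc_cc, one_smul]) (fun w => cc_ne_wt j E.X w)
    (fun w => tf p ν j (St j w)) (fun w => by
      funext h
      exact tf_cc_wt j E.X w h) w0 κ t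
  have h2 := @key (by rw [hw0]; exact @hQ)
  exact @pushW p _ ν Ω _ _ L _ _ _ _ K _ H _ _ a φ B ∅ j jO E hE κ _ t (lprod ∅ ℓ) @h2

theorem index_compl (U : Set (L ≃ₐ[ℚ] L)) : stab Uᶜ = stab U := by
  ext τ
  rw [mem_stab, mem_stab]
  have h : tr τ Uᶜ = (tr τ U)ᶜ := by
    ext σ
    rw [mem_tr, Set.mem_compl_iff, Set.mem_compl_iff, mem_tr]
  rw [h, compl_inj_iff]

variable {j} {S : Option (Lb p ν j n) → Set (L ≃ₐ[ℚ] L)}

/-- The function of a half system. -/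
abbrev ff (p : ℕ) [Fact p.Prime] (ν : PadicAlgCl p ≃+* ℂ) (j : L →+* ℂ) (U : Set (L ≃ₐ[ℚ] L)) :
    (L ≃ₐ[ℚ] L) → ℚ :=
  fun g => (av (Dec p ν j) (sg U) g : ℚ) / Nat.card (Dec p ν j)

theorem ff_eq (U : Set (L ≃ₐ[ℚ] L)) (g : L ≃ₐ[ℚ] L) :
    (nD (Dec p ν j) : ℚ) * ff p ν j U g = tf p ν j U g := by
  have h1 : ((nD (Dec p ν j) : ℤ) : ℚ) = Nat.card (Dec p ν j) := by
    rw [nD_eq]
    push_cast
    rfl
  have h2 : (Nat.card (Dec p ν j) : ℚ) ≠ 0 := by
    exact_mod_cast (Nat.card_pos (α := Dec p ν j)).ne'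
  change ((nD (Dec p ν j) : ℤ) : ℚ) * ((av (Dec p ν j) (sg U) g : ℚ) / Nat.card (Dec p ν j)) = _
  rw [h1, mul_div_cancel₀ _ h2, tf_eq_av]

/-- A good family with one prescribed member. -/
theorem good_mem (ha : 0 < a) (hn : 0 < n) (hS : IsTab j n S) (ℓ : ∀ i, H i →ₗ[Ω] Ω)
    (U : Set (L ≃ₐ[ℚ] L)) (hU : IsHalf U) (hidx : (stab U).index ≤ n) :
    ∃ (β : Type) (b : β → (L ≃ₐ[ℚ] L) → ℤ),
      IsGood (L ≃ₐ[ℚ] L) (QQ a φ (BB n) p ν j jO ℓ) (RR p ν j) β b ∧
      dcnt b = dl (tf p ν j U) -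
        DD (fun l => tf p ν j (S (some l))) (fun l => (ee (MM n) (ff p ν j U) l : ℤ)) := by
  classical
  have hatom : IsAtom (Dec p ν j) (cc L) n (ff p ν j U) :=
    isAtom_av (fun g => cc_comm j g) hn (isSign_sg hU) (by rw [rst_sg]; exact hidx)
  let e : Lb p ν j n → ℕ := ee (MM n) (ff p ν j U)
  let r : ℕ := ((∑ l, e l) + 1) % 2
  let u : Unit ⊕ Fam e r → Set (L ≃ₐ[ℚ] L) := Sum.elim (fun _ => U) fun k => S (fw e r (clj j n) k)
  have hcard : Fintype.card (Unit ⊕ Fam e r) = 1 + ((∑ l, e l) + r) := by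
    rw [Fintype.card_sum, card_Fam, Fintype.card_unit]
  have hle : ∑ l, e l ≤ EE n := sum_ee_le hatom
  have hrr : r ≤ 1 := by
    have : r < 2 := Nat.mod_lt _ (by norm_num)
    omega
  have heven : Even (Fintype.card (Unit ⊕ Fam e r)) := by
    rw [hcard, Nat.even_iff]
    change (1 + ((∑ l, e l) + ((∑ l, e l) + 1) % 2)) % 2 = 0
    omega
  have hu : ∀ k, IsHalf (u k) := by
    rintro (k | k)
    · exact hU
    · exact hS.half _
  have hui : ∀ k, (stab (u k)).index ≤ XX n := by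
    rintro (k | k)
    · exact hidx.trans (le_XX n)
    · exact hS.idx _
  have hsum : ∀ σ, ((∑ k, tf p ν j (u k) σ : ℤ) : ℚ) = 0 := by
    intro σ
    rw [Fintype.sum_sum_type, Int.cast_add]
    have h1 : ((∑ k : Fam e r, tf p ν j (u (Sum.inr k)) σ : ℤ) : ℚ) =
        -((nD (Dec p ν j) : ℚ) * ff p ν j U σ) := hS.sum_fw hatom r σ
    have h2 : ∑ k : Unit, tf p ν j (u (Sum.inl k)) σ = tf p ν j U σ := by
      rw [Fintype.sum_unique]
      rfl
    rw [h1, h2, ff_eq]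
    ring
  refine ⟨Unit ⊕ Fam e r, fun k => tf p ν j (u k), ⟨inferInstance, ?_, ?_, ?_, ?_⟩, ?_⟩
  · rw [Nat.card_eq_fintype_card]
    exact heven
  · intro k
    exact ⟨u k, hu k, rfl⟩
  · have h1 : AlgMW a φ (BB n) ∅ p ν j jO (Unit ⊕ Fam e r) (fun k => tf p ν j (u k))
        (lprod ∅ ℓ) := @few_mem p _ ν Ω _ _ L _ _ _ _ j jO K _ H _ _ a φ n ha ∅ (by simp)
      (lprod ∅ ℓ) 0 1 0 1 (isNum_one j a) (gen_empty jO ℓ) (Unit ⊕ Fam e r) _ u hu hui
      (by rw [hcard]; omega) (fun σ => by rw [hsum σ]; simp) heven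
    exact @h1
  · have h1 : AlgMW a φ (BB n) ∅ p ν j jO (Unit ⊕ Fam e r) (fun k => tf p ν j (u k)ᶜ)
        (lprod ∅ ℓ) := @few_mem p _ ν Ω _ _ L _ _ _ _ j jO K _ H _ _ a φ n ha ∅ (by simp) (lprod ∅ ℓ) 0 1 0 1
      (isNum_one j a) (gen_empty jO ℓ) (Unit ⊕ Fam e r) _ (fun k => (u k)ᶜ) (fun k => (hu k).compl)
      (fun k => by rw [index_compl]; exact hui k) (by rw [hcard]; omega) (fun σ => by
        have h2 : ∑ k, tf p ν j (u k)ᶜ σ = -∑ k, tf p ν j (u k) σ := by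
          rw [← Finset.sum_neg_distrib]
          exact Finset.sum_congr rfl fun k _ => Pool.Agent.W417.TA.tf_compl j (u k) σ
        rw [h2, Int.cast_neg, hsum σ]
        simp) heven
    have h2 : (fun k => -tf p ν j (u k)) = fun k => tf p ν j (u k)ᶜ := by
      funext k σ
      exact (Pool.Agent.W417.TA.tf_compl j (u k) σ).symm
    rw [h2]
    exact @h1
  · rw [dcnt_eq_sum, Fintype.sum_sum_type, sub_eq_add_neg]
    congr 1
    · rw [Fintype.sum_unique]
      rfl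
    · have h1 := dcnt_fw (fun l => tf p ν j (S (some l))) e r (clj j n) (clj_inv j n) hS.conj
      rw [dcnt_eq_sum] at h1
      rw [← h1]
      refine Finset.sum_congr rfl fun k _ => ?_
      congr 1
      exact hS.ext _

/-- Products of the varieties. -/
theorem prod_mem (ha : 0 < a) (hS : IsTab j n S) (ℓ : ∀ i, H i →ₗ[Ω] Ω) (T : Finset K)
    {b : K → ℕ} {f : K → (L ≃ₐ[ℚ] L) → ℚ} {y : K → L} {R : K → ℕ} :
    (∀ i ∈ T, IsNum p ν j a (b i) (f i) (y i)) →
    (∀ i ∈ T, IsAtom (Dec p ν j) (cc L) n (f i)) →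
    (∀ i ∈ T, ((frobW φ {i} - jO (y i) • (1 : ML Ω H {i} →ₗ[Ω] ML Ω H {i})) ^ R i)
      (lprod {i} ℓ) = 0) →
    ∃ (Q : Type) (_ : Fintype Q) (u : Q → Set (L ≃ₐ[ℚ] L)), (∀ q, IsHalf (u q)) ∧
      (∀ q, (stab (u q)).index ≤ XX n) ∧
      AlgMW a φ (BB n) T p ν j jO Q (fun q => tf p ν j (u q)) (lprod T ℓ) ∧
      ∑ q, dl (tf p ν j (u q)) =
        -∑ i ∈ T, DD (fun l => tf p ν j (S (some l))) (fun l => (ee (MM n) (f i) l : ℤ)) ∧
      Even (Fintype.card Q + ∑ i ∈ T, b i) := by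
  classical
  induction T using Finset.induction_on with
  | empty =>
    intro _ _ _
    refine ⟨Empty, inferInstance, fun q => q.elim, fun q => q.elim, fun q => q.elim, ?_, ?_, ?_⟩
    · exact (closedW (p := p) (ν := ν) (φ := φ) j jO ha (BB n) ℓ).empty Empty _
    · simp
    · simp
  | insert i T hi ih =>
    intro hnum hatom hgen
    obtain ⟨Q, _, u, hu, hui, hA, hdl, hev⟩ := ih (fun k hk => hnum k (Finset.mem_insert_of_mem hk))
      (fun k hk => hatom k (Finset.mem_insert_of_mem hk))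
      (fun k hk => hgen k (Finset.mem_insert_of_mem hk))
    have hmem : i ∈ insert i T := Finset.mem_insert_self i T
    have hatom := hatom i hmem
    have hnum := hnum i hmem
    have hgen := hgen i hmem
    let e : Lb p ν j n → ℕ := ee (MM n) (f i)
    let r : ℕ := ((∑ l, e l) + b i) % 2
    let v : Fam e r → Set (L ≃ₐ[ℚ] L) := fun k => S (fw e r (clj j n) k)
    have hle : ∑ l, e l ≤ EE n := sum_ee_le hatom
    have hrr : r ≤ 1 := by
      have : r < 2 := Nat.mod_lt _ (by norm_num)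
      omega
    have heven : Even (Fintype.card (Fam e r) + b i) := by
      rw [card_Fam, Nat.even_iff]
      change ((∑ l, e l) + ((∑ l, e l) + b i) % 2 + b i) % 2 = 0
      omega
    have h1 := @few_mem p _ ν Ω _ _ L _ _ _ _ j jO K _ H _ _ a φ n ha {i} (by simp)
      (lprod {i} ℓ) (b i) (R i) (f i) (y i) hnum hgen (Fam e r) _ v (fun k => hS.half _)
      (fun k => hS.idx _) (by rw [card_Fam]; omega) (fun σ => by
        have h2 : ((∑ k : Fam e r, tf p ν j (v k) σ : ℤ) : ℚ) =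
          -((nD (Dec p ν j) : ℚ) * f i σ) := hS.sum_fw hatom r σ
        rw [h2]
        ring) heven
    have hdisj : Disjoint ({i} : Finset K) T := Finset.disjoint_singleton_left.2 hi
    have h2 := @cupW p _ ν Ω _ _ L _ _ _ _ K _ H _ _ a φ (BB n) j jO (Fam e r) Q _ _ _ _ {i} T
      hdisj ℓ @h1 @hA
    have h3 : ({i} : Finset K) ∪ T = insert i T := (Finset.insert_eq i T).symm
    have h4 := @AlgMW.cast p _ ν Ω _ _ L _ _ _ _ j jO K _ H _ _ a φ (BB n) _ _ h3 ℓ _ _ @h2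
    refine ⟨Fam e r ⊕ Q, inferInstance, Sum.elim v u, ?_, ?_, ?_, ?_, ?_⟩
    · rintro (k | k)
      · exact hS.half _
      · exact hu k
    · rintro (k | k)
      · exact hS.idx _
      · exact hui k
    · have h5 : (fun q => tf p ν j (Sum.elim v u q)) =
          Sum.elim (fun q => tf p ν j (v q)) fun q => tf p ν j (u q) := by
        funext q
        rcases q with q | q <;> rfl
      rw [h5]
      exact @h4
    · rw [Fintype.sum_sum_type, Finset.sum_insert hi, neg_add]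
      congr 1
      have h6 := dcnt_fw (fun l => tf p ν j (S (some l))) e r (clj j n) (clj_inv j n) hS.conj
      rw [dcnt_eq_sum] at h6
      rw [← h6]
      refine Finset.sum_congr rfl fun k _ => ?_
      congr 1
      exact hS.ext _
    · rw [Fintype.card_sum, Finset.sum_insert hi]
      have h7 : Fintype.card (Fam e r) + Fintype.card Q + (b i + ∑ x ∈ T, b x) =
          (Fintype.card (Fam e r) + b i) + (Fintype.card Q + ∑ x ∈ T, b x) := by ring
      rw [h7]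
      exact heven.add hev

end

end Pool.Agent.R937.BR
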