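import Pool.Agent.R937.BR.Real
import Pool.Agent.R937.BR.Atom2
import Pool.Agent.R937.VS.Arith

/-!
# A common Galois closure with a totally real subfield in which `p` is inert
-/

set_option autoImplicit false
set_option linter.unusedSectionVars false
set_option linter.unusedVariables false

namespace Pool.Agent.R937.BR

open NumberField Pool.Agent.H204R3.CM Pool.Agent.W547.KB Pool.Agent.W547.LD Pool.Agent.W495.TA Module
  Pool.Agent.W495.TB Pool.Agent.W495.TC Pool.Agent.Y137.SF Pool.Agent.R937.CS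
open Polynomial

noncomputable section

/-- The common Galois closure of finitely many number fields, which are CM fields or totally real, and
at least one of which is a CM field, is a CM field. -/
theorem exists_closure {ι : Type} [Finite ι] (E : ι → Type) [∀ i, Field (E i)]
    [∀ i, NumberField (E i)] (τ : ∀ i, E i → E i)
    (hτ : ∀ i (ψ : E i →+* ℂ) x, starRingEnd ℂ (ψ x) = ψ (τ i x)) (i0 : ι)
    (hi0 : ∃ x, τ i0 x ≠ x) :
    ∃ (L : Type) (_ : Field L) (_ : NumberField L) (_ : IsCMField L) (_ : IsGalois ℚ L)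
      (j : L →+* ℂ), ∀ i, ∀ ψ : E i →+* ℂ, ∃ φ : E i →+* L, j.comp φ = ψ := by
  classical
  have _ : Algebra.IsAlgebraic ℚ (AlgebraicClosure ℚ) := AlgebraicClosure.isAlgebraic ℚ
  have _ : IsAlgClosure ℚ (AlgebraicClosure ℚ) := ⟨inferInstance, inferInstance⟩
  have _ : Normal ℚ (AlgebraicClosure ℚ) := IsAlgClosure.normal ℚ (AlgebraicClosure ℚ)
  let j0 : (AlgebraicClosure ℚ) →ₐ[ℚ] ℂ := IsAlgClosed.lift
  let L : IntermediateField ℚ (AlgebraicClosure ℚ) :=
    ⨆ i, IntermediateField.normalClosure ℚ (E i) (AlgebraicClosure ℚ)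
  have hFD : FiniteDimensional ℚ L := IntermediateField.finiteDimensional_iSup_of_finite
  have _ : Normal ℚ L := IntermediateField.normal_iSup
    (h := fun i => normalClosure.normal ℚ (E i) (AlgebraicClosure ℚ))
  have hNF : NumberField L := NumberField.mk
  have hG : IsGalois ℚ L := ⟨⟩
  let j : L →+* ℂ := (j0 : (AlgebraicClosure ℚ) →+* ℂ).comp (algebraMap L (AlgebraicClosure ℚ))
  have hj : ∀ i, ∀ ψ : E i →+* ℂ, ∃ φ : E i →+* L, j.comp φ = ψ := by
    intro i ψ
    have hinj : Function.Injective (fun φ : E i →+* (AlgebraicClosure ℚ) =>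
        (j0 : (AlgebraicClosure ℚ) →+* ℂ).comp φ) := by
      intro φ φ' h
      ext x
      exact j0.injective (RingHom.congr_fun h x)
    have hbij : Function.Bijective (fun φ : E i →+* (AlgebraicClosure ℚ) =>
        (j0 : (AlgebraicClosure ℚ) →+* ℂ).comp φ) := by
      rw [Fintype.bijective_iff_injective_and_card]
      exact ⟨hinj, by rw [Embeddings.card, Embeddings.card]⟩
    obtain ⟨φ, hφ⟩ := hbij.2 ψ
    let φ' : E i →ₐ[ℚ] (AlgebraicClosure ℚ) :=
      RingHom.equivRatAlgHom (E i) (AlgebraicClosure ℚ) φ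
    have hle : φ'.fieldRange ≤ L :=
      (AlgHom.fieldRange_le_normalClosure φ').trans
        (le_iSup (fun i => IntermediateField.normalClosure ℚ (E i)
          (AlgebraicClosure ℚ)) i)
    let φL : E i →+* L :=
      { toFun := fun x => ⟨φ x, hle ⟨x, rfl⟩⟩
        map_one' := Subtype.ext (map_one φ)
        map_mul' := fun a b => Subtype.ext (map_mul φ a b)
        map_zero' := Subtype.ext (map_zero φ)
        map_add' := fun a b => Subtype.ext (map_add φ a b) }
    refine ⟨φL, ?_⟩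
    rw [← hφ]
    rfl
  -- complex conjugation
  have hconj : ∀ (ψ : L →+* ℂ) (i : ι) (φ : E i →+* L) (x : E i),
      ComplexEmbedding.conjugate ψ (φ x) = ψ (φ (τ i x)) := by
    intro ψ i φ x
    rw [ComplexEmbedding.conjugate_coe_eq]
    exact hτ i (ψ.comp φ) x
  obtain ⟨σ, hσ⟩ : ∃ σ : L ≃ₐ[ℚ] L, j.comp (σ : L →+* L) = ComplexEmbedding.conjugate j := by
    have h : Function.Bijective (fun σ : L ≃ₐ[ℚ] L => j.comp (σ : L →+* L)) := by
      rw [Fintype.bijective_iff_injective_and_card]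
      refine ⟨?_, ?_⟩
      · intro σ τ h
        ext1 x
        exact j.injective (RingHom.congr_fun h x)
      · rw [Embeddings.card, ← Nat.card_eq_fintype_card, IsGalois.card_aut_eq_finrank]
    exact h.2 _
  have hσ' : ∀ (i : ι) (φ : E i →+* L) (x : E i), σ (φ x) = φ (τ i x) := by
    intro i φ x
    apply j.injective
    rw [← hconj j i φ x, ← hσ]
    rfl
  have hall : ∀ ψ : L →+* ℂ, ComplexEmbedding.IsConj ψ σ := by
    intro ψ
    refine eq_of_agree E L rfl _ _ fun i φ x => ?_
    rw [hconj ψ i φ x]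
    change _ = ψ (σ (φ x))
    rw [hσ' i φ x]
  have htc : IsTotallyComplex L := by
    refine ⟨fun w => ?_⟩
    rw [InfinitePlace.isComplex_iff]
    intro hreal
    obtain ⟨φ, -⟩ := hj i0 (Classical.choice inferInstance)
    obtain ⟨x, hx⟩ := hi0
    apply hx
    apply φ.injective
    apply w.embedding.injective
    rw [← hconj w.embedding i0 φ x]
    have h := RingHom.congr_fun hreal (φ x)
    exact h
  exact ⟨L, inferInstance, hNF, IsCMField.of_forall_isConj L hall, hG, j, hj⟩

/-- Generators and polynomials. -/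
theorem exists_aeval {K : Type} [Field K] [NumberField K] (x : K)
    (hx : IntermediateField.adjoin ℚ {x} = ⊤) (z : K) : ∃ P : ℚ[X], aeval x P = z := by
  have hint : IsIntegral ℚ x := Algebra.IsIntegral.isIntegral x
  have h1 : z ∈ IntermediateField.adjoin ℚ {x} := by
    rw [hx]
    exact IntermediateField.mem_top
  have h2 : z ∈ (IntermediateField.adjoin ℚ {x}).toSubalgebra := h1
  rw [IntermediateField.adjoin_simple_toSubalgebra_of_isAlgebraic hint.isAlgebraic,
    Algebra.adjoin_singleton_eq_range_aeval] at h2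
  exact h2

/-- The complex conjugation on the field generated by a Weil number. -/
theorem exists_conj {K : Type} [Field K] [NumberField K] (x : K)
    (hx : IntermediateField.adjoin ℚ {x} = ⊤) (q : ℕ) (hq : 0 < q)
    (hw : ∀ ψ : K →+* ℂ, ‖ψ x‖ ^ 2 = (q : ℝ)) :
    ∃ τ : K → K, ∀ (ψ : K →+* ℂ) z, starRingEnd ℂ (ψ z) = ψ (τ z) := by
  choose P hP using exists_aeval x hx
  refine ⟨fun z => aeval ((q : K) / x) (P z), fun ψ z => ?_⟩
  have h1 : starRingEnd ℂ (ψ x) = ψ ((q : K) / x) := by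
    have h2 : ψ x ≠ 0 := by
      intro h
      have h3 := hw ψ
      rw [h, norm_zero] at h3
      have h4 : (0 : ℝ) < q := by exact_mod_cast hq
      rw [← h3] at h4
      norm_num at h4
    rw [map_div₀, map_natCast, eq_div_iff h2]
    have h3 : starRingEnd ℂ (ψ x) * ψ x = ((‖ψ x‖ ^ 2 : ℝ) : ℂ) := by
      rw [mul_comm, Complex.mul_conj, Complex.normSq_eq_norm_sq]
    rw [h3, hw]
    norm_num
  have h2 : ∀ (w : K) (Q : ℚ[X]), ψ (aeval w Q) = aeval (ψ w) Q := by
    intro w Q
    exact (aeval_algHom_apply (RingHom.equivRatAlgHom K ℂ ψ) w Q).symm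
  have h3 : ∀ (w : ℂ) (Q : ℚ[X]), starRingEnd ℂ (aeval w Q) = aeval (starRingEnd ℂ w) Q := by
    intro w Q
    exact (aeval_algHom_apply (RingHom.equivRatAlgHom ℂ ℂ (starRingEnd ℂ)) w Q).symm
  rw [h2, ← h1, ← h3, ← h2, hP]

section inert

variable {p : ℕ} [Fact p.Prime] {ν : PadicAlgCl p ≃+* ℂ}
  {L : Type} [Field L] [NumberField L] [IsCMField L] [IsGalois ℚ L] (j : L →+* ℂ)

/-- Automorphisms of the closure of the field of `p`-adic numbers give elements of the decomposition
group. -/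
theorem exists_dec (τ : PadicAlgCl p ≃ₐ[ℚ_[p]] PadicAlgCl p) :
    ∃ d ∈ Dec p ν j, ∀ x, j (d x) = ν (τ (ν.symm (j x))) := by
  obtain ⟨d, hd⟩ := comp_surjective j
    (((ν : PadicAlgCl p →+* ℂ).comp (τ : PadicAlgCl p →+* PadicAlgCl p)).comp
      ((ν.symm : ℂ →+* PadicAlgCl p).comp j))
  have h1 : ∀ x, j (d x) = ν (τ (ν.symm (j x))) := fun x => RingHom.congr_fun hd x
  exact ⟨d, ⟨τ, h1⟩, h1⟩

/-- The decomposition group acts transitively on the roots of a polynomial that is irreducible modulo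
`p`. -/
theorem dec_transitive (f : ℤ[X]) (hf : f.Monic)
    (hirr : Irreducible (f.map (Int.castRingHom (ZMod p)))) (θ : L)
    (hθ : (f.map (Int.castRingHom L)).IsRoot θ) (g : L ≃ₐ[ℚ] L) :
    ∃ d ∈ Dec p ν j, d⁻¹ * g ∈ MulAction.stabilizer (L ≃ₐ[ℚ] L) θ := by
  have hroot : ∀ (R : Type) [CommRing R] (φ : L →+* R), (f.map (Int.castRingHom R)).IsRoot (φ θ) := by
    intro R _ φ
    have h1 : φ.comp (Int.castRingHom L) = Int.castRingHom R := RingHom.ext_int _ _
    have h2 : (f.map (Int.castRingHom R)).eval (φ θ) = φ ((f.map (Int.castRingHom L)).eval θ) := by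
      rw [← h1, ← Polynomial.map_map, eval_map_apply]
    change (f.map (Int.castRingHom R)).eval (φ θ) = 0
    rw [h2]
    have h3 : (f.map (Int.castRingHom L)).eval θ = 0 := hθ
    rw [h3, map_zero]
  obtain ⟨τ, hτ⟩ := exists_aut p f hf hirr (ν.symm (j θ)) (ν.symm (j (g θ)))
    (hroot _ ((ν.symm : ℂ →+* PadicAlgCl p).comp j))
    (hroot _ (((ν.symm : ℂ →+* PadicAlgCl p).comp j).comp (g : L →+* L)))
  obtain ⟨d, hd, hd2⟩ := exists_dec (ν := ν) j τ
  refine ⟨d, hd, ?_⟩
  rw [MulAction.mem_stabilizer_iff]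
  change d.symm (g θ) = θ
  rw [AlgEquiv.symm_apply_eq]
  apply j.injective
  rw [hd2, hτ, RingEquiv.apply_symm_apply]

omit [IsCMField L] in
/-- The orbit of an element of a Galois extension. -/
theorem orbit_eq (y : L) : MulAction.orbit (L ≃ₐ[ℚ] L) y = (minpoly ℚ y).rootSet L := by
  ext z
  rw [← Normal.minpoly_eq_iff_mem_orbit (F := ℚ) (E := L)]
  have hy : IsIntegral ℚ y := Algebra.IsIntegral.isIntegral y
  rw [mem_rootSet]
  constructor
  · intro h
    refine ⟨minpoly.ne_zero hy, ?_⟩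
    rw [← h]
    exact minpoly.aeval ℚ z
  · rintro ⟨-, h⟩
    exact (minpoly.eq_of_irreducible_of_monic (minpoly.irreducible hy) h (minpoly.monic hy)).symm

omit [IsCMField L] in
/-- The index of the stabilizer of an element is its degree. -/
theorem index_stab (y : L) :
    (MulAction.stabilizer (L ≃ₐ[ℚ] L) y).index = (minpoly ℚ y).natDegree := by
  classical
  have hy : IsIntegral ℚ y := Algebra.IsIntegral.isIntegral y
  rw [MulAction.index_stabilizer, orbit_eq, ← Nat.card_coe_set_eq, Nat.card_eq_fintype_card]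
  exact card_rootSet_eq_natDegree (minpoly.irreducible hy).separable
    (Normal.splits inferInstance y)

omit [IsCMField L] in
theorem index_root (f : ℤ[X]) (hf : f.Monic)
    (hirr : Irreducible (f.map (Int.castRingHom (ZMod p)))) (θ : L)
    (hθ : (f.map (Int.castRingHom L)).IsRoot θ) :
    (MulAction.stabilizer (L ≃ₐ[ℚ] L) θ).index = f.natDegree := by
  have h1 : minpoly ℚ θ = f.map (Int.castRingHom ℚ) := by
    symm
    refine minpoly.eq_of_irreducible_of_monic (irreducible_rat p f hf hirr) ?_ (hf.map _)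
    have h2 : (algebraMap ℚ L).comp (Int.castRingHom ℚ) = Int.castRingHom L := RingHom.ext_int _ _
    rw [aeval_def, eval₂_eq_eval_map, Polynomial.map_map, h2]
    exact hθ
  rw [index_stab, h1, hf.natDegree_map]

end inert

section norm

variable {p : ℕ} [Fact p.Prime]

theorem norm_aut (τ : PadicAlgCl p ≃ₐ[ℚ_[p]] PadicAlgCl p) (z : PadicAlgCl p) : ‖τ z‖ = ‖z‖ :=
  (spectralNorm_eq_of_equiv τ z).symm

theorem norm_le_one_of_integral {z : PadicAlgCl p} (hz : IsIntegral ℤ z) : ‖z‖ ≤ 1 := by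
  obtain ⟨P, hm, hP⟩ := hz
  by_contra h
  push Not at h
  have h0 : P.natDegree ≠ 0 := by
    intro h1
    have h2 : P = 1 := by
      have := hm.natDegree_eq_zero.1 h1
      exact this
    rw [h2] at hP
    simp at hP
  have h1 : eval₂ (algebraMap ℤ (PadicAlgCl p)) z P =
      z ^ P.natDegree + ∑ i ∈ Finset.range P.natDegree,
        algebraMap ℤ (PadicAlgCl p) (P.coeff i) * z ^ i := by
    rw [eval₂_eq_sum_range, Finset.sum_range_succ, add_comm]
    have h2 : P.coeff P.natDegree = 1 := hm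
    rw [h2, map_one, one_mul]
  rw [h1] at hP
  have h2 : ‖∑ i ∈ Finset.range P.natDegree, algebraMap ℤ (PadicAlgCl p) (P.coeff i) * z ^ i‖ ≤
      ‖z‖ ^ (P.natDegree - 1) := by
    refine IsUltrametricDist.norm_sum_le_of_forall_le_of_nonneg (by positivity) fun i hi => ?_
    have hi' := Finset.mem_range.1 hi
    rw [norm_mul, norm_pow]
    have h3 : ‖algebraMap ℤ (PadicAlgCl p) (P.coeff i)‖ ≤ 1 := by
      have h4 : algebraMap ℤ (PadicAlgCl p) (P.coeff i) =
          algebraMap ℚ_[p] (PadicAlgCl p) ((P.coeff i : ℤ) : ℚ_[p]) := by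
        rw [map_intCast]
        rfl
      rw [h4, norm_algebraMap']
      exact Padic.norm_int_le_one _
    calc ‖algebraMap ℤ (PadicAlgCl p) (P.coeff i)‖ * ‖z‖ ^ i ≤ 1 * ‖z‖ ^ i :=
          mul_le_mul_of_nonneg_right h3 (by positivity)
      _ = ‖z‖ ^ i := one_mul _
      _ ≤ ‖z‖ ^ (P.natDegree - 1) := pow_le_pow_right₀ h.le (by omega)
  have h3 : z ^ P.natDegree = -∑ i ∈ Finset.range P.natDegree,
      algebraMap ℤ (PadicAlgCl p) (P.coeff i) * z ^ i := eq_neg_of_add_eq_zero_left hP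
  have h4 : ‖z‖ ^ P.natDegree ≤ ‖z‖ ^ (P.natDegree - 1) := by
    rw [← norm_pow, h3, norm_neg]
    exact h2
  have h5 : ‖z‖ ^ (P.natDegree - 1) < ‖z‖ ^ P.natDegree := pow_lt_pow_right₀ h (by omega)
  linarith

end norm

end

end Pool.Agent.R937.BR
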