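import Pool.Agent.R937.BR.Mono

/-!
# Products of arbitrary varieties and abelian varieties: the theorem
-/

set_option autoImplicit false
set_option linter.unusedSectionVars false
set_option linter.unusedVariables false

namespace Pool.Agent.R937.BR

open NumberField Pool.Agent.H204R3.CM Pool.Agent.W547.KB Pool.Agent.W547.LD Pool.Agent.W495.TA Module
  Pool.Agent.W495.TB Pool.Agent.W495.TC Pool.Agent.TH117.F5 Pool.Agent.TH117.BL Pool.Agent.Y137.SF
  Pool.Agent.R937.CS Pool.Agent.W976.TA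
open Pool.Agent.Y137.TV (tens tens_apply lam lam_ne_zero mono_F expandM)
open Pool.Agent.R937.VS (slope gen_pow gen_smul component)

noncomputable section

/-- The fields of Frobenius eigenvalues. -/
theorem exists_fld {p : ℕ} [Fact p.Prime] {ν : PadicAlgCl p ≃+* ℂ} {Ω : Type} [Field Ω] [CharZero Ω]
    {a b n : ℕ} {α : Ω} (h : IsWeil p ν a b n α) :
    ∃ (E : FldC) (ι : E.E →+* Ω) (x : E.E), ι x = α ∧ finrank ℚ E.E ≤ n ∧ IsIntegral ℤ x ∧
      (∀ ψ : E.E →+* ℂ, ‖ψ x‖ ^ 2 = (p : ℝ) ^ (a * b)) ∧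
      ∀ ψ : E.E →+* ℂ, ∃ z : ℤ, (Nat.factorial n : ℝ) * slope p ν a (ψ x) = z := by
  obtain ⟨F, iF, iN, ι, x, h1, h2, h3, h4, h5, h6⟩ := h
  obtain ⟨τ, hτ⟩ := exists_conj x h2 (p ^ (a * b)) (pow_pos (Fact.out : p.Prime).pos _) (by
    intro ψ
    rw [h5]
    push_cast
    rfl)
  exact ⟨@FldC.mk F iF iN τ hτ, ι, x, h1, h3, h4, h5, h6⟩

section linear

variable {p : ℕ} [Fact p.Prime] {ν : PadicAlgCl p ≃+* ℂ} {Ω : Type} [Field Ω] [CharZero Ω]
  {M : Type} [AddCommGroup M] [Module Ω M]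

theorem tens_sum {Y : RedAV p ν} {κ ι : Type} (f : (TM Ω Y) [⋀^κ]→ₗ[Ω] Ω) (s : Finset ι)
    (c : ι → Ω) (w : ι → M) :
    tens f (∑ i ∈ s, c i • w i) = ∑ i ∈ s, c i • tens f (w i) := by
  let h : M →ₗ[Ω] ((TM Ω Y) [⋀^κ]→ₗ[Ω] M) :=
    { toFun := fun w => tens f w
      map_add' := fun w w' => by
        ext v
        change f v • (w + w') = f v • w + f v • w'
        rw [smul_add]
      map_smul' := fun c w => by
        ext v
        change f v • (c • w) = c • (f v • w)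
        rw [smul_comm] }
  change h (∑ i ∈ s, c i • w i) = ∑ i ∈ s, c i • h (w i)
  rw [map_sum]
  exact Finset.sum_congr rfl fun i _ => map_smul h _ _

end linear

variable {p : ℕ} [Fact p.Prime] {ν : PadicAlgCl p ≃+* ℂ} {Ω : Type} [Field Ω] [IsAlgClosed Ω]
  [CharZero Ω] {K : Type} [DecidableEq K] {H : K → Type} [∀ i, AddCommGroup (H i)]
  [∀ i, Module Ω (H i)] [∀ i, FiniteDimensional Ω (H i)]

/-- **The theorem.** -/
theorem main {n : ℕ} (hn : 0 < n) (a : ℕ) (ha : 0 < a) (b : K → ℕ) (φ : ∀ i, H i →ₗ[Ω] H i)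
    (T : Finset K) (hb : ∀ i ∈ T, b i ≤ n)
    (hφ : ∀ i ∈ T, ∀ α, End.HasEigenvalue (φ i) α → IsWeil p ν a (b i) n α)
    (Y : RedAV p ν) (hY : ∀ i, finrank ℚ (Y.X.factor i).E ≤ n) (r k : ℕ)
    (g : Cls Ω H T Y (Fin k)) (hg : IsTate a φ r g) : AlgW a φ (BB n) T Y (Fin k) g := by
  classical
  choose ι hι u α N hα hu hcu using fun i => exists_basis (φ i)
  -- the fields
  choose E ιE x hx hdeg hint hweil hslope using fun (i : T) (c : ι i) =>
    exists_fld (hφ i.1 i.2 (α i c) (hα i c))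
  obtain ⟨L, _, _, _, _, j, hYj, hkp, hE, H0, hH0, hDH⟩ := exists_setup (p := p) (ν := ν) n Y
    (fun q : (Σ i : T, ι i) => E q.1 q.2)
  let jO : L →+* Ω := ((IsAlgClosed.lift : L →ₐ[ℚ] Ω) : L →+* Ω)
  choose y f hy hnum hatom using fun (i : T) (c : ι i) =>
    exists_num (p := p) (ν := ν) j jO (x i c) (ιE i c) (hE ⟨i, c⟩) ha (hb i.1 i.2) (hdeg i c)
      (hint i c) (hweil i c) (hslope i c)
  obtain ⟨S, hS⟩ := exists_tab (p := p) (ν := ν) j n hkp H0 hH0 hDH
  -- the basis of the Tate module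
  obtain ⟨e, h1, h0⟩ := Pool.Agent.W67.TA.basis p ν Ω L j jO Y hYj
  have : Module.Finite ℚ Y.X.H1 := Module.Finite.pi
  have : Finite (Wt Y.X L) := Module.Finite.finite_basis e
  let _ : Fintype (Wt Y.X L) := Fintype.ofFinite _
  have hne : ((Fintype.card (Equiv.Perm (Fin k)) : ℕ) : Ω) ≠ 0 :=
    Nat.cast_ne_zero.2 Fintype.card_ne_zero
  obtain ⟨s, t, c, hs, ht, hst, hg⟩ := hg
  have h2 := expandM jO Y e h1 h0 (Fin k) g
  have h3 : AlgW a φ (BB n) T Y (Fin k) (((Fintype.card (Equiv.Perm (Fin k)) : ℕ) : Ω) • g) := by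
    rw [h2]
    refine algW_sum _ _ fun I _ => ?_
    set w : ML Ω H T := g fun k => e (I k) with hw
    have hgenw := component jO e h1 h0 hg I
    rw [← hw] at hgenw
    rw [expand T u w, tens_sum]
    refine algW_sum _ _ fun d _ => ?_
    by_cases hd : (w fun i => u i (d i)) = 0
    · rw [hd, zero_smul]
      exact AlgW.zero _ _ _
    · refine AlgW.smul _ _ ?_
      let y' : K → L := fun i => if h : i ∈ T then y ⟨i, h⟩ (d ⟨i, h⟩) else 0
      let f' : K → (L ≃ₐ[ℚ] L) → ℚ := fun i => if h : i ∈ T then f ⟨i, h⟩ (d ⟨i, h⟩) else 0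
      have hy' : ∀ i (h : i ∈ T), y' i = y ⟨i, h⟩ (d ⟨i, h⟩) := fun i h => dif_pos h
      have hf' : ∀ i (h : i ∈ T), f' i = f ⟨i, h⟩ (d ⟨i, h⟩) := fun i h => dif_pos h
      have hjy : ∀ i (h : i ∈ T), jO (y' i) = α i (d ⟨i, h⟩) := by
        intro i h
        rw [hy' i h, hy, hx]
      have hnum' : ∀ i ∈ T, IsNum p ν j a (b i) (f' i) (y' i) := by
        intro i h
        rw [hy' i h, hf' i h]
        exact hnum ⟨i, h⟩ (d ⟨i, h⟩)
      have hrel : (∏ k, lam jO (I k)) ^ s * ∏ i ∈ T, jO (y' i) ^ t = (p : Ω) ^ (a * t * c) := by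
        by_contra hcon
        apply hd
        have h5 : ∏ i ∈ T, jO (y' i) ^ t = ∏ i : T, α i (d i) ^ t := by
          rw [← Finset.prod_coe_sort]
          exact Finset.prod_congr rfl fun i _ => by rw [hjy i.1 i.2]
        rw [h5] at hcon
        rw [frobW_pow] at hgenw
        exact vanish hcon _ r (fun i => N i) le_rfl w hgenw _ fun i =>
          gen_pow (φ i) (α i (d i)) (N i) t (u i (d i)) (hu i (d i))
      obtain ⟨hcard, hsum⟩ := rel_of_tate j jO hYj I ha ht hst hnum' hrel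
      refine mono_mem jO ha hn hS hYj hY I T _ (R := N) hnum' (fun i h => ?_) (fun i h => ?_) ?_ hsum
      · rw [hf' i h]
        exact hatom ⟨i, h⟩ (d ⟨i, h⟩)
      · rw [hjy i h]
        refine frobW_single φ i _ _ _ fun z => ?_
        rw [dif_pos h]
        exact hcu i (d ⟨i, h⟩) z
      · exact ⟨c, by omega⟩
  have h4 := AlgW.smul (((Fintype.card (Equiv.Perm (Fin k)) : ℕ) : Ω))⁻¹ _ h3
  rwa [smul_smul, inv_mul_cancel₀ hne, one_smul] at h4

end

end Pool.Agent.R937.BR
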