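import Pool.Agent.R937.BR.Fin

/-!
# Monomials belong to the system
-/

set_option autoImplicit false
set_option linter.unusedSectionVars false
set_option linter.unusedVariables false

namespace Pool.Agent.R937.BR

open NumberField Pool.Agent.H204R3.CM Pool.Agent.W547.KB Pool.Agent.W547.LD Pool.Agent.W495.TA Module
  Pool.Agent.W495.TB Pool.Agent.W495.TC Pool.Agent.TH117.F5 Pool.Agent.TH117.BL Pool.Agent.Y137.SF
  Pool.Agent.R937.CS Pool.Agent.W976.TA
open Pool.Agent.Y137.TV (tens tens_apply lam lam_ne_zero mono_F expandM)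

noncomputable section

theorem genD_sum {G ι : Type} {Q : (κ : Type) → (κ → G → ℤ) → Prop} {R : Set (G → ℤ)}
    (s : Finset ι) (F : ι → (G → ℤ) → ℤ) (h : ∀ i ∈ s, GenD Q R (F i)) :
    GenD Q R (∑ i ∈ s, F i) := by
  classical
  induction s using Finset.induction_on with
  | empty => rw [Finset.sum_empty]; exact GenD.zero
  | insert a s ha ih =>
    rw [Finset.sum_insert ha]
    exact (h a (Finset.mem_insert_self a s)).add (ih fun i hi => h i (Finset.mem_insert_of_mem hi))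

variable {p : ℕ} [Fact p.Prime] {ν : PadicAlgCl p ≃+* ℂ} {Ω : Type} [Field Ω] [CharZero Ω]
  {L : Type} [Field L] [NumberField L] [IsCMField L] [IsGalois ℚ L] {j : L →+* ℂ} (jO : L →+* Ω)
  {K : Type} [DecidableEq K] {H : K → Type} [∀ i, AddCommGroup (H i)] [∀ i, Module Ω (H i)]
  {a : ℕ} {φ : ∀ i, H i →ₗ[Ω] H i} {n : ℕ} {S : Option (Lb p ν j n) → Set (L ≃ₐ[ℚ] L)}

theorem sum_dl_wt (X : CMAV) [Fintype (Wt X L)] :
    ∑ w : Wt X L, dl (tf p ν j (St j w)) = 0 := by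
  classical
  have hinv : Function.Involutive fun w : Wt X L => cc L • w := fun w => by
    change cc L • cc L • w = w
    rw [← mul_smul, cc_cc, one_smul]
  have h1 := Equiv.sum_comp (Function.Involutive.toPerm _ hinv)
    (fun w : Wt X L => dl (tf p ν j (St j w)))
  have h2 : ∀ w : Wt X L, dl (tf p ν j (St j (Function.Involutive.toPerm _ hinv w))) =
      -dl (tf p ν j (St j w)) := fun w => by
    have h3 : tf p ν j (St j (Function.Involutive.toPerm _ hinv w)) = -tf p ν j (St j w) := by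
      funext g
      exact tf_cc_wt j X w g
    rw [h3, dl_neg]
  rw [Finset.sum_congr rfl fun w _ => h2 w, Finset.sum_neg_distrib] at h1
  funext g
  have h4 := congrFun h1 g
  rw [Pi.neg_apply] at h4
  rw [Pi.zero_apply]
  omega

/-- **Monomials.** -/
theorem mono_mem (ha : 0 < a) (hn : 0 < n) (hS : IsTab j n S) {Y : RedAV p ν} (hY : Big Y.X j)
    (hdim : ∀ i, finrank ℚ (Y.X.factor i).E ≤ n) {κ : Type} [Fintype κ] [DecidableEq κ]
    (I : κ → Wt Y.X L) (T : Finset K) (ℓ : ∀ i, H i →ₗ[Ω] Ω)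
    {b : K → ℕ} {f : K → (L ≃ₐ[ℚ] L) → ℚ} {y : K → L} {R : K → ℕ}
    (hnum : ∀ i ∈ T, IsNum p ν j a (b i) (f i) (y i))
    (hatom : ∀ i ∈ T, IsAtom (Dec p ν j) (cc L) n (f i))
    (hgen : ∀ i ∈ T, ((frobW φ {i} - jO (y i) • (1 : ML Ω H {i} →ₗ[Ω] ML Ω H {i})) ^ R i)
      (lprod {i} ℓ) = 0) (heven : Even (Fintype.card κ + ∑ i ∈ T, b i))
    (hrel : ∀ σ, ((∑ k, tf p ν j (St j (I k)) σ : ℤ) : ℚ) +
      (nD (Dec p ν j) : ℚ) * ∑ i ∈ T, f i σ = 0) :
    AlgW a φ (BB n) T Y κ (tens (monoO jO I) (lprod T ℓ)) := by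
  classical
  obtain ⟨Q, _, u, hu, hui, hA, hdl, hev⟩ := prod_mem jO ha hS ℓ T hnum hatom hgen
  obtain ⟨Z, J, hZ, hJ, hSt, -⟩ := exists_weights (p := p) (ν := ν) j u hu
  have hhalf : ∀ w : Wt Y.X L, IsHalf (St j w) := fun w => isHalf_St (X := Y.X) j w
  have hYidx : ∀ k, (stab (St j (I k))).index ≤ n := fun k =>
    (index_hs_le j (Y.X.factor (I k).1) (hY (I k).1) (I k).2).trans (hdim (I k).1)
  have hV : AlgMW a φ (BB n) T p ν j jO Q (fun q => tf p ν j (St j (J q))) (lprod T ℓ) := by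
    have h5 : (fun q => tf p ν j (St j (J q))) = fun q => tf p ν j (u q) := by
      funext q
      rw [hSt q]
    rw [h5]
    exact @hA
  -- the remaining weights
  haveI : Finite (Wt Z.X L) := finite_wt j hZ
  letI : Fintype (Wt Z.X L) := Fintype.ofFinite _
  let C : Type := ((Set.range J)ᶜ : Set (Wt Z.X L))
  haveI : Finite C := Subtype.finite
  letI : Fintype C := Fintype.ofFinite _
  let eRQ : C ⊕ Q ≃ Wt Z.X L := (Equiv.sumComm C Q).trans
    ((Equiv.sumCongr (Equiv.ofInjective J hJ) (Equiv.refl C)).trans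
      (Equiv.Set.sumCompl (Set.range J)))
  let v : κ ⊕ C → Set (L ≃ₐ[ℚ] L) := Sum.elim (fun k => St j (I k)) fun c : C => St j c.1
  have hv : ∀ x, IsHalf (v x) := by
    rintro (k | c)
    · exact hhalf (I k)
    · exact isHalf_St (X := Z.X) j c.1
  have hdlC : ∑ c : C, dl (tf p ν j (St j c.1)) =
      ∑ i ∈ T, DD (fun l => tf p ν j (S (some l))) (fun l => (ee (MM n) (f i) l : ℤ)) := by
    have h1 := sum_dl_wt (p := p) (ν := ν) (j := j) Z.X
    rw [← Equiv.sum_comp eRQ, Fintype.sum_sum_type] at h1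
    have h2 : ∑ q : Q, dl (tf p ν j (St j (eRQ (Sum.inr q)))) = ∑ q, dl (tf p ν j (u q)) := by
      refine Finset.sum_congr rfl fun q _ => ?_
      have h3 : eRQ (Sum.inr q) = J q := rfl
      rw [h3, hSt q]
    rw [h2, hdl, ← sub_eq_add_neg, sub_eq_zero] at h1
    exact h1
  have hevenC : Even (Nat.card (κ ⊕ C)) := by
    have h1 := Pool.Agent.R937.VS.even_card_wt Z.X j
    rw [← Fintype.card_congr eRQ, Fintype.card_sum] at h1
    rw [Nat.card_eq_fintype_card, Fintype.card_sum]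
    rw [Nat.even_iff] at h1 heven hev ⊢
    omega
  -- the good families
  choose β bk hgood hdcnt using fun k => good_mem (φ := φ) jO ha hn hS ℓ (St j (I k)) (hhalf (I k))
    (hYidx k)
  have hatomY : ∀ k, IsAtom (Dec p ν j) (cc L) n (ff p ν j (St j (I k))) := fun k =>
    isAtom_av (fun g => cc_comm j g) hn (isSign_sg (hhalf (I k))) (by rw [rst_sg]; exact hYidx k)
  have hD : dcnt (fun x => tf p ν j (v x)) = ∑ k, dcnt (bk k) := by
    have hnD : ((nD (Dec p ν j) : ℤ) : ℚ) ≠ 0 := by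
      exact_mod_cast (nD_pos (Dec p ν j)).ne'
    have h1 := sum_DD (D := Dec p ν j) (n := n) (fun g => cc_comm j g) cc_cc
      (Sum.elim (fun k => ff p ν j (St j (I k))) fun i : T => f i) (by
        rintro (k | i)
        · exact hatomY k
        · exact hatom i.1 i.2) (by
        funext σ
        rw [Finset.sum_apply, Fintype.sum_sum_type]
        have h2 : (nD (Dec p ν j) : ℚ) * (∑ k, ff p ν j (St j (I k)) σ + ∑ i : T, f i σ) = 0 := by
          rw [mul_add, Finset.mul_sum, ← hrel σ]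
          congr 1
          · rw [Finset.sum_congr rfl fun k _ => ff_eq (St j (I k)) σ]
            push_cast
            rfl
          · rw [Finset.sum_coe_sort T fun i => f i σ]
        rcases mul_eq_zero.1 h2 with h3 | h3
        · exact absurd h3 hnD
        · exact h3) (fun l => tf p ν j (S (some l))) hS.conj
    rw [Fintype.sum_sum_type] at h1
    have h2 : ∑ i : T, DD (fun l => tf p ν j (S (some l))) (fun l => (ee (MM n) (f i) l : ℤ)) =
        ∑ i ∈ T, DD (fun l => tf p ν j (S (some l))) (fun l => (ee (MM n) (f i) l : ℤ)) :=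
      Finset.sum_coe_sort T fun i => DD (fun l => tf p ν j (S (some l)))
        (fun l => (ee (MM n) (f i) l : ℤ))
    have h3 : ∑ k, DD (fun l => tf p ν j (S (some l)))
        (fun l => (ee (MM n) (ff p ν j (St j (I k))) l : ℤ)) +
        ∑ i ∈ T, DD (fun l => tf p ν j (S (some l))) (fun l => (ee (MM n) (f i) l : ℤ)) = 0 := by
      rw [← h2]
      exact h1
    rw [dcnt_eq_sum, Fintype.sum_sum_type, Finset.sum_congr rfl fun k _ => hdcnt k,
      Finset.sum_sub_distrib]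
    have h4 : ∑ c : C, dl (tf p ν j (v (Sum.inr c))) =
        -∑ k, DD (fun l => tf p ν j (S (some l)))
          (fun l => (ee (MM n) (ff p ν j (St j (I k))) l : ℤ)) := by
      rw [eq_neg_iff_add_eq_zero, add_comm, ← h3]
      congr 1
    rw [h4, sub_eq_add_neg]
    rfl
  have hgen2 : GenD (QQ a φ (BB n) p ν j jO ℓ) (RR p ν j) (dcnt fun x => tf p ν j (v x)) := by
    rw [hD]
    exact genD_sum _ _ fun k _ => GenD.of_good (hgood k)
  have hcan : ∀ g ∈ RR p ν j, PairCancel (L ≃ₐ[ℚ] L) (QQ a φ (BB n) p ν j jO ℓ) g := by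
    rintro g ⟨U, hU, rfl⟩
    exact cancelW j jO ha (BB n) ℓ U hU
  have hSm : AlgMW a φ (BB n) ∅ p ν j jO (κ ⊕ C) (fun x => tf p ν j (v x)) (lprod ∅ ℓ) :=
    @of_genD _ _ (RR p ν j) (closedW j jO ha (BB n) ℓ) hcan (κ ⊕ C) _
      (fun x => tf p ν j (v x)) (fun k => ⟨v k, hv k, rfl⟩) hevenC hgen2
  have hcup : AlgMW a φ (BB n) (∅ ∪ T) p ν j jO ((κ ⊕ C) ⊕ Q)
      (Sum.elim (fun x => tf p ν j (v x)) (fun q => tf p ν j (St j (J q)))) (lprod (∅ ∪ T) ℓ) :=
    @cupW p _ ν Ω _ _ L _ _ _ _ K _ H _ _ a φ (BB n) j jO (κ ⊕ C) Q _ _ _ _ ∅ T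
      (Finset.disjoint_empty_left T) ℓ @hSm @hV
  have hcup2 : AlgMW a φ (BB n) T p ν j jO ((κ ⊕ C) ⊕ Q)
      (Sum.elim (fun x => tf p ν j (v x)) (fun q => tf p ν j (St j (J q)))) (lprod T ℓ) :=
    @AlgMW.cast p _ ν Ω _ _ L _ _ _ _ j jO K _ H _ _ a φ (BB n) _ _ (Finset.empty_union T) ℓ
      _ _ @hcup
  let E : (κ ⊕ C) ⊕ Q ≃ κ ⊕ Wt Z.X L :=
    (Equiv.sumAssoc κ C Q).trans (Equiv.sumCongr (Equiv.refl κ) eRQ)
  have hre : AlgMW a φ (BB n) T p ν j jO (κ ⊕ Wt Z.X L)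
      (Sum.elim (fun k => tf p ν j (St j (I k))) fun w => tf p ν j (St j w)) (lprod T ℓ) :=
    @reindexW p _ ν Ω _ _ L _ _ _ _ K _ H _ _ a φ (BB n) T j jO _ _ _ E _ _ (lprod T ℓ) (by
      rintro ((k | c) | q)
      · rfl
      · rfl
      · rfl) @hcup2
  exact @pushW p _ ν Ω _ _ L _ _ _ _ K _ H _ _ a φ (BB n) T j jO Z hZ κ _ _ (lprod T ℓ) @hre _ _
    Y hY I fun k => rfl

end

end Pool.Agent.R937.BR
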