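import Pool.Agent.R937.BR.Rel
import Pool.Agent.R937.BR.Fld

/-!
# Frobenius eigenvalues and functions on the Galois group
-/

set_option autoImplicit false
set_option linter.unusedSectionVars false
set_option linter.unusedVariables false

namespace Pool.Agent.R937.BR

open NumberField Pool.Agent.H204R3.CM Pool.Agent.W547.KB Pool.Agent.W547.LD Pool.Agent.W495.TA Module
  Pool.Agent.W495.TB Pool.Agent.W495.TC Pool.Agent.TH117.F5 Pool.Agent.TH117.BL Pool.Agent.Y137.SF
  Pool.Agent.R937.CS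
open Pool.Agent.R937.VS (slope)
open Polynomial

noncomputable section

variable {p : ℕ} [Fact p.Prime] {ν : PadicAlgCl p ≃+* ℂ} {Ω : Type} [Field Ω] [CharZero Ω]
  {L : Type} [Field L] [NumberField L] [IsCMField L] [IsGalois ℚ L] (j : L →+* ℂ) (jO : L →+* Ω)

omit [NumberField L] [IsCMField L] [IsGalois ℚ L] in
/-- The function on the Galois group belonging to a Frobenius eigenvalue. -/
theorem exists_num {F : Type} [Field F] [NumberField F] (x : F) (ι : F →+* Ω)
    [NumberField L] [IsCMField L] [IsGalois ℚ L]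
    (hF : ∀ ψ : F →+* ℂ, ∃ φ : F →+* L, j.comp φ = ψ) {a b n : ℕ} (ha : 0 < a) (hb : b ≤ n)
    (hdeg : finrank ℚ F ≤ n) (hint : IsIntegral ℤ x)
    (hweil : ∀ ψ : F →+* ℂ, ‖ψ x‖ ^ 2 = (p : ℝ) ^ (a * b))
    (hslope : ∀ ψ : F →+* ℂ, ∃ z : ℤ, (Nat.factorial n : ℝ) * slope p ν a (ψ x) = z) :
    ∃ (y : L) (f : (L ≃ₐ[ℚ] L) → ℚ), jO y = ι x ∧ IsNum p ν j a b f y ∧
      IsAtom (Dec p ν j) (cc L) n f := by
  classical
  have hxint : IsIntegral ℚ x := Algebra.IsIntegral.isIntegral x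
  obtain ⟨ψ0⟩ : Nonempty (F →+* ℂ) := inferInstance
  obtain ⟨φ0, -⟩ := hF ψ0
  -- the number in `L`
  obtain ⟨y, hy⟩ : ∃ y : L, jO y = ι x := by
    have h1 : ((minpoly ℚ x).map (algebraMap ℚ L)).Splits := by
      have h2 := minpoly.algHom_eq (RingHom.equivRatAlgHom F L φ0) φ0.injective x
      rw [← h2]
      exact Normal.splits inferInstance _
    have h2 : ι x ∈ ((minpoly ℚ x).map (algebraMap ℚ Ω)).roots := by
      have hne : (minpoly ℚ x).map (algebraMap ℚ Ω) ≠ 0 :=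
        (Polynomial.map_ne_zero_iff (algebraMap ℚ Ω).injective).2 (minpoly.ne_zero hxint)
      rw [mem_roots hne, IsRoot.def, eval_map_algebraMap]
      have h3 : aeval ((RingHom.equivRatAlgHom F Ω ι) x) (minpoly ℚ x) = 0 := by
        rw [aeval_algHom_apply, minpoly.aeval, map_zero]
      exact h3
    have h3 : (minpoly ℚ x).map (algebraMap ℚ Ω) =
        ((minpoly ℚ x).map (algebraMap ℚ L)).map jO := by
      rw [Polynomial.map_map]
      congr 1
      exact RingHom.ext_rat _ _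
    rw [h3, h1.roots_map jO] at h2
    obtain ⟨y, -, hy⟩ := Multiset.mem_map.1 h2
    exact ⟨y, hy⟩
  have hmin : minpoly ℚ y = minpoly ℚ x := by
    have h1 := minpoly.algHom_eq (RingHom.equivRatAlgHom L Ω jO) jO.injective y
    have h2 := minpoly.algHom_eq (RingHom.equivRatAlgHom F Ω ι) ι.injective x
    rw [← h1, ← h2]
    exact congrArg (minpoly ℚ) hy
  have hyint : IsIntegral ℤ y := by
    have h1 : IsIntegral ℤ (jO.toIntAlgHom y) := by
      change IsIntegral ℤ (jO y)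
      rw [hy]
      exact hint.map ι.toIntAlgHom
    exact (isIntegral_algHom_iff jO.toIntAlgHom jO.injective).1 h1
  have hex : ∀ ψ : L →+* ℂ, ∃ ψ' : F →+* ℂ, ψ' x = ψ y := by
    intro ψ
    have h1 : ψ y ∈ Set.range fun ψ' : F →+* ℂ => ψ' x := by
      rw [Embeddings.range_eval_eq_rootSet_minpoly F ℂ x, ← hmin,
        ← Embeddings.range_eval_eq_rootSet_minpoly L ℂ y]
      exact ⟨ψ, rfl⟩
    exact h1
  have hyw : ∀ ψ : L →+* ℂ, ‖ψ y‖ ^ 2 = (p : ℝ) ^ (a * b) := by
    intro ψ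
    obtain ⟨ψ', h⟩ := hex ψ
    rw [← h]
    exact hweil ψ'
  have hz : ∀ σ : L ≃ₐ[ℚ] L, ∃ z : ℤ, (Nat.factorial n : ℝ) * slope p ν a (j (σ y)) = z := by
    intro σ
    obtain ⟨ψ', h⟩ := hex (j.comp (σ : L →+* L))
    have h1 : j (σ y) = ψ' x := h.symm
    rw [h1]
    exact hslope ψ'
  choose z hz using hz
  have hfac : (0 : ℝ) < Nat.factorial n := by exact_mod_cast Nat.factorial_pos n
  let f : (L ≃ₐ[ℚ] L) → ℚ := fun σ => 2 * (z σ / Nat.factorial n) - b
  have hf : ∀ σ, (f σ : ℝ) = 2 * slope p ν a (j (σ y)) - b := by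
    intro σ
    have h1 : slope p ν a (j (σ y)) = z σ / Nat.factorial n := by
      rw [eq_div_iff hfac.ne', mul_comm]
      exact hz σ
    rw [h1]
    change ((2 * (z σ / Nat.factorial n) - b : ℚ) : ℝ) = _
    push_cast
    ring
  have hnum : IsNum p ν j a b f y := ⟨hyint, hyw, hf⟩
  -- slopes
  have hlp : Real.log ‖(p : PadicAlgCl p)‖ < 0 := Real.log_neg norm_p_pos norm_p_lt
  have ha' : (0 : ℝ) < a := by exact_mod_cast ha
  have hlq : Real.log ‖(p : PadicAlgCl p) ^ a‖ = a * Real.log ‖(p : PadicAlgCl p)‖ := by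
    rw [norm_pow, Real.log_pow]
  have hlq0 : (a : ℝ) * Real.log ‖(p : PadicAlgCl p)‖ < 0 := mul_neg_of_pos_of_neg ha' hlp
  have hnonneg : ∀ σ : L ≃ₐ[ℚ] L, 0 ≤ slope p ν a (j (σ y)) := by
    intro σ
    unfold Pool.Agent.R937.VS.slope
    rw [hlq]
    refine div_nonneg_of_nonpos ?_ hlq0.le
    refine Real.log_nonpos (norm_nonneg _) (norm_le_one_of_integral ?_)
    have h1 : IsIntegral ℤ ((((ν.symm : ℂ →+* PadicAlgCl p).comp j).comp (σ : L →+* L)).toIntAlgHom y) :=
      hyint.map _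
    exact h1
  have hne : ∀ σ : L ≃ₐ[ℚ] L, ‖ν.symm (j (σ y))‖ ≠ 0 := fun σ => by
    rw [norm_ne_zero_iff]
    exact (map_ne_zero ν.symm).2 ((map_ne_zero j).2 ((map_ne_zero σ).2 hnum.ne_zero))
  have hcc : ∀ σ : L ≃ₐ[ℚ] L, slope p ν a (j ((cc L * σ) y)) + slope p ν a (j (σ y)) = b := by
    intro σ
    have h1 : j ((cc L * σ) y) * j (σ y) = ((p : ℂ)) ^ (a * b) := by
      have h2 : j ((cc L * σ) y) = starRingEnd ℂ (j (σ y)) := emb_cc j (σ y)
      rw [h2, mul_comm, Complex.mul_conj, Complex.normSq_eq_norm_sq]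
      have h3 := hyw (j.comp (σ : L →+* L))
      have h4 : ‖j (σ y)‖ ^ 2 = (p : ℝ) ^ (a * b) := h3
      rw [h4]
      push_cast
      rfl
    have h2 : Real.log ‖ν.symm (j ((cc L * σ) y))‖ + Real.log ‖ν.symm (j (σ y))‖ =
        (a * b) * Real.log ‖(p : PadicAlgCl p)‖ := by
      rw [← Real.log_mul (hne _) (hne _), ← norm_mul, ← map_mul, h1, map_pow, map_natCast, norm_pow,
        Real.log_pow]
      push_cast
      ring
    unfold Pool.Agent.R937.VS.slope
    rw [hlq, ← add_div, h2]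
    field_simp
    have h5 := lp_ne (p := p)
    field_simp
  refine ⟨y, f, hy, hnum, ?_, ?_, ?_, ?_, ?_⟩
  · rintro d ⟨τ, hτ⟩ σ
    have h1 : (f (d * σ) : ℝ) = (f σ : ℝ) := by
      rw [hf, hf]
      congr 2
      unfold Pool.Agent.R937.VS.slope
      congr 2
      have h2 : j ((d * σ) y) = ν (τ (ν.symm (j (σ y)))) := hτ (σ y)
      rw [h2, RingEquiv.symm_apply_apply, norm_aut]
    exact_mod_cast h1
  · intro σ
    have h1 : (f (cc L * σ) : ℝ) = -(f σ : ℝ) := by
      rw [hf, hf]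
      have := hcc σ
      linarith
    exact_mod_cast h1
  · refine ⟨MulAction.stabilizer (L ≃ₐ[ℚ] L) y, ?_, ?_⟩
    · rw [index_stab, hmin]
      exact (minpoly.natDegree_le x).trans hdeg
    · intro σ τ hτ
      have h1 : (f (σ * τ) : ℝ) = (f σ : ℝ) := by
        rw [hf, hf]
        have h2 : (σ * τ) y = σ y := by
          change σ (τ y) = σ y
          rw [show τ y = y from hτ]
        rw [h2]
      exact_mod_cast h1
  · intro σ
    refine ⟨2 * z σ - Nat.factorial n * b, ?_⟩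
    have h1 : ((Nat.factorial n : ℕ) : ℚ) ≠ 0 := by
      exact_mod_cast (Nat.factorial_pos n).ne'
    change ((Nat.factorial n : ℕ) : ℚ) * (2 * (z σ / Nat.factorial n) - b) = _
    push_cast
    field_simp
  · intro σ
    have h1 : |(f σ : ℝ)| ≤ n := by
      rw [hf, abs_le]
      have h2 := hcc σ
      have h3 := hnonneg σ
      have h4 := hnonneg (cc L * σ)
      have h5 : (b : ℝ) ≤ n := by exact_mod_cast hb
      constructor <;> linarith
    exact_mod_cast h1

end

end Pool.Agent.R937.BR
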