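import Mathlib

/-!
# The decomposition of the functions on a finite group according to the normal subgroups
-/

set_option autoImplicit false
set_option linter.unusedSectionVars false
set_option linter.unusedVariables false

namespace Pool.Agent.R937.BR

open Finset

noncomputable section

/-- The sum of a function that is invariant under a subgroup is divisible by its order. -/
theorem dvd_sum {A : Type} [Group A] [Fintype A] (A' : Subgroup A) (F : A → ℤ)
    (hF : ∀ a, ∀ a' ∈ A', F (a * a') = F a) : (Nat.card A' : ℤ) ∣ ∑ a, F a := by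
  classical
  rw [← Finset.sum_fiberwise (s := Finset.univ) (g := fun a : A => (a : A ⧸ A')) (f := F)]
  refine Finset.dvd_sum fun q _ => ?_
  obtain ⟨a0, rfl⟩ := QuotientGroup.mk_surjective q
  have h1 : ∀ a ∈ Finset.univ.filter fun a : A => (a : A ⧸ A') = (a0 : A ⧸ A'), F a = F a0 := by
    intro a ha
    have h2 := (Finset.mem_filter.1 ha).2
    have h3 : a0⁻¹ * a ∈ A' := QuotientGroup.eq.1 h2.symm
    have h4 := hF a0 _ h3
    rwa [mul_inv_cancel_left] at h4
  rw [Finset.sum_congr rfl h1, Finset.sum_const, nsmul_eq_mul]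
  have h5 : (Finset.univ.filter fun a : A => (a : A ⧸ A') = (a0 : A ⧸ A')).card = Nat.card A' := by
    rw [Nat.card_eq_fintype_card, ← Fintype.card_subtype]
    refine Fintype.card_congr
      { toFun := fun a => ⟨a0⁻¹ * a.1, QuotientGroup.eq.1 a.2.symm⟩
        invFun := fun a' => ⟨a0 * a'.1, by
          refine (QuotientGroup.eq.2 ?_).symm
          rw [inv_mul_cancel_left]
          exact a'.2⟩
        left_inv := fun a => Subtype.ext (mul_inv_cancel_left _ _)
        right_inv := fun a' => Subtype.ext (inv_mul_cancel_left _ _) }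
  rw [h5]
  exact dvd_mul_right _ _

variable {G : Type} [Group G] [Fintype G]

open Classical in
/-- The mean value over the cosets of a subgroup. -/
def P (N : Subgroup G) (f : G → ℚ) : G → ℚ := fun g => (∑ n : N, f (g * n)) / Nat.card N

theorem P_add (N : Subgroup G) (f f' : G → ℚ) : P N (f + f') = P N f + P N f' := by
  classical
  funext g
  unfold P
  rw [Pi.add_apply, ← add_div, ← Finset.sum_add_distrib]
  rfl

theorem P_zero (N : Subgroup G) : P N (0 : G → ℚ) = 0 := by
  classical
  funext g
  unfold P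
  simp

theorem card_pos (N : Subgroup G) : (0 : ℚ) < Nat.card N := by
  exact_mod_cast Nat.card_pos

theorem P_right (N : Subgroup G) (f : G → ℚ) {n : G} (hn : n ∈ N) (g : G) :
    P N f (g * n) = P N f g := by
  classical
  unfold P
  congr 1
  rw [← Equiv.sum_comp (Equiv.mulLeft (⟨n, hn⟩ : N)) fun m : N => f (g * m)]
  refine Finset.sum_congr rfl fun m _ => ?_
  rw [Equiv.coe_mulLeft, Subgroup.coe_mul, mul_assoc]

theorem P_of_inv (N : Subgroup G) (f : G → ℚ) (hf : ∀ g, ∀ n ∈ N, f (g * n) = f g) : P N f = f := by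
  classical
  funext g
  unfold P
  rw [Finset.sum_congr rfl fun (n : N) _ => hf g n n.2, Finset.sum_const, Finset.card_univ,
    nsmul_eq_mul, ← Nat.card_eq_fintype_card, mul_div_cancel_left₀ _ (card_pos N).ne']

theorem P_left (N : Subgroup G) (f : G → ℚ) (d : G) (hf : ∀ g, f (d * g) = f g) (g : G) :
    P N f (d * g) = P N f g := by
  classical
  unfold P
  congr 1
  exact Finset.sum_congr rfl fun n _ => by rw [mul_assoc, hf]

theorem P_odd (N : Subgroup G) (f : G → ℚ) (c : G) (hf : ∀ g, f (c * g) = -f g) (g : G) :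
    P N f (c * g) = -P N f g := by
  classical
  unfold P
  rw [← neg_div, ← Finset.sum_neg_distrib]
  congr 1
  exact Finset.sum_congr rfl fun n _ => by rw [mul_assoc, hf]

theorem P_normal (N : Subgroup G) [N.Normal] (f : G → ℚ) (x : G) (hf : ∀ g, f (g * x) = f g)
    (g : G) : P N f (g * x) = P N f g := by
  classical
  unfold P
  congr 1
  rw [← Equiv.sum_comp (MulAut.conjNormal x⁻¹ : MulAut N).toEquiv fun m : N => f (g * x * m)]
  refine Finset.sum_congr rfl fun m _ => ?_
  have h1 : (((MulAut.conjNormal x⁻¹ : MulAut N).toEquiv m : N) : G) = x⁻¹ * m * x := by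
    change (((MulAut.conjNormal x⁻¹ : MulAut N) m : N) : G) = _
    rw [MulAut.conjNormal_apply, inv_inv]
  rw [h1]
  have h2 : g * x * (x⁻¹ * m * x) = g * m * x := by group
  rw [h2, hf]

theorem P_le (N K : Subgroup G) (h : N ≤ K) (f : G → ℚ) : P K (P N f) = P K f := by
  classical
  funext g
  unfold P
  rw [← Finset.sum_div, Finset.sum_comm]
  have h1 : ∀ n : N, ∑ k : K, f (g * k * n) = ∑ k : K, f (g * k) := by
    intro n
    rw [← Equiv.sum_comp (Equiv.mulRight (⟨n, h n.2⟩ : K)) fun k : K => f (g * k)]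
    refine Finset.sum_congr rfl fun k _ => ?_
    rw [Equiv.coe_mulRight, Subgroup.coe_mul, mul_assoc]
  rw [Finset.sum_congr rfl fun n _ => h1 n, Finset.sum_const, Finset.card_univ, nsmul_eq_mul,
    ← Nat.card_eq_fintype_card, mul_div_cancel_left₀ _ (card_pos N).ne']

theorem P_comp (N K : Subgroup G) [N.Normal] [K.Normal] (f : G → ℚ) :
    P N (P K f) = P (N ⊔ K) f := by
  have h1 : P (N ⊔ K) (P N (P K f)) = P (N ⊔ K) f := by
    rw [P_le N _ le_sup_left, P_le K _ le_sup_right]
  rw [← h1]
  symm
  refine P_of_inv _ _ fun g x hx => ?_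
  obtain ⟨a, ha, b, hb, rfl⟩ := Subgroup.mem_sup_of_normal_left.1 hx
  rw [← mul_assoc, P_normal N (P K f) b (fun g => P_right K f hb g), P_right N _ ha]

theorem abs_P_le (N : Subgroup G) (f : G → ℚ) (b : ℚ) (hf : ∀ g, |f g| ≤ b) (g : G) :
    |P N f g| ≤ b := by
  classical
  unfold P
  rw [abs_div, abs_of_pos (card_pos N), div_le_iff₀ (card_pos N)]
  refine (Finset.abs_sum_le_sum_abs _ _).trans ?_
  refine (Finset.sum_le_sum fun n _ => hf _).trans (le_of_eq ?_)
  rw [Finset.sum_const, Finset.card_univ, nsmul_eq_mul, ← Nat.card_eq_fintype_card, mul_comm]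

/-- The normal subgroups. -/
abbrev NS (G : Type) [Group G] : Type := {N : Subgroup G // N.Normal}

instance : Finite (NS G) := Subtype.finite
instance (N : NS G) : N.1.Normal := N.2
instance : Fintype (NS G) := Fintype.ofFinite _
instance : WellFoundedRelation (NS G) := ⟨fun a b => b < a, wellFounded_gt⟩

open Classical in
/-- The projections. -/
def Q (N : NS G) (f : G → ℚ) : G → ℚ :=
  P N.1 f - ∑ N' : {N' : NS G // N < N'}, Q N'.1 f
termination_by N
decreasing_by exact N'.2

open Classical in
theorem Q_eq (N : NS G) (f : G → ℚ) :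
    Q N f = P N.1 f - ∑ N' with N < N', Q N' f := by
  rw [Q]
  congr 1
  symm
  exact Finset.sum_subtype _ (fun N' => by simp) _

open Classical in
theorem P_eq (N : NS G) (f : G → ℚ) : P N.1 f = ∑ N' with N ≤ N', Q N' f := by
  have h1 : (Finset.univ.filter fun N' : NS G => N ≤ N') =
      insert N (Finset.univ.filter fun N' : NS G => N < N') := by
    ext N'
    simp only [Finset.mem_filter, Finset.mem_univ, true_and, Finset.mem_insert]
    rw [le_iff_eq_or_lt, eq_comm]
  rw [h1, Finset.sum_insert (by simp), Q_eq N f, sub_add_cancel]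

/-- Subgroups of the additive group of functions that contain the mean values. -/
theorem Q_mem (V : AddSubgroup (G → ℚ)) (f : G → ℚ) (N : NS G)
    (h : ∀ N' : NS G, N ≤ N' → P N'.1 f ∈ V) : Q N f ∈ V := by
  classical
  induction N using WellFoundedGT.induction with
  | _ N ih =>
    rw [Q_eq]
    refine V.sub_mem (h N le_rfl) (V.sum_mem fun N' hN' => ?_)
    have h1 : N < N' := (Finset.mem_filter.1 hN').2
    exact ih N' h1 fun N'' h2 => h N'' (h1.le.trans h2)

theorem Q_add (N : NS G) (f f' : G → ℚ) : Q N (f + f') = Q N f + Q N f' := by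
  classical
  induction N using WellFoundedGT.induction with
  | _ N ih =>
    have h1 : ∀ N' ∈ Finset.univ.filter fun N' : NS G => N < N', Q N' (f + f') =
        Q N' f + Q N' f' := fun N' hN' => ih N' (Finset.mem_filter.1 hN').2
    rw [Q_eq, Q_eq N f, Q_eq N f', P_add, Finset.sum_congr rfl h1, Finset.sum_add_distrib]
    abel

theorem Q_zero (N : NS G) : Q N (0 : G → ℚ) = 0 := by
  have h1 := Q_add N 0 0
  rw [add_zero] at h1
  exact (add_eq_left.1 h1.symm)

theorem Q_sum {ι : Type} (s : Finset ι) (N : NS G) (f : ι → G → ℚ) :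
    Q N (∑ i ∈ s, f i) = ∑ i ∈ s, Q N (f i) := by
  classical
  induction s using Finset.induction_on with
  | empty => rw [Finset.sum_empty, Finset.sum_empty, Q_zero]
  | insert a s ha ih => rw [Finset.sum_insert ha, Finset.sum_insert ha, Q_add, ih]

/-- The projections and the mean values. -/
theorem Q_P (N K : NS G) (f : G → ℚ) (h : ¬ K ≤ N) : Q N (P K.1 f) = 0 := by
  classical
  induction N using WellFoundedGT.induction with
  | _ N ih =>
    let S : NS G := ⟨N.1 ⊔ K.1, inferInstance⟩
    have hNS : N ≤ S := (le_sup_left : N.1 ≤ N.1 ⊔ K.1)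
    have hKS : K ≤ S := (le_sup_right : K.1 ≤ N.1 ⊔ K.1)
    have h2 : ∀ N', S ≤ N' → Q N' (P K.1 f) = Q N' f := by
      intro N' hN'
      induction N' using WellFoundedGT.induction with
      | _ N' ih' =>
        rw [Q_eq, Q_eq N' f, P_comp]
        congr 1
        · have h3 : N'.1 ⊔ K.1 = N'.1 := sup_eq_left.2 (hKS.trans hN')
          rw [h3]
        · refine Finset.sum_congr rfl fun N'' hN'' => ?_
          have h4 : N' < N'' := (Finset.mem_filter.1 hN'').2
          exact ih' N'' h4 (hN'.trans h4.le)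
    rw [Q_eq, P_comp]
    have h3 : P (N.1 ⊔ K.1) f = ∑ N' with S ≤ N', Q N' f := P_eq S f
    rw [h3]
    have h4 : (Finset.univ.filter fun N' : NS G => S ≤ N') ⊆
        (Finset.univ.filter fun N' : NS G => N < N') := by
      intro N' hN'
      rw [Finset.mem_filter] at hN' ⊢
      refine ⟨Finset.mem_univ _, lt_of_le_of_ne (hNS.trans hN'.2) fun he => ?_⟩
      subst he
      exact h (hKS.trans hN'.2)
    rw [← Finset.sum_subset h4]
    · rw [sub_eq_zero]
      exact Finset.sum_congr rfl fun N' hN' => (h2 N' (Finset.mem_filter.1 hN').2).symm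
    · intro N' h5 h6
      have h7 : N < N' := (Finset.mem_filter.1 h5).2
      refine ih N' h7 fun h8 => h6 ?_
      rw [Finset.mem_filter]
      exact ⟨Finset.mem_univ _, (sup_le h7.le h8 : N.1 ⊔ K.1 ≤ N'.1)⟩

/-- The components of a function that is invariant under `K`. -/
theorem Q_eq_zero (N K : NS G) (f : G → ℚ) (hf : ∀ g, ∀ k ∈ K.1, f (g * k) = f g)
    (h : ¬ K ≤ N) : Q N f = 0 := by
  rw [← P_of_inv K.1 f hf]
  exact Q_P N K f h

open Classical in
theorem eq_sum_Q (K : NS G) (f : G → ℚ) (hf : ∀ g, ∀ k ∈ K.1, f (g * k) = f g) :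
    f = ∑ N with K ≤ N, Q N f := by
  rw [← P_eq, P_of_inv K.1 f hf]

theorem Q_right (N : NS G) (f : G → ℚ) {n : G} (hn : n ∈ N.1) (g : G) :
    Q N f (g * n) = Q N f g := by
  let V : AddSubgroup (G → ℚ) :=
    { carrier := {f | ∀ g, f (g * n) = f g}
      add_mem' := fun {a b} ha hb g => by
        change a (g * n) + b (g * n) = a g + b g
        rw [ha, hb]
      zero_mem' := fun g => rfl
      neg_mem' := fun {a} ha g => by
        change -a (g * n) = -a g
        rw [ha] }
  exact Q_mem V f N (fun N' hN' g => P_right N'.1 f (hN' hn) g) g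

theorem Q_left (N : NS G) (f : G → ℚ) (d : G) (hf : ∀ g, f (d * g) = f g) (g : G) :
    Q N f (d * g) = Q N f g := by
  let V : AddSubgroup (G → ℚ) :=
    { carrier := {f | ∀ g, f (d * g) = f g}
      add_mem' := fun {a b} ha hb g => by
        change a (d * g) + b (d * g) = a g + b g
        rw [ha, hb]
      zero_mem' := fun g => rfl
      neg_mem' := fun {a} ha g => by
        change -a (d * g) = -a g
        rw [ha] }
  exact Q_mem V f N (fun N' hN' g => P_left N'.1 f d hf g) g

theorem Q_odd (N : NS G) (f : G → ℚ) (c : G) (hf : ∀ g, f (c * g) = -f g) (g : G) :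
    Q N f (c * g) = -Q N f g := by
  let V : AddSubgroup (G → ℚ) :=
    { carrier := {f | ∀ g, f (c * g) = -f g}
      add_mem' := fun {a b} ha hb g => by
        change a (c * g) + b (c * g) = -(a g + b g)
        rw [ha, hb]
        ring
      zero_mem' := fun g => by
        change (0 : ℚ) = -0
        rw [neg_zero]
      neg_mem' := fun {a} ha g => by
        change -a (c * g) = -(-a g)
        rw [ha] }
  exact Q_mem V f N (fun N' hN' g => P_odd N'.1 f c hf g) g

/-- Components for normal subgroups that contain `c` vanish. -/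
theorem Q_c (N : NS G) (f : G → ℚ) (c : G) (hcomm : ∀ g, c * g = g * c)
    (hf : ∀ g, f (c * g) = -f g) (hc : c ∈ N.1) : Q N f = 0 := by
  funext g
  have h1 := Q_odd N f c hf g
  rw [hcomm, Q_right N f hc] at h1
  have h2 : Q N f g = 0 := by linarith
  exact h2

/-- The mean values of functions with bounded denominators. -/
theorem P_int (N K : Subgroup G) (hKN : K ≤ N) (f : G → ℚ) (hf : ∀ g, ∀ k ∈ K, f (g * k) = f g)
    (m X : ℕ) (hX : K.relIndex N ∣ X) (hm : ∀ g, ∃ z : ℤ, m * f g = z) (g : G) :
    ∃ z : ℤ, ((m * X : ℕ) : ℚ) * P N f g = z := by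
  classical
  choose z hz using hm
  have h1 : (Nat.card (K.subgroupOf N) : ℤ) ∣ ∑ n : N, z (g * n) := by
    refine dvd_sum (K.subgroupOf N) (fun n : N => z (g * n)) fun a a' ha' => ?_
    have h2 : f (g * (a * a' : N)) = f (g * a) := by
      rw [Subgroup.coe_mul, ← mul_assoc]
      exact hf _ _ (Subgroup.mem_subgroupOf.1 ha')
    have h3 : ((z (g * (a * a' : N)) : ℤ) : ℚ) = z (g * a) := by rw [← hz, ← hz, h2]
    exact_mod_cast h3
  obtain ⟨y, hy⟩ := h1
  obtain ⟨x, hx⟩ := hX
  refine ⟨x * y, ?_⟩
  have h4 : (m : ℚ) * ∑ n : N, f (g * n) = ((Nat.card (K.subgroupOf N) : ℤ) * y : ℤ) := by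
    rw [← hy, Finset.mul_sum]
    push_cast
    exact Finset.sum_congr rfl fun n _ => hz _
  have h5 : Nat.card N = Nat.card (K.subgroupOf N) * K.relIndex N := by
    rw [Subgroup.relIndex, Subgroup.card_mul_index]
  have h6 : (0 : ℚ) < Nat.card (K.subgroupOf N) := by exact_mod_cast Nat.card_pos
  have h7 := card_pos N
  unfold P
  rw [hx]
  have h8 : ((m * (K.relIndex N * x) : ℕ) : ℚ) * ((∑ n : N, f (g * n)) / Nat.card N) =
      (m * ∑ n : N, f (g * n)) * (K.relIndex N * x) / Nat.card N := by
    push_cast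
    ring
  rw [h8, h4, div_eq_iff h7.ne', h5]
  push_cast
  ring

theorem Q_int (N K : NS G) (hKN : K ≤ N) (f : G → ℚ) (hf : ∀ g, ∀ k ∈ K.1, f (g * k) = f g)
    (m X : ℕ) (hX : ∀ N' : NS G, K ≤ N' → K.1.relIndex N'.1 ∣ X)
    (hm : ∀ g, ∃ z : ℤ, m * f g = z) (g : G) :
    ∃ z : ℤ, ((m * X : ℕ) : ℚ) * Q N f g = z := by
  let V : AddSubgroup (G → ℚ) :=
    { carrier := {f | ∀ g, ∃ z : ℤ, ((m * X : ℕ) : ℚ) * f g = z}
      add_mem' := fun {a b} ha hb g => by
        obtain ⟨z, hz⟩ := ha g
        obtain ⟨z', hz'⟩ := hb g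
        refine ⟨z + z', ?_⟩
        rw [Pi.add_apply, mul_add, hz, hz']
        push_cast
        rfl
      zero_mem' := fun g => ⟨0, by rw [Pi.zero_apply, mul_zero, Int.cast_zero]⟩
      neg_mem' := fun {a} ha g => by
        obtain ⟨z, hz⟩ := ha g
        refine ⟨-z, ?_⟩
        rw [Pi.neg_apply, mul_neg, hz]
        push_cast
        rfl }
  exact Q_mem V f N (fun N' hN' g => P_int N'.1 K.1 (hKN.trans hN') f hf m X
    (hX N' (hKN.trans hN')) hm g) g

open Classical in
/-- A bound for the components. -/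
theorem abs_Q_le (N : NS G) (f : G → ℚ) (b : ℚ) (hf : ∀ g, |f g| ≤ b) (g : G) :
    |Q N f g| ≤ b * ((Finset.univ.filter fun N' : NS G => N ≤ N').card).factorial := by
  have hb : 0 ≤ b := (abs_nonneg _).trans (hf 1)
  induction N using WellFoundedGT.induction with
  | _ N ih =>
    set U : Finset (NS G) := Finset.univ.filter fun N' : NS G => N ≤ N' with hU
    set U' : Finset (NS G) := Finset.univ.filter fun N' : NS G => N < N' with hU'
    have hUU : U = insert N U' := by
      ext N'
      simp only [hU, hU', Finset.mem_filter, Finset.mem_univ, true_and, Finset.mem_insert]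
      rw [le_iff_eq_or_lt, eq_comm]
    have hN : N ∉ U' := by simp [hU']
    have hcard : U.card = U'.card + 1 := by rw [hUU, Finset.card_insert_of_notMem hN]
    have h1 : ∀ N' ∈ U', |Q N' f g| ≤ b * (U'.card).factorial := by
      intro N' hN'
      have h2 : N < N' := (Finset.mem_filter.1 hN').2
      refine (ih N' h2).trans (mul_le_mul_of_nonneg_left ?_ hb)
      have h3 : (Finset.univ.filter fun N'' : NS G => N' ≤ N'') ⊆ U' := by
        intro N'' h4
        rw [Finset.mem_filter] at h4
        rw [hU', Finset.mem_filter]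
        exact ⟨Finset.mem_univ _, h2.trans_le h4.2⟩
      exact_mod_cast Nat.factorial_le (Finset.card_le_card h3)
    rw [Q_eq, hcard, Nat.factorial_succ]
    have h2 : |∑ N' ∈ U', Q N' f g| ≤ U'.card * (b * (U'.card).factorial) := by
      refine (Finset.abs_sum_le_sum_abs _ _).trans ((Finset.sum_le_sum h1).trans (le_of_eq ?_))
      rw [Finset.sum_const, nsmul_eq_mul]
    have h3 := abs_P_le N.1 f b hf g
    have h4 : |(P N.1 f - ∑ N' ∈ U', Q N' f) g| ≤ |P N.1 f g| + |∑ N' ∈ U', Q N' f g| := by
      rw [Pi.sub_apply, Finset.sum_apply]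
      exact abs_sub _ _
    have h5 : (1 : ℚ) ≤ (U'.card).factorial := by exact_mod_cast Nat.factorial_pos _
    refine h4.trans ?_
    push_cast
    nlinarith

end

end Pool.Agent.R937.BR
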