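import Mathlib

/-!
# Totally real polynomials that are irreducible modulo `p`
-/

set_option autoImplicit false
set_option linter.unusedSectionVars false
set_option linter.unusedVariables false

namespace Pool.Agent.R937.BR

open Polynomial Filter Topology

noncomputable section

/-- An irreducible polynomial of given degree over the field with `p` elements. -/
theorem exists_irreducible_mod (p : ℕ) [Fact p.Prime] (q : ℕ) (hq : 0 < q) :
    ∃ h : (ZMod p)[X], h.Monic ∧ Irreducible h ∧ h.natDegree = q := by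
  obtain ⟨α, hα⟩ := Field.exists_primitive_element (ZMod p) (GaloisField p q)
  have hint : IsIntegral (ZMod p) α := Algebra.IsIntegral.isIntegral α
  refine ⟨minpoly (ZMod p) α, minpoly.monic hint, minpoly.irreducible hint, ?_⟩
  rw [← IntermediateField.adjoin.finrank hint, hα, IntermediateField.finrank_top',
    GaloisField.finrank p hq.ne']

/-- The product of the linear factors. -/
def lin (R : Type) [CommRing R] (q : ℕ) (T : R) : R[X] := ∏ i ∈ Finset.range q, (X - C ((i : R) * T))

theorem lin_monic (R : Type) [CommRing R] (q : ℕ) (T : R) : (lin R q T).Monic :=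
  monic_prod_of_monic _ _ fun i _ => monic_X_sub_C _

theorem lin_degree (R : Type) [CommRing R] [Nontrivial R] (q : ℕ) (T : R) :
    (lin R q T).natDegree = q := by
  unfold lin
  rw [natDegree_prod_of_monic _ _ fun i _ => monic_X_sub_C _,
    Finset.sum_congr rfl fun i _ => natDegree_X_sub_C _, Finset.sum_const, Finset.card_range,
    smul_eq_mul, mul_one]

theorem lin_map {R S : Type} [CommRing R] [CommRing S] (φ : R →+* S) (q : ℕ) (T : R) :
    (lin R q T).map φ = lin S q (φ T) := by
  unfold lin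
  rw [Polynomial.map_prod]
  refine Finset.prod_congr rfl fun i _ => ?_
  rw [Polynomial.map_sub, map_X, map_C, map_mul, map_natCast]

theorem lin_zero (R : Type) [CommRing R] (q : ℕ) : lin R q 0 = X ^ q := by
  unfold lin
  simp

/-- The value at a half integral multiple. -/
theorem lin_eval (q : ℕ) (T : ℝ) (k : ℕ) :
    (lin ℝ q T).eval (((k : ℝ) - 1 / 2) * T) =
      T ^ q * ∏ i ∈ Finset.range q, ((k : ℝ) - 1 / 2 - i) := by
  unfold lin
  rw [eval_prod]
  have h1 : ∀ i ∈ Finset.range q, (X - C ((i : ℝ) * T) : ℝ[X]).eval (((k : ℝ) - 1 / 2) * T) =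
      T * ((k : ℝ) - 1 / 2 - i) := by
    intro i _
    rw [eval_sub, eval_X, eval_C]
    ring
  rw [Finset.prod_congr rfl h1, Finset.prod_mul_distrib, Finset.prod_const, Finset.card_range]

/-- The sign of the product. -/
theorem sign_prod (q k : ℕ) (hk : k ≤ q) :
    0 < (-1 : ℝ) ^ (q - k) * ∏ i ∈ Finset.range q, ((k : ℝ) - 1 / 2 - i) := by
  obtain ⟨m, rfl⟩ := Nat.exists_eq_add_of_le hk
  rw [Finset.prod_range_add, Nat.add_sub_cancel_left]
  have h1 : 0 < ∏ i ∈ Finset.range k, ((k : ℝ) - 1 / 2 - i) := by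
    refine Finset.prod_pos fun i hi => ?_
    have h2 : (i : ℝ) + 1 ≤ k := by exact_mod_cast Finset.mem_range.1 hi
    linarith
  have h2 : 0 < (-1 : ℝ) ^ m * ∏ i ∈ Finset.range m, ((k : ℝ) - 1 / 2 - ((k + i : ℕ) : ℝ)) := by
    have h3 : (-1 : ℝ) ^ m * ∏ i ∈ Finset.range m, ((k : ℝ) - 1 / 2 - ((k + i : ℕ) : ℝ)) =
        ∏ i ∈ Finset.range m, ((i : ℝ) + 1 / 2) := by
      have h4 : (-1 : ℝ) ^ m = ∏ i ∈ Finset.range m, (-1 : ℝ) := by
        rw [Finset.prod_const, Finset.card_range]
      rw [h4, ← Finset.prod_mul_distrib]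
      refine Finset.prod_congr rfl fun i _ => ?_
      push_cast
      ring
    rw [h3]
    refine Finset.prod_pos fun i _ => ?_
    positivity
  nlinarith [mul_pos h1 h2]

/-- The remainder is small. -/
theorem small_eval (q : ℕ) (r : ℝ[X]) (hr : r.degree < q) (a : ℝ) :
    Tendsto (fun T : ℝ => r.eval (a * T) / T ^ q) atTop (𝓝 0) := by
  have h1 : (fun T : ℝ => r.eval (a * T) / T ^ q) =
      fun T : ℝ => ∑ i ∈ Finset.range (r.natDegree + 1), r.coeff i * a ^ i * (T ^ i / T ^ q) := by
    funext T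
    rw [eval_eq_sum_range, Finset.sum_div]
    refine Finset.sum_congr rfl fun i _ => ?_
    rw [mul_pow]
    ring
  rw [h1]
  have h2 : ∀ i ∈ Finset.range (r.natDegree + 1),
      Tendsto (fun T : ℝ => r.coeff i * a ^ i * (T ^ i / T ^ q)) atTop (𝓝 0) := by
    intro i _
    by_cases h : i < q
    · have h3 := (tendsto_pow_div_pow_atTop_zero (𝕜 := ℝ) h).const_mul (r.coeff i * a ^ i)
      rwa [mul_zero] at h3
    · have h3 : r.coeff i = 0 := by
        refine coeff_eq_zero_of_degree_lt (hr.trans_le ?_)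
        exact_mod_cast not_lt.1 h
      simp only [h3, zero_mul]
      exact tendsto_const_nhds
  have h3 := tendsto_finsetSum _ h2
  rwa [Finset.sum_const_zero] at h3

/-- A real polynomial with alternating signs. -/
theorem real_roots (q : ℕ) (f : ℝ[X]) (hf : f.natDegree = q) (hm : f.Monic) (T : ℝ) (hT : 0 < T)
    (hs : ∀ k ≤ q, 0 < (-1 : ℝ) ^ (q - k) * f.eval (((k : ℝ) - 1 / 2) * T)) (z : ℂ)
    (hz : (f.map Complex.ofRealHom).IsRoot z) : ∃ x : ℝ, z = x := by
  classical
  let y : ℕ → ℝ := fun k => ((k : ℝ) - 1 / 2) * T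
  have hy : ∀ a b : ℕ, a ≤ b → y a ≤ y b := by
    intro a b hab
    have h1 : (a : ℝ) ≤ b := by exact_mod_cast hab
    exact mul_le_mul_of_nonneg_right (by linarith) hT.le
  have hroot : ∀ k : Fin q, ∃ x : ℝ, y k < x ∧ x < y (k + 1) ∧ f.IsRoot x := by
    intro k
    have hk : (k : ℕ) + 1 ≤ q := k.2
    have h1 := hs k (by omega)
    have h2 := hs (k + 1) hk
    have h3 : q - (k : ℕ) = (q - ((k : ℕ) + 1)) + 1 := by omega
    rw [h3, pow_succ] at h1
    have h4 : f.eval (y k) * f.eval (y (k + 1)) < 0 := by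
      have h5 := mul_pos h1 h2
      have h6 : ((-1 : ℝ) ^ (q - ((k : ℕ) + 1))) ^ 2 = 1 := by
        rw [← pow_mul, mul_comm, pow_mul]
        norm_num
      have h7 : (-1 : ℝ) ^ (q - ((k : ℕ) + 1)) * -1 * f.eval (((k : ℕ) - 1 / 2) * T) *
          ((-1) ^ (q - ((k : ℕ) + 1)) * f.eval ((((k : ℕ) + 1 : ℕ) - 1 / 2) * T)) =
          -(((-1 : ℝ) ^ (q - ((k : ℕ) + 1))) ^ 2) * (f.eval (y k) * f.eval (y (k + 1))) := by
        change _ = -(((-1 : ℝ) ^ (q - ((k : ℕ) + 1))) ^ 2) *
          (f.eval (((k : ℕ) - 1 / 2) * T) * f.eval ((((k : ℕ) + 1 : ℕ) - 1 / 2) * T))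
        ring
      rw [h7, h6] at h5
      linarith
    have h5 : (0 : ℝ) ∈ Set.uIcc (f.eval (y k)) (f.eval (y (k + 1))) := by
      rw [Set.mem_uIcc]
      rcases lt_or_ge (f.eval (y k)) 0 with h | h
      · left
        exact ⟨h.le, by nlinarith⟩
      · right
        exact ⟨by nlinarith, h⟩
    obtain ⟨x, hx, hx0⟩ := intermediate_value_uIcc (f.continuous.continuousOn) h5
    rw [Set.uIcc_of_le (hy k (k + 1) (by omega))] at hx
    have hx0' : f.eval x = 0 := hx0
    have h6 : x ≠ y k := by
      rintro rfl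
      rw [hx0', zero_mul] at h4
      exact lt_irrefl _ h4
    have h7 : x ≠ y (k + 1) := by
      rintro rfl
      rw [hx0', mul_zero] at h4
      exact lt_irrefl _ h4
    exact ⟨x, lt_of_le_of_ne hx.1 h6.symm, lt_of_le_of_ne hx.2 h7, hx0⟩
  choose x hx1 hx2 hx3 using hroot
  have hinj : Function.Injective x := by
    intro a b hab
    rcases lt_trichotomy a b with h | h | h
    · exfalso
      have h1 : y ((a : ℕ) + 1) ≤ y b := hy _ _ h
      have := hx2 a
      have := hx1 b
      rw [hab] at *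
      linarith
    · exact h
    · exfalso
      have h1 : y ((b : ℕ) + 1) ≤ y a := hy _ _ h
      have := hx2 b
      have := hx1 a
      rw [hab] at *
      linarith
  let F : ℂ[X] := f.map Complex.ofRealHom
  have hF0 : F ≠ 0 := (hm.map _).ne_zero
  have hFd : F.natDegree = q := by
    rw [(hm.natDegree_map Complex.ofRealHom), hf]
  let S : Finset ℂ := Finset.univ.image fun k : Fin q => ((x k : ℝ) : ℂ)
  have hS : S.card = q := by
    rw [Finset.card_image_of_injective, Finset.card_univ, Fintype.card_fin]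
    intro a b h
    exact hinj (Complex.ofReal_injective h)
  have hSF : S ⊆ F.roots.toFinset := by
    intro w hw
    obtain ⟨k, -, rfl⟩ := Finset.mem_image.1 hw
    rw [Multiset.mem_toFinset, mem_roots hF0]
    have h1 : (f.map Complex.ofRealHom).eval (Complex.ofRealHom (x k)) =
        Complex.ofRealHom (f.eval (x k)) := eval_map_apply _ _
    change (f.map Complex.ofRealHom).eval (Complex.ofRealHom (x k)) = 0
    rw [h1, hx3 k, map_zero]
  have h1 : F.roots.toFinset.card ≤ S.card := by
    rw [hS, ← hFd]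
    exact (Multiset.toFinset_card_le _).trans (card_roots' F)
  have h2 := Finset.eq_of_subset_of_card_le hSF h1
  have h3 : z ∈ S := by
    rw [h2, Multiset.mem_toFinset, mem_roots hF0]
    exact hz
  obtain ⟨k, -, rfl⟩ := Finset.mem_image.1 h3
  exact ⟨x k, rfl⟩

/-- **Totally real polynomials that are irreducible modulo `p`.** -/
theorem exists_poly (p : ℕ) [Fact p.Prime] (q : ℕ) (hq : 0 < q) :
    ∃ f : ℤ[X], f.Monic ∧ f.natDegree = q ∧ Irreducible (f.map (Int.castRingHom (ZMod p))) ∧
      ∀ z : ℂ, (f.map (Int.castRingHom ℂ)).IsRoot z → ∃ x : ℝ, z = x := by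
  obtain ⟨h, hm, hirr, hdeg⟩ := exists_irreducible_mod p q hq
  obtain ⟨h', hh', hd', hm'⟩ := lifts_and_natDegree_eq_and_monic (f := Int.castRingHom (ZMod p))
    ((mem_lifts _).2 (map_surjective _ (ZMod.ringHom_surjective _) h)) hm
  rw [hdeg] at hd'
  let r : ℤ[X] := h' - X ^ q
  have hr : r.degree < q := by
    have h1 : h'.degree = q := by rw [degree_eq_natDegree hm'.ne_zero, hd']
    rw [← h1]
    refine degree_sub_lt ?_ hm'.ne_zero ?_
    · rw [h1, degree_X_pow]
    · rw [hm'.leadingCoeff, leadingCoeff_X_pow]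
  have hrR : (r.map (Int.castRingHom ℝ)).degree < q := (degree_map_le).trans_lt hr
  -- the choice of the parameter
  have hev : ∀ k ∈ Finset.range (q + 1), ∀ᶠ T : ℝ in atTop,
      0 < (-1 : ℝ) ^ (q - k) * ((∏ i ∈ Finset.range q, ((k : ℝ) - 1 / 2 - i)) +
        (r.map (Int.castRingHom ℝ)).eval (((k : ℝ) - 1 / 2) * T) / T ^ q) := by
    intro k hk
    have hk' : k ≤ q := by
      have := Finset.mem_range.1 hk
      omega
    have h1 := ((small_eval q _ hrR ((k : ℝ) - 1 / 2)).const_add
      (∏ i ∈ Finset.range q, ((k : ℝ) - 1 / 2 - i))).const_mul ((-1 : ℝ) ^ (q - k))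
    rw [add_zero] at h1
    exact h1.eventually_const_lt (sign_prod q k hk')
  have hev2 := (eventually_all_finset (Finset.range (q + 1))).2 hev
  have hp : (0 : ℝ) < p := by exact_mod_cast (Fact.out : p.Prime).pos
  have htend : Tendsto (fun t : ℕ => (p : ℝ) * (t : ℝ)) atTop atTop :=
    Tendsto.const_mul_atTop hp tendsto_natCast_atTop_atTop
  obtain ⟨t, ht1, ht2⟩ := ((htend.eventually hev2).and (eventually_ge_atTop 1)).exists
  set T : ℝ := (p : ℝ) * (t : ℝ) with hT
  have hT0 : 0 < T := by
    have : (1 : ℝ) ≤ t := by exact_mod_cast ht2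
    positivity
  let f : ℤ[X] := lin ℤ q ((p : ℤ) * t) + r
  have hlinm := lin_monic ℤ q ((p : ℤ) * t)
  have hlind : (lin ℤ q ((p : ℤ) * t)).degree = q := by
    rw [degree_eq_natDegree hlinm.ne_zero, lin_degree]
  have hfm : f.Monic := hlinm.add_of_left (by rw [hlind]; exact hr)
  have hfd : f.natDegree = q := by
    have h1 : f.degree = q := by
      rw [← hlind]
      exact degree_add_eq_left_of_degree_lt (by rw [hlind]; exact hr)
    exact natDegree_eq_of_degree_eq_some h1
  refine ⟨f, hfm, hfd, ?_, fun z hz => ?_⟩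
  · have h1 : f.map (Int.castRingHom (ZMod p)) = h := by
      change (lin ℤ q ((p : ℤ) * t) + (h' - X ^ q)).map _ = h
      rw [Polynomial.map_add, lin_map, Polynomial.map_sub, hh', Polynomial.map_pow, map_X]
      have h2 : (Int.castRingHom (ZMod p)) ((p : ℤ) * t) = 0 := by
        rw [map_mul, map_natCast, ZMod.natCast_self, zero_mul]
      rw [h2, lin_zero]
      ring
    rw [h1]
    exact hirr
  · have h1 : (f.map (Int.castRingHom ℝ)).map Complex.ofRealHom = f.map (Int.castRingHom ℂ) := by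
      rw [Polynomial.map_map]
      congr 1
    rw [← h1] at hz
    refine real_roots q (f.map (Int.castRingHom ℝ)) ?_ (hfm.map _) T hT0 (fun k hk => ?_) z hz
    · rw [hfm.natDegree_map, hfd]
    · have h2 := ht1 k (Finset.mem_range.2 (by omega))
      have h3 : (f.map (Int.castRingHom ℝ)).eval (((k : ℝ) - 1 / 2) * T) =
          T ^ q * ((∏ i ∈ Finset.range q, ((k : ℝ) - 1 / 2 - i)) +
            (r.map (Int.castRingHom ℝ)).eval (((k : ℝ) - 1 / 2) * T) / T ^ q) := by
        change ((lin ℤ q ((p : ℤ) * t) + r).map _).eval _ = _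
        rw [Polynomial.map_add, eval_add, lin_map]
        have h4 : (Int.castRingHom ℝ) ((p : ℤ) * t) = T := by
          rw [hT]
          simp
        rw [h4, lin_eval, mul_add, mul_div_cancel₀ _ (pow_pos hT0 q).ne']
      rw [h3, mul_left_comm]
      exact mul_pos (pow_pos hT0 q) h2

/-- Irreducibility over the field of `p`-adic numbers. -/
theorem irreducible_padic (p : ℕ) [Fact p.Prime] (f : ℤ[X]) (hf : f.Monic)
    (hirr : Irreducible (f.map (Int.castRingHom (ZMod p)))) :
    Irreducible (f.map (Int.castRingHom ℚ_[p])) := by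
  have h1 : Irreducible (f.map (Int.castRingHom ℤ_[p])) := by
    refine Monic.irreducible_of_irreducible_map (PadicInt.toZMod (p := p)) _ (hf.map _) ?_
    rw [Polynomial.map_map]
    have h2 : (PadicInt.toZMod (p := p)).comp (Int.castRingHom ℤ_[p]) = Int.castRingHom (ZMod p) :=
      RingHom.ext_int _ _
    rw [h2]
    exact hirr
  have h3 := (Monic.irreducible_iff_irreducible_map_fraction_map (K := ℚ_[p])
    (hf.map (Int.castRingHom ℤ_[p]))).1 h1
  rw [Polynomial.map_map] at h3
  have h4 : (algebraMap ℤ_[p] ℚ_[p]).comp (Int.castRingHom ℤ_[p]) = Int.castRingHom ℚ_[p] :=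
    RingHom.ext_int _ _
  rwa [h4] at h3

/-- Irreducibility over the field of rational numbers. -/
theorem irreducible_rat (p : ℕ) [Fact p.Prime] (f : ℤ[X]) (hf : f.Monic)
    (hirr : Irreducible (f.map (Int.castRingHom (ZMod p)))) :
    Irreducible (f.map (Int.castRingHom ℚ)) := by
  have h1 : Irreducible f :=
    Monic.irreducible_of_irreducible_map (Int.castRingHom (ZMod p)) _ hf hirr
  have h2 := (Monic.irreducible_iff_irreducible_map_fraction_map (K := ℚ) hf).1 h1
  have h3 : algebraMap ℤ ℚ = Int.castRingHom ℚ := RingHom.ext_int _ _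
  rwa [h3] at h2

/-- The Galois group of the algebraic closure acts transitively on the roots. -/
theorem exists_aut (p : ℕ) [Fact p.Prime] (f : ℤ[X]) (hf : f.Monic)
    (hirr : Irreducible (f.map (Int.castRingHom (ZMod p)))) (α β : PadicAlgCl p)
    (hα : (f.map (Int.castRingHom (PadicAlgCl p))).IsRoot α)
    (hβ : (f.map (Int.castRingHom (PadicAlgCl p))).IsRoot β) :
    ∃ τ : PadicAlgCl p ≃ₐ[ℚ_[p]] PadicAlgCl p, τ α = β := by
  have hI := irreducible_padic p f hf hirr
  have h1 : (algebraMap ℚ_[p] (PadicAlgCl p)).comp (Int.castRingHom ℚ_[p]) =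
      Int.castRingHom (PadicAlgCl p) := RingHom.ext_int _ _
  have h2 : ∀ γ : PadicAlgCl p, (f.map (Int.castRingHom (PadicAlgCl p))).IsRoot γ →
      minpoly ℚ_[p] γ = f.map (Int.castRingHom ℚ_[p]) := by
    intro γ hγ
    symm
    refine minpoly.eq_of_irreducible_of_monic hI ?_ (hf.map _)
    rw [aeval_def, eval₂_eq_eval_map, Polynomial.map_map, h1]
    exact hγ
  have h3 : IsConjRoot ℚ_[p] β α := by
    unfold IsConjRoot
    rw [h2 α hα, h2 β hβ]
  exact isConjRoot_iff_exists_algEquiv.1 h3

end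

end Pool.Agent.R937.BR
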