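import Pool.Agent.R937.BR.Alg
import Pool.Agent.R937.VS.Final

/-!
# Relations between Frobenius eigenvalues and Tate classes
-/

set_option autoImplicit false
set_option linter.unusedSectionVars false
set_option linter.unusedVariables false

namespace Pool.Agent.R937.BR

open NumberField Pool.Agent.H204R3.CM Pool.Agent.W547.KB Pool.Agent.W547.LD Pool.Agent.W495.TA Module
  Pool.Agent.W495.TB Pool.Agent.W495.TC Pool.Agent.TH117.F5 Pool.Agent.TH117.BL Pool.Agent.Y137.SF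
  Pool.Agent.R937.CS
open Pool.Agent.Y137.TV (tens tens_apply lam lam_ne_zero mono_F expandM)
open Pool.Agent.R937.VS (slope gen_pow gen_smul log_prod isTate_tens frobOn)
open scoped TensorProduct

noncomputable section

variable {p : ℕ} [Fact p.Prime] {ν : PadicAlgCl p ≃+* ℂ} {Ω : Type} [Field Ω] [CharZero Ω]
  {L : Type} [Field L] [NumberField L] [IsCMField L] [IsGalois ℚ L] (j : L →+* ℂ) (jO : L →+* Ω)

/-- A Weil number, its weight and its slopes. -/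
structure IsNum (p : ℕ) [Fact p.Prime] (ν : PadicAlgCl p ≃+* ℂ) (j : L →+* ℂ) (a b : ℕ)
    (f : (L ≃ₐ[ℚ] L) → ℚ) (y : L) : Prop where
  int : IsIntegral ℤ y
  weil : ∀ ψ : L →+* ℂ, ‖ψ y‖ ^ 2 = (p : ℝ) ^ (a * b)
  slope : ∀ σ, (f σ : ℝ) = 2 * slope p ν a (j (σ y)) - b

theorem IsNum.ne_zero {a b : ℕ} {f : (L ≃ₐ[ℚ] L) → ℚ} {y : L} (h : IsNum p ν j a b f y) :
    y ≠ 0 := by
  intro h0
  have h1 := h.weil j
  rw [h0, map_zero, norm_zero] at h1
  have hp : (0 : ℝ) < p := by exact_mod_cast (Fact.out : p.Prime).pos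
  have h2 : (0 : ℝ) < (p : ℝ) ^ (a * b) := pow_pos hp _
  rw [← h1] at h2
  norm_num at h2

theorem lp_ne : Real.log ‖(p : PadicAlgCl p)‖ ≠ 0 := (Real.log_neg norm_p_pos norm_p_lt).ne

/-- The logarithm of the norm of a conjugate. -/
theorem IsNum.log {a b : ℕ} (ha : 0 < a) {f : (L ≃ₐ[ℚ] L) → ℚ} {y : L}
    (h : IsNum p ν j a b f y) (σ : L ≃ₐ[ℚ] L) :
    Real.log ‖ν.symm (j (σ y))‖ = ((f σ : ℝ) + b) / 2 * (a * Real.log ‖(p : PadicAlgCl p)‖) := by
  have h1 := h.slope σ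
  unfold Pool.Agent.R937.VS.slope at h1
  rw [norm_pow, Real.log_pow] at h1
  have h2 : (a : ℝ) * Real.log ‖(p : PadicAlgCl p)‖ ≠ 0 :=
    mul_ne_zero (by exact_mod_cast ha.ne') lp_ne
  have h3 : ((f σ : ℝ) + b) / 2 =
      Real.log ‖ν.symm (j (σ y))‖ / (a * Real.log ‖(p : PadicAlgCl p)‖) := by
    rw [h1]
    ring
  rw [h3, div_mul_cancel₀ _ h2]

variable {K : Type} {H : K → Type} [∀ i, AddCommGroup (H i)] [∀ i, Module Ω (H i)]

theorem prod_ne {Z : RedAV p ν} {Q : Type} [Fintype Q] (J : Q → Wt Z.X L) :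
    (∏ q, (J q).2 (Z.π (J q).1)) ≠ 0 := by
  refine Finset.prod_ne_zero_iff.2 fun k _ h => ?_
  let ψ : L →+* ℂ := Classical.choice inferInstance
  have h2 := (Z.frob (J k).1).weil (ψ.comp (J k).2)
  have h3 : (ψ.comp (J k).2) (Z.π (J k).1) = 0 := by
    change ψ ((J k).2 (Z.π (J k).1)) = 0
    rw [h, map_zero]
  rw [h3, norm_zero] at h2
  have hp : (0 : ℝ) < p := by exact_mod_cast (Fact.out : p.Prime).pos
  have h4 : (0 : ℝ) < (p : ℝ) ^ Z.a := pow_pos hp _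
  rw [← h2] at h4
  norm_num at h4

theorem prod_weil {Z : RedAV p ν} {Q : Type} [Fintype Q] (J : Q → Wt Z.X L) (ψ : L →+* ℂ) :
    ‖ψ (∏ q, (J q).2 (Z.π (J q).1))‖ ^ 2 = (p : ℝ) ^ (Z.a * Fintype.card Q) := by
  have hw : ∀ k, ‖ψ ((J k).2 (Z.π (J k).1))‖ ^ 2 = (p : ℝ) ^ Z.a := fun k =>
    (Z.frob (J k).1).weil (ψ.comp (J k).2)
  rw [map_prod, norm_prod, ← Finset.prod_pow, Finset.prod_congr rfl fun k _ => hw k,
    Finset.prod_const, Finset.card_univ, ← pow_mul]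

theorem prod_lam {Z : RedAV p ν} {Q : Type} [Fintype Q] (J : Q → Wt Z.X L) :
    ∏ q, lam jO (J q) = jO (∏ q, (J q).2 (Z.π (J q).1)) := by
  rw [map_prod]
  rfl

/-- A relation between the slopes gives a Tate class. -/
theorem isTate_of_rel {Z : RedAV p ν} (hZ : Big Z.X j) {Q : Type} [Fintype Q] [DecidableEq Q]
    (J : Q → Wt Z.X L) {T : Finset K} {φ : ∀ i, H i →ₗ[Ω] H i} {w : ML Ω H T} {a b R : ℕ}
    (ha : 0 < a) {f : (L ≃ₐ[ℚ] L) → ℚ} {y : L} (hy : IsNum p ν j a b f y)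
    (hw : ((frobW φ T - jO y • (1 : ML Ω H T →ₗ[Ω] ML Ω H T)) ^ R) w = 0)
    (hsum : ∀ σ, ((∑ q, tf p ν j (St j (J q)) σ : ℤ) : ℚ) + (nD (Dec p ν j) : ℚ) * f σ = 0)
    (heven : Even (Fintype.card Q + b)) : IsTate a φ R (tens (monoO jO J) w) := by
  classical
  obtain ⟨c, hc⟩ := heven
  have hp : p.Prime := Fact.out
  have hpL : (p : L) ≠ 0 := Nat.cast_ne_zero.2 hp.ne_zero
  set β : L := ∏ q, (J q).2 (Z.π (J q).1) with hβ
  have hβ0 : β ≠ 0 := prod_ne J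
  have hy0 : y ≠ 0 := hy.ne_zero
  set X : L := y ^ Z.a * β ^ a * (p : L) with hX
  set X' : L := (p : L) ^ (a * Z.a * c + 1) with hX'
  set m : ℕ := 2 * (a * Z.a * c + 1) with hm
  have hInt : IsIntegral ℤ β := by
    refine IsIntegral.prod _ fun k _ => ?_
    exact (Z.frob (J k).1).integral.map (J k).2.toIntAlgHom
  have hp1 : IsIntegral ℤ (p : L) := by
    exact_mod_cast isIntegral_algebraMap (R := ℤ) (A := L) (x := (p : ℤ))
  have hcard : Fintype.card Q + b = 2 * c := by omega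
  have hwX : ∀ ψ : L →+* ℂ, ‖ψ X‖ ^ 2 = (p : ℝ) ^ m := by
    intro ψ
    have h1 : ‖ψ X‖ ^ 2 = (‖ψ y‖ ^ 2) ^ Z.a * (‖ψ β‖ ^ 2) ^ a * (p : ℝ) ^ 2 := by
      rw [hX, map_mul, map_mul, map_pow, map_pow, map_natCast, norm_mul, norm_mul, norm_pow,
        norm_pow, Complex.norm_natCast]
      ring
    rw [h1, hy.weil, prod_weil J ψ, ← pow_mul, ← pow_mul, ← pow_add, ← pow_add]
    congr 1
    have h2 : a * b * Z.a + Z.a * Fintype.card Q * a = a * Z.a * (Fintype.card Q + b) := by ring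
    rw [h2, hcard, hm]
    ring
  have hwX' : ∀ ψ : L →+* ℂ, ‖ψ X'‖ ^ 2 = (p : ℝ) ^ m := by
    intro ψ
    rw [hX', map_pow, map_natCast, norm_pow, Complex.norm_natCast, ← pow_mul, hm, mul_comm]
  have hpos : ∀ (σ : L ≃ₐ[ℚ] L) (z : L), z ≠ 0 → 0 < ‖ν.symm (j (σ z))‖ := fun σ z hz => by
    rw [norm_pos_iff]
    exact (map_ne_zero ν.symm).2 ((map_ne_zero j).2 ((map_ne_zero σ).2 hz))
  set lp : ℝ := Real.log ‖(p : PadicAlgCl p)‖ with hlp
  have hnD : (0 : ℝ) < (nD (Dec p ν j) : ℝ) := by exact_mod_cast nD_pos (Dec p ν j)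
  have hval : ∀ σ : L ≃ₐ[ℚ] L, ‖ν.symm (j (σ X))‖ = ‖ν.symm (j (σ X'))‖ := by
    intro σ
    have h1 : ‖ν.symm (j (σ X))‖ =
        ‖ν.symm (j (σ y))‖ ^ Z.a * ‖ν.symm (j (σ β))‖ ^ a * ‖(p : PadicAlgCl p)‖ := by
      rw [hX]
      simp only [map_mul, map_pow, map_natCast, norm_mul, norm_pow]
    have h2 : ‖ν.symm (j (σ X'))‖ = ‖(p : PadicAlgCl p)‖ ^ (a * Z.a * c + 1) := by
      rw [hX']
      simp only [map_pow, map_natCast, norm_pow]
    rw [h1, h2]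
    have h3 : 0 < ‖ν.symm (j (σ y))‖ := hpos σ y hy0
    have h4 : 0 < ‖ν.symm (j (σ β))‖ := hpos σ β hβ0
    have h5 : 0 < ‖(p : PadicAlgCl p)‖ := norm_p_pos
    refine Real.log_injOn_pos (Set.mem_Ioi.2 (by positivity)) (Set.mem_Ioi.2 (by positivity)) ?_
    rw [Real.log_mul (by positivity) h5.ne', Real.log_mul (by positivity) (by positivity),
      Real.log_pow, Real.log_pow, Real.log_pow, hy.log j ha σ, hβ, log_prod j Z hZ J σ]
    have h6 : ((∑ q, tf p ν j (St j (J q)) σ : ℤ) : ℝ) = -((nD (Dec p ν j) : ℝ) * (f σ : ℝ)) := by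
      have h7 : (((∑ q, tf p ν j (St j (J q)) σ : ℤ) : ℚ) : ℝ) =
          ((-((nD (Dec p ν j) : ℚ) * f σ) : ℚ) : ℝ) := by
        exact congrArg _ (by linarith [hsum σ])
      push_cast at h7 ⊢
      exact h7
    rw [h6]
    have h8 : (Fintype.card Q : ℝ) = 2 * c - b := by
      have : ((Fintype.card Q + b : ℕ) : ℝ) = ((2 * c : ℕ) : ℝ) := by rw [hcard]
      push_cast at this
      linarith
    rw [h8]
    push_cast
    field_simp
    ring
  obtain ⟨n, hn, hn2⟩ := Pool.Agent.W64.TA.ru p ν L j X X' m m (by omega) (by omega)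
    (((hy.int.pow _).mul (hInt.pow _)).mul hp1) (hp1.pow _) hwX hwX' fun σ => by rw [hval σ]
  have hmain : y ^ (Z.a * (m * n)) * β ^ (a * (m * n)) =
      (p : L) ^ (a * (Z.a * (m * n)) * c) := by
    have h1 : X ^ (m * n) = y ^ (Z.a * (m * n)) * β ^ (a * (m * n)) * (p : L) ^ (m * n) := by
      rw [hX, mul_pow, mul_pow, ← pow_mul, ← pow_mul]
    have h2 : X' ^ (m * n) = (p : L) ^ (a * (Z.a * (m * n)) * c) * (p : L) ^ (m * n) := by
      rw [hX', ← pow_mul, ← pow_add]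
      congr 1
      ring
    rw [h1, h2] at hn2
    exact mul_right_cancel₀ (pow_ne_zero _ hpL) hn2
  have hmn : 0 < m * n := Nat.mul_pos (by omega) hn
  refine ⟨a * (m * n), Z.a * (m * n), c, Nat.mul_pos ha hmn, Nat.mul_pos Z.pos hmn, by ring, ?_⟩
  refine isTate_tens jO J w ?_
  have h1 := gen_smul _ _ ((∏ k, lam jO (J k)) ^ (a * (m * n))) R w
    (gen_pow (frobW φ T) (jO y) R (Z.a * (m * n)) w hw)
  have h2 : (∏ k, lam jO (J k)) ^ (a * (m * n)) * jO y ^ (Z.a * (m * n)) =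
      (p : Ω) ^ (a * (Z.a * (m * n)) * c) := by
    rw [prod_lam jO J, ← map_pow, ← map_pow, ← map_mul, mul_comm, hmain, map_pow, map_natCast]
  rw [h2] at h1
  exact h1

/-- The relation between the slopes given by a Tate class. -/
theorem rel_of_tate {Y : RedAV p ν} (hY : Big Y.X j) {κ : Type} [Fintype κ] (I : κ → Wt Y.X L)
    {T : Finset K} {a s t c : ℕ} (ha : 0 < a) (ht : 0 < t) (hst : Y.a * s = a * t) {b : K → ℕ}
    {f : K → (L ≃ₐ[ℚ] L) → ℚ} {y : K → L} (hy : ∀ i ∈ T, IsNum p ν j a (b i) (f i) (y i))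
    (h : (∏ k, lam jO (I k)) ^ s * ∏ i ∈ T, jO (y i) ^ t = (p : Ω) ^ (a * t * c)) :
    Fintype.card κ + ∑ i ∈ T, b i = 2 * c ∧
    ∀ σ, ((∑ k, tf p ν j (St j (I k)) σ : ℤ) : ℚ) + (nD (Dec p ν j) : ℚ) * ∑ i ∈ T, f i σ = 0 := by
  classical
  have hp : p.Prime := Fact.out
  set β : L := ∏ q, (I q).2 (Y.π (I q).1) with hβ
  have hβ0 : β ≠ 0 := prod_ne I
  have hy0 : ∀ i ∈ T, y i ≠ 0 := fun i hi => (hy i hi).ne_zero
  have hL : β ^ s * ∏ i ∈ T, y i ^ t = (p : L) ^ (a * t * c) := by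
    apply jO.injective
    have e1 : jO (β ^ s * ∏ i ∈ T, y i ^ t) = jO β ^ s * ∏ i ∈ T, jO (y i) ^ t := by
      rw [map_mul, map_pow]
      congr 1
      rw [map_prod]
      exact Finset.prod_congr rfl fun i _ => map_pow jO (y i) t
    rw [e1, map_pow, map_natCast, ← h, prod_lam jO I]
  have hpr : (1 : ℝ) < p := by exact_mod_cast hp.one_lt
  have hcard : Fintype.card κ + ∑ i ∈ T, b i = 2 * c := by
    have h1 : (‖j β‖ ^ 2) ^ s * ∏ i ∈ T, (‖j (y i)‖ ^ 2) ^ t = (p : ℝ) ^ (2 * (a * t * c)) := by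
      have h2 := congrArg (fun z => ‖j z‖ ^ 2) hL
      simp only [map_mul, map_pow, map_prod, map_natCast, norm_mul, norm_pow, norm_prod,
        Complex.norm_natCast] at h2
      rw [mul_comm 2, pow_mul (p : ℝ), ← h2, mul_pow, ← Finset.prod_pow]
      congr 1
      · ring
      · exact Finset.prod_congr rfl fun i _ => by ring
    rw [prod_weil I j, Finset.prod_congr rfl fun i hi => by rw [(hy i hi).weil j],
      ← pow_mul] at h1
    rw [Finset.prod_congr rfl fun i hi => (pow_mul (p : ℝ) (a * b i) t).symm,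
      Finset.prod_pow_eq_pow_sum, ← pow_add] at h1
    have h2 := pow_right_injective₀ (by positivity : (0 : ℝ) < p) hpr.ne' h1
    have h3 : Y.a * Fintype.card κ * s = a * t * Fintype.card κ := by
      rw [mul_right_comm, hst]
    have h4 : ∑ i ∈ T, a * b i * t = a * t * ∑ i ∈ T, b i := by
      rw [Finset.mul_sum]
      exact Finset.sum_congr rfl fun i _ => by ring
    have h5 : a * t * (Fintype.card κ + ∑ i ∈ T, b i) = a * t * (2 * c) := by
      calc a * t * (Fintype.card κ + ∑ i ∈ T, b i) =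
          a * t * Fintype.card κ + a * t * ∑ i ∈ T, b i := by ring
        _ = Y.a * Fintype.card κ * s + ∑ i ∈ T, a * b i * t := by rw [h3, h4]
        _ = 2 * (a * t * c) := h2
        _ = a * t * (2 * c) := by ring
    exact Nat.eq_of_mul_eq_mul_left (Nat.mul_pos ha ht) h5
  refine ⟨hcard, fun σ => ?_⟩
  have hnD : (0 : ℝ) < (nD (Dec p ν j) : ℝ) := by exact_mod_cast nD_pos (Dec p ν j)
  set lp : ℝ := Real.log ‖(p : PadicAlgCl p)‖ with hlp
  have hlp0 : lp ≠ 0 := lp_ne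
  have ha0 : (a : ℝ) ≠ 0 := by exact_mod_cast ha.ne'
  have ht0 : (t : ℝ) ≠ 0 := by exact_mod_cast ht.ne'
  have hpos : ∀ z : L, z ≠ 0 → ‖ν.symm (j (σ z))‖ ≠ 0 := fun z hz => by
    rw [norm_ne_zero_iff]
    exact (map_ne_zero ν.symm).2 ((map_ne_zero j).2 ((map_ne_zero σ).2 hz))
  have h1 := congrArg (fun z => Real.log ‖ν.symm (j (σ z))‖) hL
  simp only [map_mul, map_pow, map_prod, map_natCast, norm_mul, norm_pow, norm_prod] at h1
  rw [Real.log_mul (pow_ne_zero _ (by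
      have := hpos β hβ0
      exact this)) (Finset.prod_ne_zero_iff.2 fun i hi => pow_ne_zero _ (hpos _ (hy0 i hi))),
    Real.log_pow, Real.log_prod fun i hi => pow_ne_zero _ (hpos _ (hy0 i hi)), hβ,
    log_prod j Y hY I σ, Real.log_pow] at h1
  have h2 : ∑ i ∈ T, Real.log (‖ν.symm (j (σ (y i)))‖ ^ t) =
      (a * t) * lp * ((∑ i ∈ T, (f i σ : ℝ)) + ∑ i ∈ T, (b i : ℝ)) / 2 := by
    have h3 : ∀ i ∈ T, Real.log (‖ν.symm (j (σ (y i)))‖ ^ t) =
        (a * t) * lp * ((f i σ : ℝ) + b i) / 2 := by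
      intro i hi
      rw [Real.log_pow, (hy i hi).log j ha σ]
      ring
    rw [Finset.sum_congr rfl h3, ← Finset.sum_add_distrib, Finset.mul_sum, Finset.sum_div]
  rw [h2] at h1
  have hst' : (Y.a : ℝ) * s = a * t := by exact_mod_cast hst
  have hc' : (Fintype.card κ : ℝ) + ∑ i ∈ T, (b i : ℝ) = 2 * c := by exact_mod_cast hcard
  set S : ℝ := ((∑ k, tf p ν j (St j (I k)) σ : ℤ) : ℝ) with hS
  have h3 : (a * t : ℝ) * lp * (S + (nD (Dec p ν j) : ℝ) * ∑ i ∈ T, (f i σ : ℝ)) = 0 := by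
    have h4 : (s : ℝ) * (Y.a * (Fintype.card κ / 2 + S / (2 * (nD (Dec p ν j) : ℝ))) * lp) =
        (a * t) * lp * (Fintype.card κ / 2 + S / (2 * (nD (Dec p ν j) : ℝ))) := by
      rw [← hst']
      ring
    rw [h4] at h1
    push_cast at h1
    set x : ℝ := S / (2 * (nD (Dec p ν j) : ℝ)) with hx
    have hSx : S = x * (2 * (nD (Dec p ν j) : ℝ)) := by
      rw [hx]
      field_simp
    rw [hSx]
    linear_combination (2 * (nD (Dec p ν j) : ℝ)) * h1 -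
      (a * t * lp * (nD (Dec p ν j) : ℝ)) * hc'
  have h4 : S + (nD (Dec p ν j) : ℝ) * ∑ i ∈ T, (f i σ : ℝ) = 0 := by
    rcases mul_eq_zero.1 h3 with h | h
    · exact absurd h (mul_ne_zero (mul_ne_zero ha0 ht0) hlp0)
    · exact h
  have h5 : ((((∑ k, tf p ν j (St j (I k)) σ : ℤ) : ℚ) +
      (nD (Dec p ν j) : ℚ) * ∑ i ∈ T, f i σ : ℚ) : ℝ) = 0 := by
    push_cast
    push_cast at h4
    rw [hS] at h4
    push_cast at h4
    exact h4
  exact_mod_cast h5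

end

end Pool.Agent.R937.BR
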