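import Pool.Agent.R937.BR.Num

/-!
# The common field
-/

set_option autoImplicit false
set_option linter.unusedSectionVars false
set_option linter.unusedVariables false

namespace Pool.Agent.R937.BR

open NumberField Pool.Agent.H204R3.CM Pool.Agent.W547.KB Pool.Agent.W547.LD Pool.Agent.W495.TA Module
  Pool.Agent.W495.TB Pool.Agent.W495.TC Pool.Agent.TH117.F5 Pool.Agent.TH117.BL Pool.Agent.Y137.SF
  Pool.Agent.R937.CS
open Pool.Agent.R937.VS (slope)
open Polynomial

noncomputable section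

/-- A number field with an endomorphism that is the complex conjugation in all embeddings. -/
structure FldC where
  E : Type
  [fE : Field E]
  [nE : NumberField E]
  τ : E → E
  hτ : ∀ (ψ : E →+* ℂ) x, starRingEnd ℂ (ψ x) = ψ (τ x)

attribute [instance] FldC.fE FldC.nE

theorem exists_closure' {ι : Type} [Finite ι] (E : ι → FldC) (i0 : ι)
    (hi0 : ∃ x, (E i0).τ x ≠ x) :
    ∃ (L : Type) (_ : Field L) (_ : NumberField L) (_ : IsCMField L) (_ : IsGalois ℚ L)
      (j : L →+* ℂ), ∀ i, ∀ ψ : (E i).E →+* ℂ, ∃ φ : (E i).E →+* L, j.comp φ = ψ :=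
  exists_closure (fun i => (E i).E) (fun i => (E i).τ) (fun i => (E i).hτ) i0 hi0

/-- The field of a CM type. -/
def ofCM (A : CMPair) : FldC where
  E := A.E
  τ := cc A.E
  hτ := fun ψ x => (IsCMField.complexEmbedding_complexConj A.E ψ x).symm

theorem ofCM_ne (A : CMPair) : ∃ x, (ofCM A).τ x ≠ x := by
  by_contra h
  push Not at h
  obtain ⟨ψ⟩ : Nonempty (A.E →+* ℂ) := inferInstance
  have h1 : ComplexEmbedding.IsReal ψ := by
    ext x
    have h2 := (ofCM A).hτ ψ x
    rw [h x] at h2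
    exact h2
  have h2 : InfinitePlace.IsReal (InfinitePlace.mk ψ) := ⟨ψ, h1, rfl⟩
  exact (InfinitePlace.not_isReal_iff_isComplex.2 (IsTotallyComplex.isComplex _)) h2

/-- The totally real field of a polynomial. -/
theorem exists_real (f : ℤ[X]) (hf : f.Monic) (hirr : Irreducible (f.map (Int.castRingHom ℚ)))
    (hreal : ∀ z : ℂ, (f.map (Int.castRingHom ℂ)).IsRoot z → ∃ x : ℝ, z = x) :
    ∃ (E : FldC) (θ : E.E), (f.map (Int.castRingHom E.E)).IsRoot θ := by
  have : Fact (Irreducible (f.map (Int.castRingHom ℚ))) := ⟨hirr⟩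
  have hfd : FiniteDimensional ℚ (AdjoinRoot (f.map (Int.castRingHom ℚ))) :=
    (AdjoinRoot.powerBasis hirr.ne_zero).finite
  have : CharZero (AdjoinRoot (f.map (Int.castRingHom ℚ))) :=
    charZero_of_injective_algebraMap (algebraMap ℚ _).injective
  have : NumberField (AdjoinRoot (f.map (Int.castRingHom ℚ))) := NumberField.mk
  have hroot : (f.map (Int.castRingHom (AdjoinRoot (f.map (Int.castRingHom ℚ))))).IsRoot
      (AdjoinRoot.root (f.map (Int.castRingHom ℚ))) := by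
    have h1 := AdjoinRoot.eval₂_root (f.map (Int.castRingHom ℚ))
    rw [eval₂_eq_eval_map, Polynomial.map_map] at h1
    have h2 : (AdjoinRoot.of (f.map (Int.castRingHom ℚ))).comp (Int.castRingHom ℚ) =
        Int.castRingHom _ := RingHom.ext_int _ _
    rw [h2] at h1
    exact h1
  refine ⟨{ E := AdjoinRoot (f.map (Int.castRingHom ℚ))
            τ := id
            hτ := ?_ }, AdjoinRoot.root _, hroot⟩
  intro ψ x
  have h1 : ∃ r : ℝ, ψ (AdjoinRoot.root (f.map (Int.castRingHom ℚ))) = r := by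
    apply hreal
    have h2 : (f.map (Int.castRingHom ℂ)).eval (ψ (AdjoinRoot.root (f.map (Int.castRingHom ℚ)))) =
        ψ ((f.map (Int.castRingHom _)).eval (AdjoinRoot.root (f.map (Int.castRingHom ℚ)))) := by
      have h3 : ψ.comp (Int.castRingHom _) = Int.castRingHom ℂ := RingHom.ext_int _ _
      rw [← h3, ← Polynomial.map_map, eval_map_apply]
    change (f.map (Int.castRingHom ℂ)).eval _ = 0
    rw [h2, hroot, map_zero]
  obtain ⟨r, hr⟩ := h1
  have h2 : RingHom.equivRatAlgHom _ ℂ ((starRingEnd ℂ).comp ψ) = RingHom.equivRatAlgHom _ ℂ ψ := by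
    refine AdjoinRoot.algHom_ext ?_
    change starRingEnd ℂ (ψ (AdjoinRoot.root (f.map (Int.castRingHom ℚ)))) =
      ψ (AdjoinRoot.root (f.map (Int.castRingHom ℚ)))
    rw [hr, Complex.conj_ofReal]
  exact DFunLike.congr_fun h2 x

/-- **The common field.** -/
theorem exists_setup {p : ℕ} [Fact p.Prime] {ν : PadicAlgCl p ≃+* ℂ} (n : ℕ) (Y : RedAV p ν)
    {ι : Type} [Finite ι] (E : ι → FldC) :
    ∃ (L : Type) (_ : Field L) (_ : NumberField L) (_ : IsCMField L) (_ : IsGalois ℚ L)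
      (j : L →+* ℂ), Big Y.X j ∧ BigA (kp p) j ∧
      (∀ i, ∀ ψ : (E i).E →+* ℂ, ∃ φ : (E i).E →+* L, j.comp φ = ψ) ∧
      ∃ H : Subgroup (L ≃ₐ[ℚ] L), H.index = 2 * MM n ∧
        ∀ g, ∃ d ∈ Dec p ν j, d⁻¹ * g ∈ H := by
  obtain ⟨f, hf, hdeg, hirr, hreal⟩ := exists_poly p (2 * MM n)
    (Nat.mul_pos (by norm_num) (MM_pos n))
  obtain ⟨E0, θ0, hθ0⟩ := exists_real f hf (irreducible_rat p f hf hirr) hreal
  let F : (Y.X.I ⊕ Unit) ⊕ (Unit ⊕ ι) → FldC := Sum.elim
    (Sum.elim (fun i => ofCM (Y.X.factor i)) fun _ => ofCM (kp p)) (Sum.elim (fun _ => E0) E)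
  obtain ⟨L, _, _, _, _, j, hj⟩ := exists_closure' F (Sum.inl (Sum.inr ())) (ofCM_ne (kp p))
  refine ⟨L, inferInstance, inferInstance, inferInstance, inferInstance, j,
    fun i => hj (Sum.inl (Sum.inl i)), hj (Sum.inl (Sum.inr ())), fun i => hj (Sum.inr (Sum.inr i)),
    ?_⟩
  obtain ⟨ψ⟩ : Nonempty (E0.E →+* ℂ) := inferInstance
  obtain ⟨φ, -⟩ : ∃ φ : E0.E →+* L, j.comp φ = ψ := hj (Sum.inr (Sum.inl ())) ψ
  have hθ : (f.map (Int.castRingHom L)).IsRoot (φ θ0) := by
    have h1 : φ.comp (Int.castRingHom E0.E) = Int.castRingHom L := RingHom.ext_int _ _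
    change (f.map (Int.castRingHom L)).eval (φ θ0) = 0
    rw [← h1, ← Polynomial.map_map, eval_map_apply, hθ0, map_zero]
  refine ⟨MulAction.stabilizer (L ≃ₐ[ℚ] L) (φ θ0), ?_, ?_⟩
  · rw [index_root f hf hirr (φ θ0) hθ, hdeg]
  · exact dec_transitive j f hf hirr (φ θ0) hθ

end

end Pool.Agent.R937.BR
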