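import Pool.Agent.R937.BR.Setup

/-!
# Half systems belonging to labels, and the classes they give
-/

set_option autoImplicit false
set_option linter.unusedSectionVars false
set_option linter.unusedVariables false

namespace Pool.Agent.R937.BR

open NumberField Pool.Agent.H204R3.CM Pool.Agent.W547.KB Pool.Agent.W547.LD Pool.Agent.W495.TA Module
  Pool.Agent.W495.TB Pool.Agent.W495.TC Pool.Agent.TH117.F5 Pool.Agent.TH117.BL Pool.Agent.Y137.SF
  Pool.Agent.R937.CS Pool.Agent.W976.TA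
open Pool.Agent.Y137.TV (tens tens_apply lam lam_ne_zero mono_F expandM)
open Pool.Agent.R937.VS (exists_av)

noncomputable section

/-- A bound for the indices. -/
def XX (n : ℕ) : ℕ := Nat.factorial n * (2 * MM n)

/-- The bound for the dimension. -/
def BB (n : ℕ) : ℕ := (EE n + 2) * (Nat.factorial n * MM n)

theorem le_XX (n : ℕ) : n ≤ XX n := by
  have h1 : n ≤ Nat.factorial n := Nat.self_le_factorial n
  have h2 : 1 ≤ 2 * MM n := by
    have := MM_pos n
    omega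
  calc n ≤ Nat.factorial n := h1
    _ = Nat.factorial n * 1 := (mul_one _).symm
    _ ≤ XX n := Nat.mul_le_mul_left _ h2

theorem two_le_XX (n : ℕ) : 2 ≤ XX n := by
  have h1 : 1 ≤ Nat.factorial n := Nat.factorial_pos n
  have h2 : 2 ≤ 2 * MM n := by
    have := MM_pos n
    omega
  calc 2 = 1 * 2 := rfl
    _ ≤ XX n := Nat.mul_le_mul h1 h2

theorem BB_eq (n : ℕ) : 2 * BB n = (EE n + 2) * XX n := by
  unfold BB XX
  ring

section tab

variable {p : ℕ} [Fact p.Prime] {ν : PadicAlgCl p ≃+* ℂ}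
  {L : Type} [Field L] [NumberField L] [IsCMField L] [IsGalois ℚ L] (j : L →+* ℂ) (n : ℕ)

/-- The labels. -/
abbrev Lb (p : ℕ) [Fact p.Prime] (ν : PadicAlgCl p ≃+* ℂ) (j : L →+* ℂ) (n : ℕ) : Type :=
  Lab (Dec p ν j) (cc L) (Nat.factorial n)

/-- The conjugate label. -/
def clj (l : Lb p ν j n) : Lb p ν j n := cl (fun g => cc_comm j g) cc_cc l

theorem clj_inv : Function.Involutive (clj (p := p) (ν := ν) j n) :=
  cl_cl (fun g => cc_comm j g) cc_cc

/-- Half systems belonging to the labels. -/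
structure IsTab (S : Option (Lb p ν j n) → Set (L ≃ₐ[ℚ] L)) : Prop where
  half : ∀ o, IsHalf (S o)
  idx : ∀ o, (stab (S o)).index ≤ XX n
  nil : tf p ν j (S none) = 0
  lab : ∀ l g, (tf p ν j (S (some l)) g : ℚ) = (nD (Dec p ν j) : ℚ) * bet (MM n) l g

theorem sg_of_sign {s : (L ≃ₐ[ℚ] L) → ℤ} (hs : IsSign (cc L) s) :
    IsHalf {g | s g = 1} ∧ sg {g | s g = 1} = s := by
  constructor
  · intro σ
    change s σ = 1 ↔ ¬ s (cc L * σ) = 1
    have h1 : s (cc L * σ) = -s σ := hs.odd σ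
    rw [h1]
    rcases hs.sign σ with h | h <;> rw [h] <;> norm_num
  · funext σ
    unfold sg
    rcases hs.sign σ with h | h
    · rw [if_pos (show σ ∈ {σ | s σ = 1} from h), h]
    · rw [if_neg (fun h' : σ ∈ {σ | s σ = 1} => by
        have h2 : s σ = 1 := h'
        rw [h] at h2
        norm_num at h2), h]

theorem exists_tab (hkp : BigA (kp p) j) (H : Subgroup (L ≃ₐ[ℚ] L)) (hH : H.index = 2 * MM n)
    (hDH : ∀ g, ∃ d ∈ Dec p ν j, d⁻¹ * g ∈ H) :
    ∃ S : Option (Lb p ν j n) → Set (L ≃ₐ[ℚ] L), IsTab j n S := by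
  classical
  obtain ⟨ψ⟩ : Nonempty ((kp p).E →+* ℂ) := inferInstance
  obtain ⟨φ0, -⟩ := hkp ψ
  choose s hs1 hs2 hs3 using fun l : Lb p ν j n =>
    exists_label_sign (fun g => cc_comm j g) cc_cc H hH hDH l
  let S : Option (Lb p ν j n) → Set (L ≃ₐ[ℚ] L) := fun o => match o with
    | none => hs (kp p) j φ0
    | some l => {g | s l g = 1}
  refine ⟨S, ?_, ?_, ?_, ?_⟩
  · rintro (_ | l)
    · exact isHalf_hs (kp p) j φ0
    · exact (sg_of_sign (hs1 l)).1
  · rintro (_ | l)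
    · refine (index_hs_le j (kp p) hkp φ0).trans ?_
      rw [finrank_kp]
      exact two_le_XX n
    · change (stab {g | s l g = 1}).index ≤ XX n
      rw [← rst_sg, (sg_of_sign (hs1 l)).2]
      exact hs2 l
  · change tf p ν j (hs (kp p) j φ0) = 0
    rw [tf_hs]
    exact nn_kp (p := p) (ν := ν) (j := j) φ0
  · intro l g
    change (tf p ν j {g | s l g = 1} g : ℚ) = _
    rw [tf_eq_av, (sg_of_sign (hs1 l)).2, hs3 l g, nD_eq]
    push_cast
    rfl

variable {j n} {S : Option (Lb p ν j n) → Set (L ≃ₐ[ℚ] L)}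

theorem IsTab.ext (hS : IsTab j n S) (o : Option (Lb p ν j n)) :
    tf p ν j (S o) = ext0 (fun l => tf p ν j (S (some l))) o := by
  rcases o with _ | l
  · exact hS.nil
  · rfl

theorem IsTab.conj (hS : IsTab j n S) (l : Lb p ν j n) :
    tf p ν j (S (some (clj j n l))) = -tf p ν j (S (some l)) := by
  funext g
  have h1 : (tf p ν j (S (some (clj j n l))) g : ℚ) = -(tf p ν j (S (some l)) g : ℚ) := by
    rw [hS.lab, hS.lab]
    have h2 : bet (MM n) (clj j n l) g = -bet (MM n) l g :=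
      bet_cl (fun g => cc_comm j g) cc_cc (MM n) l g
    rw [h2]
    ring
  rw [Pi.neg_apply]
  exact_mod_cast h1

/-- The sum of the family belonging to a function. -/
theorem IsTab.sum_fw (hS : IsTab j n S) {f : (L ≃ₐ[ℚ] L) → ℚ} (hf : IsAtom (Dec p ν j) (cc L) n f)
    (r : ℕ) (g : L ≃ₐ[ℚ] L) :
    ((∑ k, tf p ν j (S (fw (ee (MM n) f) r (clj j n) k)) g : ℤ) : ℚ) =
      -((nD (Dec p ν j) : ℚ) * f g) := by
  have h1 : ∑ k, tf p ν j (S (fw (ee (MM n) f) r (clj j n) k)) g =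
      -∑ l, (ee (MM n) f l : ℤ) * tf p ν j (S (some l)) g := by
    rw [← BR.sum_fw (fun l => tf p ν j (S (some l))) (ee (MM n) f) r (clj j n) hS.conj g]
    exact Finset.sum_congr rfl fun k _ => by rw [hS.ext]
  rw [h1]
  push_cast
  rw [← eq_sum_bet (fun g => cc_comm j g) hf g, Finset.mul_sum]
  congr 1
  refine Finset.sum_congr rfl fun l _ => ?_
  rw [hS.lab]
  ring

end tab

section realise

variable {p : ℕ} [Fact p.Prime] {ν : PadicAlgCl p ≃+* ℂ}
  {L : Type} [Field L] [NumberField L] [IsCMField L] [IsGalois ℚ L] (j : L →+* ℂ)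

/-- There is an abelian variety with weights belonging to the given half systems. -/
theorem exists_weights {Q : Type} [Fintype Q] (y : Q → Set (L ≃ₐ[ℚ] L)) (hy : ∀ q, IsHalf (y q)) :
    ∃ (Z : RedAV p ν) (J : Q → Wt Z.X L), Big Z.X j ∧ Function.Injective J ∧
      (∀ q, St j (J q) = y q) ∧ finrank ℚ Z.X.H1 = ∑ q, (stab (y q)).index := by
  obtain ⟨Z, hZ⟩ := exists_av (p := p) (ν := ν) j y hy
  obtain ⟨X, a, pos, π, frob⟩ := Z
  have hZ' : X = prodOf j y hy := hZ
  subst hZ'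
  refine ⟨⟨prodOf j y hy, a, pos, π, frob⟩, fun k => wt j y hy k 1,
    Pool.Agent.W417.TA.big_prodOf j y hy, fun k k' h => wt_fst_eq j y hy h, fun k => ?_, ?_⟩
  · have h1 : St j (wt j y hy k 1) = tr 1 (y k) := St_wt j y hy k 1
    rw [tr_one] at h1
    exact h1
  · change finrank ℚ (∀ i : Q, (pairOf j (y i) (hy i)).E) = _
    rw [Module.finrank_pi_fintype]
    exact Finset.sum_congr rfl fun i _ => finrank_pairOf j (y i) (hy i)

end realise

section few

variable {p : ℕ} [Fact p.Prime] {ν : PadicAlgCl p ≃+* ℂ} {Ω : Type} [Field Ω] [CharZero Ω]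
  {L : Type} [Field L] [NumberField L] [IsCMField L] [IsGalois ℚ L] (j : L →+* ℂ) (jO : L →+* Ω)
  {K : Type} [DecidableEq K] {H : K → Type} [∀ i, AddCommGroup (H i)] [∀ i, Module Ω (H i)]
  {a : ℕ} {φ : ∀ i, H i →ₗ[Ω] H i} {n : ℕ}

/-- Few half systems and at most one of the varieties. -/
theorem few_mem (ha : 0 < a) {T : Finset K} (hT : T.card ≤ 1) {w : ML Ω H T} {b R : ℕ}
    {f : (L ≃ₐ[ℚ] L) → ℚ} {y : L} (hnum : IsNum p ν j a b f y)
    (hw : ((frobW φ T - jO y • (1 : ML Ω H T →ₗ[Ω] ML Ω H T)) ^ R) w = 0) {Q : Type} [Fintype Q]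
    (u : Q → Set (L ≃ₐ[ℚ] L)) (hu : ∀ q, IsHalf (u q)) (hidx : ∀ q, (stab (u q)).index ≤ XX n)
    (hQ : Fintype.card Q ≤ EE n + 2)
    (hsum : ∀ σ, ((∑ q, tf p ν j (u q) σ : ℤ) : ℚ) + (nD (Dec p ν j) : ℚ) * f σ = 0)
    (heven : Even (Fintype.card Q + b)) :
    AlgMW a φ (BB n) T p ν j jO Q (fun q => tf p ν j (u q)) w := by
  classical
  obtain ⟨Z, J, hZ, hJ, hSt, hdim⟩ := exists_weights (p := p) (ν := ν) j u hu
  have h1 : IsTate a φ R (tens (monoO jO J) w) := by
    refine isTate_of_rel j jO hZ J ha hnum hw (fun σ => ?_) heven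
    rw [← hsum σ]
    simp only [hSt]
  have h2 : finrank ℚ Z.X.H1 ≤ 2 * BB n := by
    rw [hdim, BB_eq]
    refine (Finset.sum_le_card_nsmul _ _ _ fun q _ => hidx q).trans ?_
    rw [smul_eq_mul, Finset.card_univ]
    exact Nat.mul_le_mul_right _ hQ
  have h3 : AlgW a φ (BB n) T Z Q (tens (monoO jO J) w) := AlgW.few hT h2 R _ h1
  have h4 := @pullW p _ ν Ω _ _ L _ _ _ _ K _ H _ _ a φ (BB n) T j jO Z hZ Q _ _ J hJ w h3
  have h5 : (fun q => tf p ν j (u q)) = fun q => tf p ν j (St j (J q)) := by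
    funext q
    rw [hSt q]
  rw [h5]
  exact @h4

end few

end

end Pool.Agent.R937.BR
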